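import Pool.Agent.Lib.MP_bae66e_nt.BrunT
import Pool.Agent.Lib.MP_bae66e_nt.Mg.G075

/-!
# An absolute proportion of the multipliers: definitions
-/

set_option autoImplicit false

namespace Pool.Agent.Lib.MP_bae66e_nt.AC

open Finset
open Pool.Agent.Lib.MP_bae66e_nt.LL (fP)

/-- The Selberg weights `lam` of level `T` for the squarefree product `P` of the sieving primes; `G` is the sum of
`1 / φ l` over the `l ≤ T` which divide `P`. -/
structure SD (P T : ℕ) (G : ℝ) (lam : ℕ → ℝ) : Prop where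
  sqf : Squarefree P
  one : lam 1 = 1
  bd : ∀ d, d ∣ P → |lam d| ≤ 1
  supp : ∀ d, T < d → lam d = 0
  diag : ∀ l, l ∣ P → ∑ d ∈ P.divisors with l ∣ d, lam d / d =
    if l ≤ T then (ArithmeticFunction.moebius l : ℝ) / (Nat.totient l * G) else 0
  gsum : ∑ l ∈ P.divisors with l ≤ T, 1 / (Nat.totient l : ℝ) = G
  gone : 1 ≤ G

/-- the Selberg majorant -/
noncomputable def sg (P : ℕ) (lam : ℕ → ℝ) (n : ℕ) : ℝ := (∑ d ∈ P.divisors with d ∣ n, lam d) ^ 2

/-- the Ramanujan coefficients of the majorant -/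
noncomputable def Uc (P : ℕ) (lam : ℕ → ℝ) (e : ℕ) : ℝ :=
  ∑ x ∈ P.divisors ×ˢ P.divisors with e ∣ x.1.lcm x.2, lam x.1 * lam x.2 / (x.1.lcm x.2 : ℕ)

/-- the pairs in the same class modulo `k` -/
noncomputable def Ek (H k : ℕ) (F : ℕ → ℝ) : ℝ :=
  ∑ t ∈ Icc 1 H, ∑ t' ∈ Icc 1 H, if t ≡ t' [MOD k] then F t * F t' else 0

/-- the classes `v` modulo `W` with `v` and `m - v` coprime to `W` -/
def VV (W m : ℕ) : Finset ℕ :=
  {v ∈ range W | Nat.Coprime v W ∧ IsCoprime ((m : ℤ) - (v : ℤ)) (W : ℤ)}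

/-- the singular series of `m` over the primes dividing `W` -/
noncomputable def Sg (W m : ℕ) : ℝ := (W : ℝ) * (#(VV W m) : ℝ) / (Nat.totient W : ℝ) ^ 2

/-- the weights of the class of `m` -/
noncomputable def FC (H W s m t : ℕ) : ℝ :=
  if IsCoprime (((s * m : ℕ) : ℤ) - (t : ℤ)) (W : ℤ) then fP H (t : ℤ) else 0

end Pool.Agent.Lib.MP_bae66e_nt.AC
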