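import Pool.Agent.Lib.MP_bae66e_nt.AC.Defs

/-!
# Row A: existence of the Selberg weights
-/

set_option autoImplicit false

namespace Pool.Agent.Lib.MP_bae66e_nt.AC

open Finset
open Pool.Agent.Lib.MP_bae66e_nt

private theorem terms_eq (T D l : ℕ) (hl : l ∣ sProd D T) :
    (linS D 0 1 T).selbergTerms l = 1 / (Nat.totient l : ℝ) := by
  have hl0 : l ≠ 0 := ne_zero_of_dvd_ne_zero (squarefree_sProd D T).ne_zero hl
  have h2 : (Nat.totient l : ℝ) = l * ∏ p ∈ l.primeFactors, (1 - (p : ℝ)⁻¹) := by
    have := Nat.totient_eq_mul_prod_factors l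
    have h3 := congrArg (fun x : ℚ => (x : ℝ)) this
    push_cast at h3
    exact h3
  rw [BoundingSieve.selbergTerms_apply, h2]
  show (1 / (l : ℝ)) * ∏ p ∈ l.primeFactors, (1 - (1 / (p : ℝ)))⁻¹ = _
  rw [Finset.prod_inv_distrib, ← one_div, one_div_mul_one_div]
  congr 2
  refine Finset.prod_congr rfl fun p _ => ?_
  rw [one_div]

theorem exists_SD (D T : ℕ) (hD : 1 ≤ D) (hT : 1 ≤ T) :
    ∃ (G : ℝ) (lam : ℕ → ℝ), rho D * Real.log (T + 1) ≤ G ∧ SD (sProd D T) T G lam := by
  set s := linS D 0 1 T with hs
  have hP : s.prodPrimes = sProd D T := rfl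
  have hGpos := selS_pos (s := s) hT
  refine ⟨selS s T, selW s T, ?_, ?_⟩
  · have h3 := sum_c_le_selS (s := s) (m := D) invHom
      (fun n => by rw [invHom_apply]; positivity)
      (fun p hp => by
        rw [invHom_apply]
        have : (1 : ℝ) < p := by exact_mod_cast hp.one_lt
        rw [div_lt_one (by linarith)]
        exact this) (fun p _ _ => rfl) (R := T) rfl
    exact (rho_mul_log_le (by omega) T).trans h3
  · refine ⟨squarefree_sProd D T, selW_one hT, fun d hd => abs_selW_le hT hd, fun d hd => selW_eq_zero_of_lt hd,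
      ?_, ?_, ?_⟩
    · intro l hl
      have h1 := sum_nu_mul_selW (s := s) (R := T) (l := l) hl
      rw [Finset.sum_filter]
      have h2 : ∀ d ∈ (sProd D T).divisors, (if l ∣ d then selW s T d / d else 0) =
          (if l ∣ d then s.nu d * selW s T d else 0) := by
        intro d _
        split_ifs
        · show selW s T d / d = 1 / (d : ℝ) * selW s T d
          ring
        · rfl
      rw [Finset.sum_congr rfl h2]
      refine h1.trans ?_
      split_ifs
      · rw [hs, terms_eq T D l hl, ← hs]
        field_simp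
      · rfl
    · unfold selS
      refine Finset.sum_congr rfl fun l hl => ?_
      rw [Finset.mem_filter, Nat.mem_divisors] at hl
      exact (terms_eq T D l hl.1.1).symm
    · have h1 : (1 : ℕ) ∈ {l ∈ s.prodPrimes.divisors | l ≤ T} := by
        simp [hT, BoundingSieve.prodPrimes_ne_zero]
      have h2 : s.selbergTerms 1 ≤ selS s T := by
        unfold selS
        refine Finset.single_le_sum (f := fun l => s.selbergTerms l) ?_ h1
        intro i hi
        simp only [Finset.mem_filter, Nat.mem_divisors] at hi
        exact (BoundingSieve.selbergTerms_pos hi.1.1).le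
      rwa [selbergTerms_one] at h2

end Pool.Agent.Lib.MP_bae66e_nt.AC
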