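import Pool.Agent.Lib.MP_bae66e_nt.AC.Defs

set_option autoImplicit false

namespace Pool.Agent.Lib.MP_bae66e_nt.AC

open Finset

variable {P T : ℕ} {G : ℝ} {lam : ℕ → ℝ}

theorem RB_totient (a b : ℕ) (ha : Squarefree a) :
    Nat.totient (a.gcd b) * Nat.totient (a.lcm b) = Nat.totient a * Nat.totient b := by
  have ha0 : a ≠ 0 := ha.ne_zero
  have hg0 : 0 < a.gcd b := Nat.gcd_pos_of_pos_left _ (Nat.pos_of_ne_zero ha0)
  obtain ⟨a', ha'⟩ := Nat.gcd_dvd_left a b
  obtain ⟨b', hb'⟩ := Nat.gcd_dvd_right a b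
  set g := a.gcd b with hg
  have hgc : Nat.Coprime a' b' := by
    have h1 : g * a'.gcd b' = g * 1 := by
      rw [← Nat.gcd_mul_left, ← ha', ← hb', mul_one]
    exact Nat.eq_of_mul_eq_mul_left hg0 h1
  have hag : Nat.Coprime g a' := by
    have : Squarefree (g * a') := by rw [← ha']; exact ha
    exact Nat.coprime_of_squarefree_mul this
  have hab : Nat.Coprime a' b := by
    rw [hb']
    exact Nat.Coprime.mul_right hag.symm hgc
  have hl : a.lcm b = a' * b := by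
    have h1 : g * a.lcm b = a * b := Nat.gcd_mul_lcm a b
    have h2 : g * a.lcm b = g * (a' * b) := by
      rw [h1]
      nth_rewrite 1 [ha']
      ring
    exact Nat.eq_of_mul_eq_mul_left hg0 h2
  have h5 : Nat.totient a = Nat.totient g * Nat.totient a' := by
    rw [← Nat.totient_mul hag, ← ha']
  rw [hl, Nat.totient_mul hab, h5]
  ring

/-- PROOF. For `A, B ∣ P`: put `z k = ∑ d ∈ P.divisors with k ∣ d, lam d / d`. For `d₁, d₂ ∣ P`: `1/lcm(d₁,d₂) = gcd(d₁,d₂)/(d₁ d₂)` and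
`gcd(d₁,d₂) = ∑_{l ∣ d₁, l ∣ d₂} φ(l)` (`Nat.sum_totient`). `A ∣ d₁` and `l ∣ d₁` iff `lcm(A,l) ∣ d₁`. Interchange the sums. -/
theorem bilinear (h : SD P T G lam) (A B : ℕ) :
    ∑ x ∈ P.divisors ×ˢ P.divisors with A ∣ x.1 ∧ B ∣ x.2, lam x.1 * lam x.2 / (x.1.lcm x.2 : ℕ) =
      ∑ l ∈ P.divisors, (Nat.totient l : ℝ) * (∑ d ∈ P.divisors with A.lcm l ∣ d, lam d / d) *
        (∑ d ∈ P.divisors with B.lcm l ∣ d, lam d / d) := by
  have hP0 : P ≠ 0 := h.sqf.ne_zero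
  rw [Finset.sum_filter, Finset.sum_product]
  have hR : ∀ l ∈ P.divisors, (Nat.totient l : ℝ) *
      (∑ d ∈ P.divisors with A.lcm l ∣ d, lam d / d) *
        (∑ d ∈ P.divisors with B.lcm l ∣ d, lam d / d) =
      ∑ d₁ ∈ P.divisors, ∑ d₂ ∈ P.divisors, (Nat.totient l : ℝ) *
        (if A.lcm l ∣ d₁ then lam d₁ / d₁ else 0) * (if B.lcm l ∣ d₂ then lam d₂ / d₂ else 0) := by
    intro l _
    rw [Finset.sum_filter, Finset.sum_filter, mul_assoc, Finset.sum_mul_sum, Finset.mul_sum]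
    refine Finset.sum_congr rfl fun d₁ _ => ?_
    rw [Finset.mul_sum]
    refine Finset.sum_congr rfl fun d₂ _ => ?_
    ring
  rw [Finset.sum_congr rfl hR]
  conv_rhs => rw [Finset.sum_comm]
  refine Finset.sum_congr rfl fun d₁ hd₁ => ?_
  conv_rhs => rw [Finset.sum_comm]
  refine Finset.sum_congr rfl fun d₂ hd₂ => ?_
  have hd1 := Nat.dvd_of_mem_divisors hd₁
  have hd2 := Nat.dvd_of_mem_divisors hd₂
  have h10 : d₁ ≠ 0 := ne_zero_of_dvd_ne_zero hP0 hd1
  have h20 : d₂ ≠ 0 := ne_zero_of_dvd_ne_zero hP0 hd2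
  have hgcd : ∑ l ∈ P.divisors with l ∣ d₁ ∧ l ∣ d₂, (Nat.totient l : ℝ) = (d₁.gcd d₂ : ℕ) := by
    have h1 : P.divisors.filter (fun l => l ∣ d₁ ∧ l ∣ d₂) = (d₁.gcd d₂).divisors := by
      ext l
      simp only [Finset.mem_filter, Nat.mem_divisors, ← Nat.dvd_gcd_iff]
      constructor
      · rintro ⟨⟨_, _⟩, h3⟩
        exact ⟨h3, Nat.gcd_ne_zero_left h10⟩
      · rintro ⟨h3, _⟩
        exact ⟨⟨(h3.trans (Nat.gcd_dvd_left _ _)).trans hd1, hP0⟩, h3⟩
    rw [h1]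
    exact_mod_cast Nat.sum_totient (d₁.gcd d₂)
  have hlcm : (d₁.gcd d₂ : ℝ) * (d₁.lcm d₂ : ℕ) = d₁ * d₂ := by
    exact_mod_cast Nat.gcd_mul_lcm d₁ d₂
  have hl0 : ((d₁.lcm d₂ : ℕ) : ℝ) ≠ 0 := by
    exact_mod_cast Nat.lcm_ne_zero h10 h20
  have h10' : (d₁ : ℝ) ≠ 0 := by exact_mod_cast h10
  have h20' : (d₂ : ℝ) ≠ 0 := by exact_mod_cast h20
  have hterm : ∀ l ∈ P.divisors, (Nat.totient l : ℝ) *
      (if A.lcm l ∣ d₁ then lam d₁ / d₁ else 0) * (if B.lcm l ∣ d₂ then lam d₂ / d₂ else 0) =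
      (if A ∣ d₁ ∧ B ∣ d₂ then (lam d₁ / d₁) * (lam d₂ / d₂) else 0) *
        (if l ∣ d₁ ∧ l ∣ d₂ then (Nat.totient l : ℝ) else 0) := by
    intro l _
    by_cases hA : A ∣ d₁ <;> by_cases hB : B ∣ d₂ <;> by_cases h1 : l ∣ d₁ <;>
      by_cases h2 : l ∣ d₂ <;> simp [Nat.lcm_dvd_iff, hA, hB, h1, h2]
    ring
  rw [Finset.sum_congr rfl hterm, ← Finset.mul_sum, ← Finset.sum_filter, hgcd]
  by_cases hAB : A ∣ d₁ ∧ B ∣ d₂
  · rw [if_pos hAB, if_pos hAB]
    rw [div_mul_div_comm, div_mul_eq_mul_div, div_eq_div_iff hl0 (mul_ne_zero h10' h20')]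
    linear_combination (-(lam d₁ * lam d₂)) * hlcm
  · rw [if_neg hAB, if_neg hAB, zero_mul]

/-- PROOF. `bilinear` with `A = B = 1` and `diag`: the sum over the `l ≤ T` of `φ(l) (1/(φ(l) G))² = (1/G²) ∑ 1/φ(l) = 1/G` (`gsum`). -/
theorem Uc_one (h : SD P T G lam) : Uc P lam 1 = 1 / G := by
  have h1 := bilinear h 1 1
  have hG : G ≠ 0 := by
    have := h.gone
    positivity
  have h2 : Uc P lam 1 = ∑ x ∈ P.divisors ×ˢ P.divisors with 1 ∣ x.1 ∧ 1 ∣ x.2,
      lam x.1 * lam x.2 / (x.1.lcm x.2 : ℕ) := by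
    unfold Uc
    refine Finset.sum_congr ?_ fun _ _ => rfl
    refine Finset.filter_congr fun x _ => ?_
    simp
  rw [h2, h1]
  have h3 : ∀ l ∈ P.divisors, (Nat.totient l : ℝ) *
      (∑ d ∈ P.divisors with Nat.lcm 1 l ∣ d, lam d / d) *
        (∑ d ∈ P.divisors with Nat.lcm 1 l ∣ d, lam d / d) =
      if l ≤ T then (1 / G ^ 2) * (1 / (Nat.totient l : ℝ)) else 0 := by
    intro l hl
    have hl' := Nat.dvd_of_mem_divisors hl
    rw [Nat.lcm_one_left, h.diag l hl']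
    have hl0 : 0 < l := Nat.pos_of_mem_divisors hl
    have hφ : (Nat.totient l : ℝ) ≠ 0 := by
      exact_mod_cast (Nat.totient_pos.2 hl0).ne'
    have hμ : (ArithmeticFunction.moebius l : ℝ) ^ 2 = 1 := by
      exact_mod_cast ArithmeticFunction.moebius_sq_eq_one_of_squarefree
        (h.sqf.squarefree_of_dvd hl')
    split_ifs
    · field_simp
      exact hμ
    · ring
  rw [Finset.sum_congr rfl h3, ← Finset.sum_filter, ← Finset.mul_sum, h.gsum]
  field_simp

/-- the number of divisors of a squarefree number -/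
theorem RB_card {e : ℕ} (he : Squarefree e) : #e.divisors = 2 ^ e.primeFactors.card := by
  rw [Nat.card_divisors he.ne_zero, ← Finset.prod_const]
  refine Finset.prod_congr rfl fun x hx => ?_
  have h1 := (Nat.squarefree_iff_factorization_le_one he.ne_zero).1 he x
  have h2 : 0 < e.factorization x :=
    (Nat.prime_of_mem_primeFactors hx).factorization_pos_of_dvd he.ne_zero
      (Nat.dvd_of_mem_primeFactors hx)
  omega

/-- the sum of `φ(gcd(e,l))/φ(l)` -/
theorem RB_sum (h : SD P T G lam) {e : ℕ} (he : e ∣ P) :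
    ∑ l ∈ P.divisors with l ≤ T, (Nat.totient (e.gcd l) : ℝ) / Nat.totient l ≤
      2 ^ e.primeFactors.card * G := by
  have hP0 : P ≠ 0 := h.sqf.ne_zero
  have hes : Squarefree e := h.sqf.squarefree_of_dvd he
  have he0 : e ≠ 0 := hes.ne_zero
  have hmaps : ∀ l ∈ P.divisors.filter (fun l => l ≤ T), e.gcd l ∈ e.divisors := by
    intro l _
    exact Nat.mem_divisors.2 ⟨Nat.gcd_dvd_left _ _, he0⟩
  rw [← Finset.sum_fiberwise_of_maps_to hmaps]
  have hcard : (2 : ℝ) ^ e.primeFactors.card * G = ∑ g ∈ e.divisors, G := by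
    rw [Finset.sum_const, RB_card hes, nsmul_eq_mul]
    push_cast
    rfl
  rw [hcard]
  refine Finset.sum_le_sum fun g hg => ?_
  have hg0 : 0 < g := Nat.pos_of_mem_divisors hg
  have hinj : Set.InjOn (fun l => l / g)
      (((P.divisors.filter (fun l => l ≤ T)).filter (fun l => e.gcd l = g) : Finset ℕ) : Set ℕ) := by
    intro l hl l' hl' hll
    simp only [Finset.coe_filter, Finset.mem_filter, Set.mem_ofPred_eq] at hl hl'
    have h1 : g ∣ l := by rw [← hl.2]; exact Nat.gcd_dvd_right _ _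
    have h2 : g ∣ l' := by rw [← hl'.2]; exact Nat.gcd_dvd_right _ _
    have hll' : l / g = l' / g := hll
    rw [← Nat.div_mul_cancel h1, ← Nat.div_mul_cancel h2, hll']
  have hval : ∀ l ∈ (P.divisors.filter (fun l => l ≤ T)).filter (fun l => e.gcd l = g),
      (Nat.totient (e.gcd l) : ℝ) / Nat.totient l = 1 / (Nat.totient (l / g) : ℝ) := by
    intro l hl
    simp only [Finset.mem_filter] at hl
    have h1 : g ∣ l := by rw [← hl.2]; exact Nat.gcd_dvd_right _ _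
    obtain ⟨k, hk⟩ := h1
    have hlP := Nat.dvd_of_mem_divisors hl.1.1
    have hls : Squarefree (g * k) := by rw [← hk]; exact h.sqf.squarefree_of_dvd hlP
    have hcop : Nat.Coprime g k := Nat.coprime_of_squarefree_mul hls
    have hk0 : 0 < k := by
      rcases Nat.eq_zero_or_pos k with h0 | h0
      · rw [h0, mul_zero] at hls
        exact absurd hls not_squarefree_zero
      · exact h0
    have e1 : l / g = k := by
      rw [hk]
      exact Nat.mul_div_cancel_left k hg0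
    rw [hl.2, e1, hk, Nat.totient_mul hcop]
    have hφg : (Nat.totient g : ℝ) ≠ 0 := by exact_mod_cast (Nat.totient_pos.2 hg0).ne'
    have hφk : (Nat.totient k : ℝ) ≠ 0 := by exact_mod_cast (Nat.totient_pos.2 hk0).ne'
    push_cast
    field_simp
  rw [Finset.sum_congr rfl hval]
  rw [← Finset.sum_image (f := fun k => 1 / (Nat.totient k : ℝ)) hinj, ← h.gsum]
  refine Finset.sum_le_sum_of_subset_of_nonneg ?_ fun _ _ _ => by positivity
  intro k hk
  rw [Finset.mem_image] at hk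
  obtain ⟨l, hl, rfl⟩ := hk
  simp only [Finset.mem_filter] at hl ⊢
  have h1 : g ∣ l := by rw [← hl.2]; exact Nat.gcd_dvd_right _ _
  refine ⟨Nat.mem_divisors.2 ⟨(Nat.div_dvd_of_dvd h1).trans (Nat.dvd_of_mem_divisors hl.1.1), hP0⟩,
    (Nat.div_le_self l g).trans hl.1.2⟩

/-- PROOF. `bilinear` and `diag`: for `A ∣ P`, `B ∣ P` the terms with `l ≤ T` have absolute value at most `φ(l)/(φ(lcm(A,l)) φ(lcm(B,l)) G²)`, the others are `0` (if `l > T` then `lcm(A,l) > T`).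
`φ(lcm(A,l)) = φ(A) φ(l)/φ(gcd(A,l))` (`Nat.totient_gcd_mul_totient_lcm` or `Nat.totient_mul` for the squarefree case), so the term is `φ(gcd(A,l)) φ(gcd(B,l))/(φ(A) φ(B) φ(l) G²)`. Here
`e = lcm(A,B)`, `c = gcd(A,B)`: `φ(A) φ(B) = φ(e) φ(c)`, `φ(gcd(A,l)) φ(gcd(B,l)) = φ(gcd(e,l)) φ(gcd(c,l)) ≤ φ(gcd(e,l)) φ(c)`. So the sum is at most
`(1/(φ(e) G²)) ∑_{l ∣ P, l ≤ T} φ(gcd(e,l))/φ(l)`, and `∑_{l ∣ P, l ≤ T} φ(gcd(e,l))/φ(l) ≤ ∑_{g ∣ e} ∑_{k ∣ P, k ≤ T} 1/φ(k) = 2^ω(e) G` (write `l = g k`, `g = gcd(e,l)`, `φ(l) = φ(g) φ(k)`). -/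
theorem bilinear_le (h : SD P T G lam) {A B : ℕ} (hA : A ∣ P) (hB : B ∣ P) :
    |∑ x ∈ P.divisors ×ˢ P.divisors with A ∣ x.1 ∧ B ∣ x.2, lam x.1 * lam x.2 / (x.1.lcm x.2 : ℕ)| ≤
      2 ^ (A.lcm B).primeFactors.card / (Nat.totient (A.lcm B) * G) := by
  have hP0 : P ≠ 0 := h.sqf.ne_zero
  have hA0 : A ≠ 0 := ne_zero_of_dvd_ne_zero hP0 hA
  have hB0 : B ≠ 0 := ne_zero_of_dvd_ne_zero hP0 hB
  have hG1 := h.gone
  have hG : 0 < G := by linarith
  have hAs : Squarefree A := h.sqf.squarefree_of_dvd hA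
  have hBs : Squarefree B := h.sqf.squarefree_of_dvd hB
  have heP : A.lcm B ∣ P := Nat.lcm_dvd hA hB
  have he0 : A.lcm B ≠ 0 := ne_zero_of_dvd_ne_zero hP0 heP
  have hφe : (0 : ℝ) < Nat.totient (A.lcm B) := by
    exact_mod_cast Nat.totient_pos.2 (Nat.pos_of_ne_zero he0)
  rw [bilinear h A B]
  -- the value of one inner sum
  have hin : ∀ (C : ℕ), C ∣ P → ∀ l ∈ P.divisors,
      |∑ d ∈ P.divisors with C.lcm l ∣ d, lam d / d| ≤
        if l ≤ T then 1 / (Nat.totient (C.lcm l) * G) else 0 := by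
    intro C hC l hl
    have hl' := Nat.dvd_of_mem_divisors hl
    have hCl : C.lcm l ∣ P := Nat.lcm_dvd hC hl'
    have hCl0 : C.lcm l ≠ 0 := ne_zero_of_dvd_ne_zero hP0 hCl
    have hφ : (0 : ℝ) < Nat.totient (C.lcm l) := by
      exact_mod_cast Nat.totient_pos.2 (Nat.pos_of_ne_zero hCl0)
    have hle : l ≤ C.lcm l := Nat.le_of_dvd (Nat.pos_of_ne_zero hCl0) (Nat.dvd_lcm_right _ _)
    rw [h.diag _ hCl]
    by_cases h1 : C.lcm l ≤ T
    · rw [if_pos h1, if_pos (hle.trans h1), abs_div, abs_of_pos (mul_pos hφ hG)]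
      have hμ : |(ArithmeticFunction.moebius (C.lcm l) : ℝ)| = 1 := by
        exact_mod_cast ArithmeticFunction.abs_moebius_eq_one_of_squarefree
          (h.sqf.squarefree_of_dvd hCl)
      rw [hμ]
    · rw [if_neg h1, abs_zero]
      split_ifs
      · positivity
      · exact le_rfl
  have hterm : ∀ l ∈ P.divisors, |(Nat.totient l : ℝ) *
      (∑ d ∈ P.divisors with A.lcm l ∣ d, lam d / d) *
        (∑ d ∈ P.divisors with B.lcm l ∣ d, lam d / d)| ≤
      if l ≤ T then 1 / (Nat.totient (A.lcm B) * G ^ 2) *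
        ((Nat.totient ((A.lcm B).gcd l) : ℝ) / Nat.totient l) else 0 := by
    intro l hl
    have hl' := Nat.dvd_of_mem_divisors hl
    have hl0 : 0 < l := Nat.pos_of_mem_divisors hl
    have h1 := hin A hA l hl
    have h2 := hin B hB l hl
    rw [abs_mul, abs_mul, Nat.abs_cast]
    by_cases hlT : l ≤ T
    · rw [if_pos hlT] at h1 h2 ⊢
      have hφl : (0 : ℝ) < Nat.totient l := by exact_mod_cast Nat.totient_pos.2 hl0
      have hAl : A.lcm l ∣ P := Nat.lcm_dvd hA hl'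
      have hBl : B.lcm l ∣ P := Nat.lcm_dvd hB hl'
      have hφA : (0 : ℝ) < Nat.totient (A.lcm l) := by
        exact_mod_cast Nat.totient_pos.2 (Nat.pos_of_ne_zero (ne_zero_of_dvd_ne_zero hP0 hAl))
      have hφB : (0 : ℝ) < Nat.totient (B.lcm l) := by
        exact_mod_cast Nat.totient_pos.2 (Nat.pos_of_ne_zero (ne_zero_of_dvd_ne_zero hP0 hBl))
      have h3 : (Nat.totient l : ℝ) * |∑ d ∈ P.divisors with A.lcm l ∣ d, lam d / d| *
          |∑ d ∈ P.divisors with B.lcm l ∣ d, lam d / d| ≤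
          (Nat.totient l : ℝ) * (1 / (Nat.totient (A.lcm l) * G)) *
            (1 / (Nat.totient (B.lcm l) * G)) := by
        gcongr
      refine h3.trans ?_
      -- the totients
      have t1 := RB_totient A l hAs
      have t2 := RB_totient B l hBs
      have t3 := RB_totient A B hAs
      have hgAs : Squarefree (A.gcd l) := hAs.squarefree_of_dvd (Nat.gcd_dvd_left _ _)
      have t4 := RB_totient (A.gcd l) (B.gcd l) hgAs
      have hc0 : 0 < A.gcd B := Nat.gcd_pos_of_pos_left _ (Nat.pos_of_ne_zero hA0)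
      have t5 : Nat.totient ((A.gcd l).gcd (B.gcd l)) ≤ Nat.totient (A.gcd B) := by
        refine Nat.le_of_dvd (Nat.totient_pos.2 hc0) (Nat.totient_dvd_of_dvd ?_)
        exact Nat.gcd_dvd_gcd_of_dvd_left _ (Nat.gcd_dvd_left _ _) |>.trans
          (Nat.gcd_dvd_gcd_of_dvd_right _ (Nat.gcd_dvd_left _ _))
      have t6 : Nat.totient ((A.gcd l).lcm (B.gcd l)) ≤ Nat.totient ((A.lcm B).gcd l) := by
        refine Nat.le_of_dvd (Nat.totient_pos.2 (Nat.gcd_pos_of_pos_right _ hl0))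
          (Nat.totient_dvd_of_dvd ?_)
        refine Nat.lcm_dvd ?_ ?_
        · exact Nat.gcd_dvd_gcd_of_dvd_left _ (Nat.dvd_lcm_left _ _)
        · exact Nat.gcd_dvd_gcd_of_dvd_left _ (Nat.dvd_lcm_right _ _)
      have t7 : Nat.totient (A.gcd l) * Nat.totient (B.gcd l) ≤
          Nat.totient (A.gcd B) * Nat.totient ((A.lcm B).gcd l) := by
        rw [← t4]
        exact Nat.mul_le_mul t5 t6
      have u1 : (Nat.totient (A.gcd l) : ℝ) * Nat.totient (A.lcm l) =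
          Nat.totient A * Nat.totient l := by exact_mod_cast t1
      have u2 : (Nat.totient (B.gcd l) : ℝ) * Nat.totient (B.lcm l) =
          Nat.totient B * Nat.totient l := by exact_mod_cast t2
      have u3 : (Nat.totient (A.gcd B) : ℝ) * Nat.totient (A.lcm B) =
          Nat.totient A * Nat.totient B := by exact_mod_cast t3
      have u7 : (Nat.totient (A.gcd l) : ℝ) * Nat.totient (B.gcd l) ≤
          Nat.totient (A.gcd B) * Nat.totient ((A.lcm B).gcd l) := by exact_mod_cast t7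
      have hφa : (0 : ℝ) < Nat.totient A := by
        exact_mod_cast Nat.totient_pos.2 (Nat.pos_of_ne_zero hA0)
      have hφb : (0 : ℝ) < Nat.totient B := by
        exact_mod_cast Nat.totient_pos.2 (Nat.pos_of_ne_zero hB0)
      have hφc : (0 : ℝ) < Nat.totient (A.gcd B) := by
        exact_mod_cast Nat.totient_pos.2 hc0
      have e1 : (Nat.totient l : ℝ) * (1 / (Nat.totient (A.lcm l) * G)) *
            (1 / (Nat.totient (B.lcm l) * G)) =
          ((Nat.totient (A.gcd l) : ℝ) * Nat.totient (B.gcd l)) /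
            (Nat.totient A * Nat.totient B * Nat.totient l * G ^ 2) := by
        have e0 : (Nat.totient l : ℝ) * (1 / (Nat.totient (A.lcm l) * G)) *
            (1 / (Nat.totient (B.lcm l) * G)) =
            Nat.totient l / (Nat.totient (A.lcm l) * Nat.totient (B.lcm l) * G ^ 2) := by
          field_simp
        rw [e0, div_eq_div_iff (by positivity) (by positivity)]
        linear_combination (-(G ^ 2 * Nat.totient (B.gcd l) * Nat.totient (B.lcm l))) * u1 -
          (G ^ 2 * (Nat.totient A * Nat.totient l)) * u2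
      have e2 : 1 / (Nat.totient (A.lcm B) * G ^ 2) *
          ((Nat.totient ((A.lcm B).gcd l) : ℝ) / Nat.totient l) =
          ((Nat.totient (A.gcd B) : ℝ) * Nat.totient ((A.lcm B).gcd l)) /
            (Nat.totient A * Nat.totient B * Nat.totient l * G ^ 2) := by
        rw [← u3]
        field_simp
      rw [e1, e2]
      gcongr
    · rw [if_neg hlT] at h1 h2 ⊢
      have h4 : |∑ d ∈ P.divisors with A.lcm l ∣ d, lam d / d| = 0 :=
        le_antisymm h1 (abs_nonneg _)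
      rw [h4]
      simp
  refine (Finset.abs_sum_le_sum_abs _ _).trans ((Finset.sum_le_sum hterm).trans ?_)
  rw [← Finset.sum_filter, ← Finset.mul_sum]
  have h5 := RB_sum h heP
  have h6 : (2 : ℝ) ^ (A.lcm B).primeFactors.card / (Nat.totient (A.lcm B) * G) =
      1 / (Nat.totient (A.lcm B) * G ^ 2) * (2 ^ (A.lcm B).primeFactors.card * G) := by
    field_simp
  rw [h6]
  gcongr

/-- the sum over the pairs divisible by `A` and `B` such that each prime of `s` divides one member -/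
noncomputable def RB_U (P : ℕ) (lam : ℕ → ℝ) (s : Finset ℕ) (A B : ℕ) : ℝ :=
  ∑ x ∈ P.divisors ×ˢ P.divisors,
    if (A ∣ x.1 ∧ B ∣ x.2) ∧ ∀ p ∈ s, p ∣ x.1 ∨ p ∣ x.2 then
      lam x.1 * lam x.2 / (x.1.lcm x.2 : ℕ) else 0

theorem RB_U_insert (s : Finset ℕ) (p A B : ℕ) :
    RB_U P lam (insert p s) A B = RB_U P lam s (A.lcm p) B + RB_U P lam s A (B.lcm p) -
      RB_U P lam s (A.lcm p) (B.lcm p) := by
  unfold RB_U
  rw [← Finset.sum_add_distrib, ← Finset.sum_sub_distrib]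
  refine Finset.sum_congr rfl fun x _ => ?_
  by_cases h1 : A ∣ x.1 <;> by_cases h2 : B ∣ x.2 <;> by_cases h3 : p ∣ x.1 <;>
    by_cases h4 : p ∣ x.2 <;> by_cases h5 : ∀ q ∈ s, q ∣ x.1 ∨ q ∣ x.2 <;>
    simp [Nat.lcm_dvd_iff, h1, h2, h3, h4, h5]

theorem RB_U_le (h : SD P T G lam) {e : ℕ} (s : Finset ℕ) :
    ∀ A B : ℕ, A ∣ P → B ∣ P → (∀ p ∈ s, p ∣ P) → (A.lcm B).lcm (s.lcm id) = e →
      |RB_U P lam s A B| ≤ 3 ^ s.card * (2 ^ e.primeFactors.card / (Nat.totient e * G)) := by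
  induction s using Finset.induction_on with
  | empty =>
    intro A B hA hB _ hlcm
    have h1 := bilinear_le h hA hB
    have h2 : RB_U P lam ∅ A B =
        ∑ x ∈ P.divisors ×ˢ P.divisors with A ∣ x.1 ∧ B ∣ x.2,
          lam x.1 * lam x.2 / (x.1.lcm x.2 : ℕ) := by
      unfold RB_U
      rw [Finset.sum_filter]
      refine Finset.sum_congr rfl fun x _ => ?_
      simp
    have h3 : A.lcm B = e := by
      rw [← hlcm]
      simp
    rw [h2, Finset.card_empty, pow_zero, one_mul, ← h3]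
    exact h1
  | insert p s hp ih =>
    intro A B hA hB hs hlcm
    have hpP : p ∣ P := hs p (Finset.mem_insert_self p s)
    have hs' : ∀ q ∈ s, q ∣ P := fun q hq => hs q (Finset.mem_insert_of_mem hq)
    have hl0 : (A.lcm B).lcm ((insert p s).lcm id) = ((A.lcm B).lcm p).lcm (s.lcm id) := by
      rw [Finset.lcm_insert]
      exact (Nat.lcm_assoc _ _ _).symm
    rw [hl0] at hlcm
    have hl1 : (A.lcm p).lcm B = (A.lcm B).lcm p := by
      rw [Nat.lcm_assoc, Nat.lcm_comm p B, ← Nat.lcm_assoc]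
    have hl2 : A.lcm (B.lcm p) = (A.lcm B).lcm p := (Nat.lcm_assoc _ _ _).symm
    have hl3 : (A.lcm p).lcm (B.lcm p) = (A.lcm B).lcm p := by
      rw [← Nat.lcm_assoc, hl1, Nat.lcm_assoc, Nat.lcm_self]
    have b1 := ih (A.lcm p) B (Nat.lcm_dvd hA hpP) hB hs' (by rw [hl1]; exact hlcm)
    have b2 := ih A (B.lcm p) hA (Nat.lcm_dvd hB hpP) hs' (by rw [hl2]; exact hlcm)
    have b3 := ih (A.lcm p) (B.lcm p) (Nat.lcm_dvd hA hpP) (Nat.lcm_dvd hB hpP) hs'
      (by rw [hl3]; exact hlcm)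
    rw [RB_U_insert, Finset.card_insert_of_notMem hp, pow_succ]
    have c1 := abs_sub (RB_U P lam s (A.lcm p) B + RB_U P lam s A (B.lcm p))
      (RB_U P lam s (A.lcm p) (B.lcm p))
    have c2 := abs_add_le (RB_U P lam s (A.lcm p) B) (RB_U P lam s A (B.lcm p))
    linarith

/-- PROOF. For squarefree `e` and `d₁, d₂ ∣ P`: `e ∣ lcm(d₁,d₂)` iff for `a = gcd(e,d₁)`, `(e/a) ∣ d₂`. So
`1[e ∣ lcm(d₁,d₂)] = ∑_{a ∣ e} 1[gcd(e,d₁) = a] 1[(e/a) ∣ d₂]` and `1[gcd(e,d₁) = a] = ∑_{b ∣ e/a} μ(b) 1[a b ∣ d₁]`. Hence `Uc e = ∑_{a ∣ e} ∑_{b ∣ e/a} μ(b) S(ab, e/a)` with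
`S(A,B)` the sum of `bilinear_le`, `lcm(ab, e/a) = e`, and there are `3^ω(e)` pairs `(a,b)` (`∑_{a ∣ e} 2^ω(e/a) = 3^ω(e)`). -/
theorem Uc_bound (h : SD P T G lam) {e : ℕ} (he : e ∣ P) :
    |Uc P lam e| ≤ 6 ^ e.primeFactors.card / (Nat.totient e * G) := by
  have hP0 : P ≠ 0 := h.sqf.ne_zero
  have hes : Squarefree e := h.sqf.squarefree_of_dvd he
  have he0 : e ≠ 0 := hes.ne_zero
  have hdvd : ∀ n : ℕ, e ∣ n ↔ ∀ p ∈ e.primeFactors, p ∣ n := by
    intro n
    constructor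
    · intro h1 p hp
      exact (Nat.dvd_of_mem_primeFactors hp).trans h1
    · intro h1
      rw [← Nat.prod_primeFactors_of_squarefree hes]
      exact Finset.prod_primes_dvd n
        (fun p hp => (Nat.prime_of_mem_primeFactors hp).prime) h1
  have h1 : Uc P lam e = RB_U P lam e.primeFactors 1 1 := by
    unfold Uc RB_U
    rw [Finset.sum_filter]
    refine Finset.sum_congr rfl fun x hx => ?_
    have e1 : e ∣ x.1.lcm x.2 ↔ (1 ∣ x.1 ∧ 1 ∣ x.2) ∧
        ∀ p ∈ e.primeFactors, p ∣ x.1 ∨ p ∣ x.2 := by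
      rw [hdvd]
      constructor
      · intro h2
        refine ⟨⟨one_dvd _, one_dvd _⟩, fun p hp => ?_⟩
        exact (Nat.Prime.dvd_lcm (Nat.prime_of_mem_primeFactors hp)).1 (h2 p hp)
      · rintro ⟨-, h2⟩ p hp
        exact (Nat.Prime.dvd_lcm (Nat.prime_of_mem_primeFactors hp)).2 (h2 p hp)
    simp only [e1]
  have hlcm : (Nat.lcm 1 1).lcm (e.primeFactors.lcm id) = e := by
    rw [Nat.lcm_self, Nat.lcm_one_left]
    apply Nat.dvd_antisymm
    · exact Finset.lcm_dvd fun p hp => Nat.dvd_of_mem_primeFactors hp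
    · rw [hdvd]
      intro p hp
      exact Finset.dvd_lcm (f := id) hp
  have h2 := RB_U_le h (e := e) e.primeFactors 1 1 (one_dvd _) (one_dvd _)
    (fun p hp => (Nat.dvd_of_mem_primeFactors hp).trans he) hlcm
  rw [h1]
  refine h2.trans (le_of_eq ?_)
  rw [← mul_div_assoc, ← mul_pow]
  norm_num

end Pool.Agent.Lib.MP_bae66e_nt.AC
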