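import Pool.Agent.Lib.MP_bae66e_nt.AC.Defs

set_option autoImplicit false

namespace Pool.Agent.Lib.MP_bae66e_nt.AC

open Finset

variable {P T : ℕ} {G : ℝ} {lam : ℕ → ℝ}

/-- Moebius inversion: `∑_{e ∣ g} X_e = g Ek(g)` -/
private lemma C_moebius (E : ℕ → ℝ) (g : ℕ) (hg : 0 < g) :
    ∑ e ∈ g.divisors, ∑ k ∈ e.divisors, (ArithmeticFunction.moebius (e / k) : ℝ) * k * E k = g * E g := by
  have h := (ArithmeticFunction.sum_eq_iff_sum_mul_moebius_eq (R := ℝ)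
    (f := fun e => ∑ k ∈ e.divisors, (ArithmeticFunction.moebius (e / k) : ℝ) * k * E k)
    (g := fun g => (g : ℝ) * E g)).2 (fun n _ => by
      rw [Nat.sum_divisorsAntidiagonal' (f := fun a b => (ArithmeticFunction.moebius a : ℝ) * ((b : ℝ) * E b))]
      exact sum_congr rfl fun k _ => by ring)
  exact h g hg

/-- PROOF. Moebius inversion: for `g ≥ 1`, `g Ek(g) = ∑_{e ∣ g} X_e` with `X_e = ∑_{k ∣ e} μ(e/k) k Ek(k)`. For `f = lcm x`, `f' = lcm y`: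
`Ek(gcd(f,f'))/lcm(f,f') = gcd(f,f') Ek(gcd(f,f'))/(f f')` and `e ∣ gcd(f,f')` iff `e ∣ f` and `e ∣ f'`. Interchange the sums: `∑_e X_e (Uc e)²`, `e ∣ P`
(`f ∣ P`). -/
theorem expand (P H : ℕ) (hP : P ≠ 0) (lam F : ℕ → ℝ) :
    ∑ x ∈ P.divisors ×ˢ P.divisors, ∑ y ∈ P.divisors ×ˢ P.divisors,
      lam x.1 * lam x.2 * (lam y.1 * lam y.2) *
        (Ek H ((x.1.lcm x.2).gcd (y.1.lcm y.2)) F / (((x.1.lcm x.2).lcm (y.1.lcm y.2) : ℕ) : ℝ)) =
    ∑ e ∈ P.divisors, (Uc P lam e) ^ 2 *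
      ∑ k ∈ e.divisors, (ArithmeticFunction.moebius (e / k) : ℝ) * k * Ek H k F := by
  classical
  set X : ℕ → ℝ := fun e => ∑ k ∈ e.divisors, (ArithmeticFunction.moebius (e / k) : ℝ) * k * Ek H k F with hX
  set c : ℕ × ℕ → ℕ → ℝ := fun x e => if e ∣ x.1.lcm x.2 then lam x.1 * lam x.2 / (x.1.lcm x.2 : ℕ) else 0 with hc
  have hterm : ∀ x ∈ P.divisors ×ˢ P.divisors, ∀ y ∈ P.divisors ×ˢ P.divisors,
      lam x.1 * lam x.2 * (lam y.1 * lam y.2) *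
        (Ek H ((x.1.lcm x.2).gcd (y.1.lcm y.2)) F / (((x.1.lcm x.2).lcm (y.1.lcm y.2) : ℕ) : ℝ)) =
      ∑ e ∈ P.divisors, c x e * c y e * X e := by
    intro x hx y hy
    rw [mem_product, Nat.mem_divisors, Nat.mem_divisors] at hx hy
    have hxP : x.1.lcm x.2 ∣ P := Nat.lcm_dvd hx.1.1 hx.2.1
    have hyP : y.1.lcm y.2 ∣ P := Nat.lcm_dvd hy.1.1 hy.2.1
    obtain ⟨f, hf⟩ : ∃ f, f = x.1.lcm x.2 := ⟨_, rfl⟩
    obtain ⟨f', hf'⟩ : ∃ f', f' = y.1.lcm y.2 := ⟨_, rfl⟩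
    have hcx : ∀ e, c x e = if e ∣ f then lam x.1 * lam x.2 / (f : ℝ) else 0 := fun e => by rw [hc, hf]
    have hcy : ∀ e, c y e = if e ∣ f' then lam y.1 * lam y.2 / (f' : ℝ) else 0 := fun e => by rw [hc, hf']
    rw [← hf] at hxP ⊢
    rw [← hf'] at hyP ⊢
    have hf0 : 0 < f := Nat.pos_of_dvd_of_pos hxP (Nat.pos_of_ne_zero hP)
    have hf0' : 0 < f' := Nat.pos_of_dvd_of_pos hyP (Nat.pos_of_ne_zero hP)
    have hg0 : 0 < f.gcd f' := Nat.gcd_pos_of_pos_left _ hf0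
    have h1 := C_moebius (fun k => Ek H k F) (f.gcd f') hg0
    have h2 : ∑ e ∈ P.divisors, c x e * c y e * X e =
        ∑ e ∈ (f.gcd f').divisors, (lam x.1 * lam x.2 / f) * (lam y.1 * lam y.2 / f') * X e := by
      have hset : (f.gcd f').divisors = {e ∈ P.divisors | e ∣ f ∧ e ∣ f'} := by
        ext e
        rw [mem_filter, Nat.mem_divisors, Nat.mem_divisors, Nat.dvd_gcd_iff]
        exact ⟨fun h => ⟨⟨h.1.1.trans hxP, hP⟩, h.1⟩, fun h => ⟨h.2, hg0.ne'⟩⟩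
      rw [hset, sum_filter]
      refine sum_congr rfl fun e _ => ?_
      rw [hcx, hcy]
      by_cases h3 : e ∣ f
      · by_cases h4 : e ∣ f'
        · rw [if_pos h3, if_pos h4, if_pos ⟨h3, h4⟩]
        · rw [if_pos h3, if_neg h4, if_neg (fun h : e ∣ f ∧ e ∣ f' => h4 h.2)]
          ring
      · rw [if_neg h3, if_neg (fun h : e ∣ f ∧ e ∣ f' => h3 h.1)]
        ring
    rw [h2, ← mul_sum]
    have h3 : ∑ e ∈ (f.gcd f').divisors, X e = (f.gcd f' : ℕ) * Ek H (f.gcd f') F := h1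
    rw [h3]
    have h4 : ((f.gcd f' : ℕ) : ℝ) * ((f.lcm f' : ℕ) : ℝ) = f * f' := by
      exact_mod_cast Nat.gcd_mul_lcm f f'
    have hf0r : (f : ℝ) ≠ 0 := by exact_mod_cast hf0.ne'
    have hf0r' : (f' : ℝ) ≠ 0 := by exact_mod_cast hf0'.ne'
    have hlr : ((f.lcm f' : ℕ) : ℝ) ≠ 0 := by exact_mod_cast (Nat.lcm_pos hf0 hf0').ne'
    have h5 : (1 : ℝ) / ((f.lcm f' : ℕ) : ℝ) = (f.gcd f' : ℕ) / (f * f') := by
      rw [div_eq_div_iff hlr (mul_ne_zero hf0r hf0r'), one_mul, ← h4]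
    calc lam x.1 * lam x.2 * (lam y.1 * lam y.2) * (Ek H (f.gcd f') F / ((f.lcm f' : ℕ) : ℝ))
        = lam x.1 * lam x.2 * (lam y.1 * lam y.2) * Ek H (f.gcd f') F * (1 / ((f.lcm f' : ℕ) : ℝ)) := by ring
      _ = lam x.1 * lam x.2 * (lam y.1 * lam y.2) * Ek H (f.gcd f') F * ((f.gcd f' : ℕ) / (f * f')) := by rw [h5]
      _ = _ := by
        field_simp
  rw [sum_congr rfl fun x hx => sum_congr rfl fun y hy => hterm x hx y hy]
  have hU : ∀ e, Uc P lam e = ∑ x ∈ P.divisors ×ˢ P.divisors, c x e := by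
    intro e
    unfold Uc
    rw [sum_filter]
  calc ∑ x ∈ P.divisors ×ˢ P.divisors, ∑ y ∈ P.divisors ×ˢ P.divisors, ∑ e ∈ P.divisors, c x e * c y e * X e
      = ∑ x ∈ P.divisors ×ˢ P.divisors, ∑ e ∈ P.divisors, ∑ y ∈ P.divisors ×ˢ P.divisors, c x e * c y e * X e :=
        sum_congr rfl fun x _ => sum_comm
    _ = ∑ e ∈ P.divisors, ∑ x ∈ P.divisors ×ˢ P.divisors, ∑ y ∈ P.divisors ×ˢ P.divisors, c x e * c y e * X e :=
        sum_comm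
    _ = _ := by
      refine sum_congr rfl fun e _ => ?_
      rw [hU e, sq, sum_mul_sum, sum_mul]
      refine sum_congr rfl fun x _ => ?_
      rw [sum_mul]

/-- an interval of `M + 1` integers contains `(M+1)/q + θ` numbers of a class modulo `q` -/
private lemma C_class (M q z : ℕ) (hq : 1 ≤ q) (hM : 1 ≤ M) :
    |(#{m ∈ Icc M (2 * M) | m ≡ z [MOD q]} : ℝ) - ((M : ℝ) + 1) / q| ≤ 1 := by
  have hI : Icc M (2 * M) = Ioc (M - 1) (2 * M) := by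
    ext m
    rw [mem_Icc, mem_Ioc]
    omega
  have h := Nat.Ioc_filter_modEq_card (M - 1) (2 * M) hq z
  rw [← hI] at h
  have hle : ⌊(((M - 1 : ℕ) : ℚ) - z) / (q : ℚ)⌋ ≤ ⌊(((2 * M : ℕ) : ℚ) - z) / (q : ℚ)⌋ := by
    apply Int.floor_le_floor
    gcongr
    omega
  rw [max_eq_left (by linarith)] at h
  have h' : ((#{m ∈ Icc M (2 * M) | m ≡ z [MOD q]} : ℕ) : ℚ) =
      (⌊(((2 * M : ℕ) : ℚ) - z) / (q : ℚ)⌋ : ℚ) - (⌊(((M - 1 : ℕ) : ℚ) - z) / (q : ℚ)⌋ : ℚ) := by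
    exact_mod_cast h
  have h1 := Int.floor_le ((((2 * M : ℕ) : ℚ) - z) / (q : ℚ))
  have h2 := Int.lt_floor_add_one ((((2 * M : ℕ) : ℚ) - z) / (q : ℚ))
  have h3 := Int.floor_le ((((M - 1 : ℕ) : ℚ) - z) / (q : ℚ))
  have h4 := Int.lt_floor_add_one ((((M - 1 : ℕ) : ℚ) - z) / (q : ℚ))
  have h5 : (((2 * M : ℕ) : ℚ) - z) / (q : ℚ) - (((M - 1 : ℕ) : ℚ) - z) / (q : ℚ) = ((M : ℚ) + 1) / q := by
    rw [Nat.cast_sub hM]
    push_cast
    ring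
  have h6 : |((#{m ∈ Icc M (2 * M) | m ≡ z [MOD q]} : ℕ) : ℚ) - ((M : ℚ) + 1) / q| ≤ 1 := by
    rw [h', ← h5, abs_le]
    constructor <;> linarith
  have h7 := (Rat.cast_le (K := ℝ)).mpr h6
  push_cast at h7
  exact_mod_cast h7

/-- one class modulo `f`, in the form of a congruence -/
private lemma C_count (M W c s f t : ℕ) (hW : 1 ≤ W) (hf : 1 ≤ f) (hfW : Nat.Coprime f W) (hfs : Nat.Coprime f s)
    (hM : 1 ≤ M) :
    |(#{m ∈ Icc M (2 * M) | m ≡ c [MOD W] ∧ s * m ≡ t [MOD f]} : ℝ) - ((M : ℝ) + 1) / (W * f)| ≤ 1 := by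
  obtain ⟨k, hk1, hk2⟩ := Nat.chineseRemainder (Nat.coprime_comm.1 hfs) 0 t
  obtain ⟨r, rfl⟩ : s ∣ k := (Nat.modEq_zero_iff_dvd).1 hk1
  obtain ⟨z, hz1, hz2⟩ := Nat.chineseRemainder (Nat.coprime_comm.1 hfW) c r
  have hset : ({m ∈ Icc M (2 * M) | m ≡ c [MOD W] ∧ s * m ≡ t [MOD f]} : Finset ℕ) =
      {m ∈ Icc M (2 * M) | m ≡ z [MOD W * f]} := by
    refine filter_congr fun m _ => ?_
    rw [← Nat.modEq_and_modEq_iff_modEq_mul (Nat.coprime_comm.1 hfW)]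
    constructor
    · rintro ⟨h1, h2⟩
      refine ⟨h1.trans hz1.symm, ?_⟩
      have h3 : s * m ≡ s * r [MOD f] := h2.trans hk2.symm
      exact (Nat.ModEq.cancel_left_of_coprime hfs h3).trans hz2.symm
    · rintro ⟨h1, h2⟩
      exact ⟨h1.trans hz1, ((h2.trans hz2).mul_left s).trans hk2⟩
  rw [hset]
  have h := C_class M (W * f) z (Nat.mul_pos hW hf) hM
  rw [Nat.cast_mul] at h
  exact h

/-- PROOF. `s` is invertible modulo `f`, so `f ∣ s m - t` (`t ≤ s M ≤ s m`) is one class modulo `f`, and with `m ≡ c [MOD W]` one class modulo `W f` (`Nat.chineseRemainder`).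
An interval of `M + 1` integers contains `(M+1)/(W f) + θ`, `|θ| ≤ 1`, numbers of a class (see `abs_card_modEq_sub_le`, `Nat.Ioc_filter_modEq_card`). -/
theorem count_one (M W c s f t : ℕ) (hW : 1 ≤ W) (hf : 1 ≤ f) (hfW : Nat.Coprime f W) (hfs : Nat.Coprime f s)
    (ht : t ≤ s * M) (hM : 1 ≤ M) :
    |(#{m ∈ Icc M (2 * M) | m ≡ c [MOD W] ∧ f ∣ s * m - t} : ℝ) - ((M : ℝ) + 1) / (W * f)| ≤ 1 := by
  have hset : ({m ∈ Icc M (2 * M) | m ≡ c [MOD W] ∧ f ∣ s * m - t} : Finset ℕ) =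
      {m ∈ Icc M (2 * M) | m ≡ c [MOD W] ∧ s * m ≡ t [MOD f]} := by
    refine filter_congr fun m hm => ?_
    have h1 : t ≤ s * m := ht.trans (Nat.mul_le_mul_left s (mem_Icc.1 hm).1)
    rw [← Nat.modEq_iff_dvd' h1]
    exact and_congr_right fun _ => ⟨fun h => h.symm, fun h => h.symm⟩
  rw [hset]
  exact C_count M W c s f t hW hf hfW hfs hM

/-- PROOF. If `t ≡ t'` modulo `gcd(f,f')` the conditions `s m ≡ t (f)`, `s m ≡ t' (f')` are one class modulo `lcm(f,f')` (then as `count_one`), otherwise there is no such `m`. -/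
theorem count_two (M W c s f f' t t' : ℕ) (hW : 1 ≤ W) (hf : 1 ≤ f) (hf' : 1 ≤ f') (hfW : Nat.Coprime f W) (hfs : Nat.Coprime f s)
    (hfW' : Nat.Coprime f' W) (hfs' : Nat.Coprime f' s) (ht : t ≤ s * M) (ht' : t' ≤ s * M) (hM : 1 ≤ M) :
    |(#{m ∈ Icc M (2 * M) | m ≡ c [MOD W] ∧ f ∣ s * m - t ∧ f' ∣ s * m - t'} : ℝ) -
      (if t ≡ t' [MOD f.gcd f'] then ((M : ℝ) + 1) / (W * (f.lcm f' : ℕ)) else 0)| ≤ 1 := by
  have hset : ({m ∈ Icc M (2 * M) | m ≡ c [MOD W] ∧ f ∣ s * m - t ∧ f' ∣ s * m - t'} : Finset ℕ) =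
      {m ∈ Icc M (2 * M) | m ≡ c [MOD W] ∧ s * m ≡ t [MOD f] ∧ s * m ≡ t' [MOD f']} := by
    refine filter_congr fun m hm => ?_
    have h1 : t ≤ s * m := ht.trans (Nat.mul_le_mul_left s (mem_Icc.1 hm).1)
    have h2 : t' ≤ s * m := ht'.trans (Nat.mul_le_mul_left s (mem_Icc.1 hm).1)
    rw [← Nat.modEq_iff_dvd' h1, ← Nat.modEq_iff_dvd' h2]
    exact and_congr_right fun _ => and_congr ⟨fun h => h.symm, fun h => h.symm⟩ ⟨fun h => h.symm, fun h => h.symm⟩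
  rw [hset]
  by_cases hg : t ≡ t' [MOD f.gcd f']
  · rw [if_pos hg]
    obtain ⟨u, hu1, hu2⟩ := Nat.chineseRemainder' hg
    have hset2 : ({m ∈ Icc M (2 * M) | m ≡ c [MOD W] ∧ s * m ≡ t [MOD f] ∧ s * m ≡ t' [MOD f']} : Finset ℕ) =
        {m ∈ Icc M (2 * M) | m ≡ c [MOD W] ∧ s * m ≡ u [MOD f.lcm f']} := by
      refine filter_congr fun m _ => and_congr_right fun _ => ?_
      constructor
      · rintro ⟨h1, h2⟩
        have h3 : s * m ≡ u [MOD f] := h1.trans hu1.symm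
        have h4 : s * m ≡ u [MOD f'] := h2.trans hu2.symm
        rw [Nat.modEq_iff_dvd] at h3 h4 ⊢
        have h5 := Int.natCast_dvd.1 h3
        have h6 := Int.natCast_dvd.1 h4
        exact Int.natCast_dvd.2 (Nat.lcm_dvd h5 h6)
      · intro h
        exact ⟨(h.of_dvd (Nat.dvd_lcm_left _ _)).trans hu1, (h.of_dvd (Nat.dvd_lcm_right _ _)).trans hu2⟩
    rw [hset2]
    have hlW : Nat.Coprime (f.lcm f') W :=
      Nat.Coprime.coprime_dvd_left (Nat.lcm_dvd_mul f f') (Nat.Coprime.mul_left hfW hfW')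
    have hls : Nat.Coprime (f.lcm f') s :=
      Nat.Coprime.coprime_dvd_left (Nat.lcm_dvd_mul f f') (Nat.Coprime.mul_left hfs hfs')
    exact C_count M W c s (f.lcm f') u hW (Nat.lcm_pos hf hf') hlW hls hM
  · rw [if_neg hg]
    have hempty : ({m ∈ Icc M (2 * M) | m ≡ c [MOD W] ∧ s * m ≡ t [MOD f] ∧ s * m ≡ t' [MOD f']} : Finset ℕ) = ∅ := by
      refine filter_eq_empty_iff.2 fun m _ h => hg ?_
      exact (h.2.1.of_dvd (Nat.gcd_dvd_left _ _)).symm.trans (h.2.2.of_dvd (Nat.gcd_dvd_right _ _))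
    rw [hempty, card_empty]
    simp

end Pool.Agent.Lib.MP_bae66e_nt.AC
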