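import Pool.Agent.Lib.MP_bae66e_nt.AC.Defs

set_option autoImplicit false

namespace Pool.Agent.Lib.MP_bae66e_nt.AC

open Finset
open Pool.Agent.Lib.MP_bae66e_nt
open Pool.Agent.Lib.MP_bae66e_nt.LL (fP corr corr_fP_le)

lemma RowD_fP_nonneg (H : ℕ) (n : ℤ) : 0 ≤ fP H n := by
  unfold fP
  split_ifs
  · exact Real.log_natCast_nonneg H
  · exact le_rfl

lemma RowD_fP_le (H : ℕ) (n : ℤ) : fP H n ≤ Real.log H := by
  unfold fP
  split_ifs
  · exact le_rfl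
  · exact Real.log_natCast_nonneg H

lemma RowD_inner (H k t : ℕ) (hk : 1 ≤ k) (f : ℕ → ℝ) (hf : ∀ n, 0 ≤ f n) :
    ∑ t' ∈ Icc 1 H, (if t < t' ∧ t ≡ t' [MOD k] then f t' else 0) ≤
      ∑ j ∈ Icc 1 (H / k), f (t + k * j) := by
  rw [← Finset.sum_filter]
  have h1 : ∑ j ∈ Icc 1 (H / k), f (t + k * j) =
      ∑ n ∈ (Icc 1 (H / k)).image (fun j => t + k * j), f n := by
    rw [Finset.sum_image]
    intro x _ y _ hxy
    have h2 : k * x = k * y := by simpa using hxy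
    exact Nat.eq_of_mul_eq_mul_left (by omega) h2
  rw [h1]
  apply Finset.sum_le_sum_of_subset_of_nonneg
  · intro t' ht'
    rw [Finset.mem_filter, Finset.mem_Icc] at ht'
    obtain ⟨⟨h2, h3⟩, h4, h5⟩ := ht'
    obtain ⟨j, hj⟩ := (Nat.modEq_iff_dvd' h4.le).1 h5
    rw [Finset.mem_image]
    refine ⟨j, ?_, by omega⟩
    rw [Finset.mem_Icc]
    refine ⟨?_, ?_⟩
    · rcases Nat.eq_zero_or_pos j with h6 | h6
      · subst h6
        omega
      · exact h6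
    · rw [Nat.le_div_iff_mul_le (by omega)]
      rw [mul_comm]
      omega
  · intro n _ _
    exact hf n

lemma RowD_split (H k : ℕ) (f : ℕ → ℝ) :
    (∑ t ∈ Icc 1 H, ∑ t' ∈ Icc 1 H, if t ≡ t' [MOD k] then f t * f t' else 0) =
      ∑ t ∈ Icc 1 H, f t * f t +
        2 * ∑ t ∈ Icc 1 H, f t * ∑ t' ∈ Icc 1 H, (if t < t' ∧ t ≡ t' [MOD k] then f t' else 0) := by
  have h1 : ∀ t ∈ Icc 1 H, ∀ t' ∈ Icc 1 H, (if t ≡ t' [MOD k] then f t * f t' else 0) =
      (if t = t' then f t * f t' else 0) + (if t < t' ∧ t ≡ t' [MOD k] then f t * f t' else 0) +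
        (if t' < t ∧ t' ≡ t [MOD k] then f t' * f t else 0) := by
    intro t _ t' _
    rcases lt_trichotomy t t' with h | h | h
    · rw [if_neg (by omega : ¬ t = t'), if_neg (by omega : ¬ (t' < t ∧ t' ≡ t [MOD k]))]
      simp [h]
    · subst h
      simp
      intro h2
      exact absurd rfl h2
    · rw [if_neg (by omega : ¬ t = t'), if_neg (by omega : ¬ (t < t' ∧ t ≡ t' [MOD k]))]
      by_cases h2 : t ≡ t' [MOD k]
      · rw [if_pos h2, if_pos ⟨h, h2.symm⟩]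
        ring
      · rw [if_neg h2, if_neg (fun h3 => h2 h3.2.symm)]
        ring
  rw [Finset.sum_congr rfl fun t ht => Finset.sum_congr rfl fun t' ht' => h1 t ht t' ht']
  simp only [Finset.sum_add_distrib]
  have h2 : ∑ t ∈ Icc 1 H, ∑ t' ∈ Icc 1 H, (if t = t' then f t * f t' else 0) =
      ∑ t ∈ Icc 1 H, f t * f t := by
    refine Finset.sum_congr rfl fun t ht => ?_
    rw [Finset.sum_ite_eq, if_pos ht]
  have h3 : ∑ t ∈ Icc 1 H, ∑ t' ∈ Icc 1 H,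
      (if t' < t ∧ t' ≡ t [MOD k] then f t' * f t else 0) =
      ∑ t ∈ Icc 1 H, ∑ t' ∈ Icc 1 H, (if t < t' ∧ t ≡ t' [MOD k] then f t * f t' else 0) := by
    rw [Finset.sum_comm]
  have h4 : ∑ t ∈ Icc 1 H, ∑ t' ∈ Icc 1 H, (if t < t' ∧ t ≡ t' [MOD k] then f t * f t' else 0) =
      ∑ t ∈ Icc 1 H, f t * ∑ t' ∈ Icc 1 H, (if t < t' ∧ t ≡ t' [MOD k] then f t' else 0) := by
    refine Finset.sum_congr rfl fun t _ => ?_
    rw [Finset.mul_sum]
    refine Finset.sum_congr rfl fun t' _ => ?_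
    rw [mul_ite, mul_zero]
  rw [h2, h3, h4]
  ring

lemma RowD_corr (H h : ℕ) (hH : 2 ≤ H) (hh : 1 ≤ h) :
    ∑ t ∈ Icc 1 H, fP H (t : ℤ) * fP H ((t + h : ℕ) : ℤ) ≤ 2000 * (1 / rho h) ^ 2 * H := by
  have h3 : ∑ t ∈ Icc 1 H, fP H (t : ℤ) * fP H ((t + h : ℕ) : ℤ) ≤ corr H (fP H) (h : ℤ) := by
    unfold corr
    have h3 : ∑ t ∈ Icc 1 H, fP H (t : ℤ) * fP H ((t + h : ℕ) : ℤ) =
        ∑ n ∈ (Icc 1 H).image (fun t : ℕ => (t : ℤ)), fP H n * fP H (n + h) := by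
      rw [Finset.sum_image (fun x _ y _ hxy => by exact_mod_cast hxy)]
      refine Finset.sum_congr rfl fun t _ => ?_
      push_cast
      rfl
    rw [h3]
    apply Finset.sum_le_sum_of_subset_of_nonneg
    · intro n hn
      obtain ⟨t, ht, rfl⟩ := Finset.mem_image.1 hn
      rw [Finset.mem_Icc] at ht ⊢
      omega
    · intro n _ _
      exact mul_nonneg (RowD_fP_nonneg _ _) (RowD_fP_nonneg _ _)
  refine h3.trans ((le_abs_self _).trans ?_)
  have h4 := corr_fP_le H hH (h : ℤ) (by exact_mod_cast (by omega : h ≠ 0))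
  rwa [Int.natAbs_natCast] at h4

/-- PROOF. `0 ≤ F ≤ fP`, so `Ek(F) ≤ Ek(fP) = ∑_t fP(t)² + 2 ∑_{h ≤ H, k ∣ h} ∑_t fP(t) fP(t+h)`. The first sum is at most `H (log H)²`, and
`∑_t fP(t) fP(t+h) ≤ corr H fP h ≤ 2000 H/rho(h)²` (`corr_fP_le`). For `h = j k`: `rho(j k) ≥ rho j rho k` (`rho_mul_ge`), and `∑_{j ≤ H/k} 1/rho(j)² ≤ ∑ 1/rho(j)⁴ ≤ e^30 H/k`
(`sum_inv_rho_pow_four_le`, `rho_le_one`). So `C = 4000 e^30`. -/
theorem Ek_bound : ∃ C : ℝ, 1 ≤ C ∧ ∀ (H k : ℕ) (F : ℕ → ℝ), 2 ≤ H → 1 ≤ k →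
    (∀ t ∈ Icc 1 H, 0 ≤ F t ∧ F t ≤ fP H (t : ℤ)) →
    Ek H k F ≤ H * (Real.log H) ^ 2 + C * (H : ℝ) ^ 2 / (k * rho k ^ 2) := by
  refine ⟨4000 * Real.exp 30, ?_, ?_⟩
  · have := Real.add_one_le_exp (30 : ℝ)
    linarith
  intro H k F hH hk hF
  set f : ℕ → ℝ := fun t => fP H (t : ℤ) with hf
  have hf0 : ∀ n, 0 ≤ f n := fun n => RowD_fP_nonneg H n
  have hfL : ∀ n, f n ≤ Real.log H := fun n => RowD_fP_le H n
  have hHr : (0 : ℝ) < H := by exact_mod_cast (by omega : 0 < H)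
  have hkr : (0 : ℝ) < k := by exact_mod_cast hk
  have hrk : 0 < rho k := rho_pos k
  have h1 : Ek H k F ≤ ∑ t ∈ Icc 1 H, ∑ t' ∈ Icc 1 H, if t ≡ t' [MOD k] then f t * f t' else 0 := by
    unfold Ek
    refine Finset.sum_le_sum fun t ht => Finset.sum_le_sum fun t' ht' => ?_
    split_ifs
    · exact mul_le_mul (hF t ht).2 (hF t' ht').2 (hF t' ht').1 (hf0 t)
    · exact le_rfl
  refine h1.trans ?_
  rw [RowD_split H k f]
  refine add_le_add ?_ ?_
  · calc ∑ t ∈ Icc 1 H, f t * f t ≤ ∑ t ∈ Icc 1 H, (Real.log H) ^ 2 := by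
          refine Finset.sum_le_sum fun t _ => ?_
          have h2 := hf0 t
          have h3 := hfL t
          nlinarith
      _ = H * (Real.log H) ^ 2 := by
          rw [Finset.sum_const, Nat.card_Icc, nsmul_eq_mul]
          simp
  · have h2 : ∑ t ∈ Icc 1 H, f t * ∑ t' ∈ Icc 1 H, (if t < t' ∧ t ≡ t' [MOD k] then f t' else 0) ≤
        ∑ t ∈ Icc 1 H, f t * ∑ j ∈ Icc 1 (H / k), f (t + k * j) :=
      Finset.sum_le_sum fun t _ => mul_le_mul_of_nonneg_left (RowD_inner H k t hk f hf0) (hf0 t)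
    have h3 : ∑ t ∈ Icc 1 H, f t * ∑ j ∈ Icc 1 (H / k), f (t + k * j) =
        ∑ j ∈ Icc 1 (H / k), ∑ t ∈ Icc 1 H, f t * f (t + k * j) := by
      simp only [Finset.mul_sum]
      rw [Finset.sum_comm]
    have h4 : ∀ j ∈ Icc 1 (H / k), ∑ t ∈ Icc 1 H, f t * f (t + k * j) ≤
        2000 * H / rho k ^ 2 * (1 / rho j ^ 4) := by
      intro j hj
      rw [Finset.mem_Icc] at hj
      have hj0 : 0 < rho j := rho_pos j
      have hj1 : rho j ≤ 1 := rho_le_one j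
      have h5 := RowD_corr H (k * j) hH (Nat.one_le_iff_ne_zero.mpr
        (Nat.mul_ne_zero (by omega) (by omega)))
      refine h5.trans ?_
      have h6 := rho_mul_ge k j (by omega) (by omega)
      have h7 : 0 < rho k * rho j := mul_pos hrk hj0
      have h8 : 1 / rho (k * j) ≤ 1 / (rho k * rho j) := one_div_le_one_div_of_le h7 h6
      have h9 : 0 ≤ 1 / rho (k * j) := (one_div_pos.mpr (rho_pos _)).le
      have h10 : (1 / rho (k * j)) ^ 2 ≤ (1 / (rho k * rho j)) ^ 2 := pow_le_pow_left₀ h9 h8 2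
      have h11 : rho j ^ 4 ≤ rho j ^ 2 := pow_le_pow_of_le_one hj0.le hj1 (by norm_num)
      have h12 : 1 / rho j ^ 2 ≤ 1 / rho j ^ 4 := one_div_le_one_div_of_le (by positivity) h11
      calc 2000 * (1 / rho (k * j)) ^ 2 * H ≤ 2000 * (1 / (rho k * rho j)) ^ 2 * H := by gcongr
        _ = 2000 * H / rho k ^ 2 * (1 / rho j ^ 2) := by
            rw [one_div, inv_pow, mul_pow, one_div]
            field_simp
        _ ≤ 2000 * H / rho k ^ 2 * (1 / rho j ^ 4) :=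
            mul_le_mul_of_nonneg_left h12 (by positivity)
    have h5 := sum_inv_rho_pow_four_le (H / k)
    have h6 : ((H / k : ℕ) : ℝ) ≤ H / k := Nat.cast_div_le
    have h7 : ∑ j ∈ Icc 1 (H / k), ∑ t ∈ Icc 1 H, f t * f (t + k * j) ≤
        2000 * H / rho k ^ 2 * (Real.exp 30 * (H / k)) := by
      refine (Finset.sum_le_sum h4).trans ?_
      rw [← Finset.mul_sum]
      refine mul_le_mul_of_nonneg_left ?_ (by positivity)
      exact h5.trans (mul_le_mul_of_nonneg_left h6 (Real.exp_pos _).le)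
    rw [h3] at h2
    calc 2 * ∑ t ∈ Icc 1 H, f t * ∑ t' ∈ Icc 1 H, (if t < t' ∧ t ≡ t' [MOD k] then f t' else 0)
        ≤ 2 * (2000 * H / rho k ^ 2 * (Real.exp 30 * (H / k))) := by linarith
      _ = 4000 * Real.exp 30 * (H : ℝ) ^ 2 / (k * rho k ^ 2) := by
          field_simp
          ring

end Pool.Agent.Lib.MP_bae66e_nt.AC
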