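import Pool.Agent.Lib.MP_bae66e_nt.AC.RowB

set_option autoImplicit false

namespace Pool.Agent.Lib.MP_bae66e_nt.AC

open Finset
open Pool.Agent.Lib.MP_bae66e_nt

/-- the sum over the divisors of a squarefree number -/
lemma RowE_sum_prod {P : ℕ} (hP : Squarefree P) (g : ℕ → ℝ) :
    ∑ e ∈ P.divisors, ∏ p ∈ e.primeFactors, g p = ∏ p ∈ P.primeFactors, (1 + g p) := by
  have h1 := (ArithmeticFunction.IsMultiplicative.prodPrimeFactors g
    ).prodPrimeFactors_one_add_of_squarefree hP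
  have h2 : ∏ p ∈ P.primeFactors, (1 + g p) =
      ∏ p ∈ P.primeFactors, (1 + ArithmeticFunction.prodPrimeFactors g p) := by
    refine Finset.prod_congr rfl fun p hp => ?_
    have hpp := Nat.prime_of_mem_primeFactors hp
    rw [ArithmeticFunction.prodPrimeFactors_apply hpp.ne_zero, hpp.primeFactors,
      Finset.prod_singleton]
  rw [h2, h1]
  refine Finset.sum_congr rfl fun e he => ?_
  rw [ArithmeticFunction.prodPrimeFactors_apply (Nat.pos_of_mem_divisors he).ne']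

lemma RowE_half_le_rho (n : ℕ) : (1 / 2 : ℝ) ^ n.primeFactors.card ≤ rho n := by
  unfold rho
  rw [← Finset.prod_const]
  apply Finset.prod_le_prod
  · intro p _
    norm_num
  · intro p hp
    have hp2 : (2 : ℝ) ≤ p := by exact_mod_cast (Nat.prime_of_mem_primeFactors hp).two_le
    have := one_div_le_one_div_of_le (by norm_num) hp2
    linarith

lemma RowE_totient (n : ℕ) : (Nat.totient n : ℝ) = n * rho n := by
  unfold rho
  have h := Nat.totient_eq_mul_prod_factors n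
  have h2 : ((Nat.totient n : ℚ) : ℝ) = ((n * ∏ p ∈ n.primeFactors, (1 - (p : ℚ)⁻¹) : ℚ) : ℝ) := by
    rw [h]
  push_cast at h2
  simp only [one_div]
  exact h2

lemma RowE_le_totient (n : ℕ) : (n : ℝ) ≤ 2 ^ n.primeFactors.card * (Nat.totient n : ℝ) := by
  rw [RowE_totient]
  have h1 := RowE_half_le_rho n
  have h2 : (2 : ℝ) ^ n.primeFactors.card * (1 / 2 : ℝ) ^ n.primeFactors.card = 1 := by
    rw [← mul_pow]
    norm_num
  have h3 : (0 : ℝ) ≤ n := Nat.cast_nonneg n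
  have h4 : (0 : ℝ) < 2 ^ n.primeFactors.card := by positivity
  calc (n : ℝ) = n * (2 ^ n.primeFactors.card * (1 / 2 : ℝ) ^ n.primeFactors.card) := by
        rw [h2, mul_one]
    _ = (2 ^ n.primeFactors.card * n) * (1 / 2 : ℝ) ^ n.primeFactors.card := by ring
    _ ≤ (2 ^ n.primeFactors.card * n) * rho n := mul_le_mul_of_nonneg_left h1 (by positivity)
    _ = _ := by ring

/-- a prime divisor of a divisor of `e` -/
lemma RowE_card_mono {k e : ℕ} (h : k ∣ e) (he : e ≠ 0) :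
    k.primeFactors.card ≤ e.primeFactors.card :=
  Finset.card_le_card (Nat.primeFactors_mono h he)

lemma RowE_card_divisors {e : ℕ} (he : Squarefree e) :
    (e.divisors.card : ℝ) = 2 ^ e.primeFactors.card := by
  have h := RowE_sum_prod he (fun _ => 1)
  simp only [Finset.prod_const_one, Finset.sum_const, nsmul_eq_mul, mul_one, Finset.prod_const] at h
  rw [h]
  norm_num

/-- the inner sum -/
lemma RowE_inner {e : ℕ} (he : Squarefree e) (L Q : ℝ) (hL : 0 ≤ L) (hQ : 0 ≤ Q) (E : ℕ → ℝ)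
    (hE : ∀ k, 1 ≤ k → 0 ≤ E k ∧ E k ≤ L + Q / (k * rho k ^ 2)) :
    ∑ k ∈ e.divisors, (k : ℝ) * E k ≤
      2 ^ e.primeFactors.card * e * L + 8 ^ e.primeFactors.card * Q := by
  have he0 : e ≠ 0 := he.ne_zero
  have h1 : ∀ k ∈ e.divisors, (k : ℝ) * E k ≤ e * L + 4 ^ e.primeFactors.card * Q := by
    intro k hk
    have hke := Nat.dvd_of_mem_divisors hk
    have hk0 : 1 ≤ k := Nat.pos_of_mem_divisors hk
    have hkr : (0 : ℝ) < k := by exact_mod_cast hk0
    have hk1 : (k : ℝ) ≤ e := by exact_mod_cast Nat.le_of_dvd (by omega) hke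
    have hr := rho_pos k
    have h2 := mul_le_mul_of_nonneg_left (hE k hk0).2 hkr.le
    have h3 : (k : ℝ) * (L + Q / (k * rho k ^ 2)) = k * L + 1 / rho k ^ 2 * Q := by
      field_simp
    have h4 : 1 / rho k ^ 2 ≤ 4 ^ e.primeFactors.card := by
      have h5 : (1 / 2 : ℝ) ^ e.primeFactors.card ≤ rho k :=
        (pow_le_pow_of_le_one (by norm_num) (by norm_num) (RowE_card_mono hke he0)).trans
          (RowE_half_le_rho k)
      have h6 : ((1 / 2 : ℝ) ^ e.primeFactors.card) ^ 2 ≤ rho k ^ 2 :=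
        pow_le_pow_left₀ (by positivity) h5 2
      refine (one_div_le_one_div_of_le (by positivity) h6).trans (le_of_eq ?_)
      rw [← pow_mul, mul_comm, pow_mul, one_div, ← inv_pow]
      norm_num
    have h7 := mul_le_mul_of_nonneg_right h4 hQ
    have h8 := mul_le_mul_of_nonneg_right hk1 hL
    linarith
  refine (Finset.sum_le_sum h1).trans ?_
  rw [Finset.sum_const, nsmul_eq_mul, RowE_card_divisors he]
  have h2 : (8 : ℝ) ^ e.primeFactors.card = 2 ^ e.primeFactors.card * 4 ^ e.primeFactors.card := by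
    rw [← mul_pow]
    norm_num
  rw [h2]
  apply le_of_eq
  ring

/-- one term -/
lemma RowE_term {P T : ℕ} {G : ℝ} {lam : ℕ → ℝ} (h : SD P T G lam) {e : ℕ} (he : e ∣ P)
    (L Q : ℝ) (hL : 0 ≤ L) (hQ : 0 ≤ Q) (E : ℕ → ℝ)
    (hE : ∀ k, 1 ≤ k → 0 ≤ E k ∧ E k ≤ L + Q / (k * rho k ^ 2)) :
    (Uc P lam e) ^ 2 * ∑ k ∈ e.divisors, (k : ℝ) * E k ≤
      1 / G ^ 2 * (L * ∏ p ∈ e.primeFactors, (288 / (p : ℝ)) +
        Q * ∏ p ∈ e.primeFactors, (1152 / (p : ℝ) ^ 2)) := by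
  have hes : Squarefree e := h.sqf.squarefree_of_dvd he
  have he0 : e ≠ 0 := hes.ne_zero
  have her : (0 : ℝ) < e := by exact_mod_cast Nat.pos_of_ne_zero he0
  have hG : 0 < G := by linarith [h.gone]
  set ω := e.primeFactors.card with hω
  have hφ : (0 : ℝ) < Nat.totient e := by exact_mod_cast Nat.totient_pos.mpr (Nat.pos_of_ne_zero he0)
  have h1 := Uc_bound h he
  have h2 : (Uc P lam e) ^ 2 ≤ (6 ^ ω / (Nat.totient e * G)) ^ 2 := by
    rw [← sq_abs]
    exact pow_le_pow_left₀ (abs_nonneg _) h1 2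
  have h3 : 6 ^ ω / (Nat.totient e * G) ≤ 12 ^ ω / (e * G) := by
    rw [div_le_div_iff₀ (by positivity) (by positivity)]
    have h4 := RowE_le_totient e
    have h5 : (12 : ℝ) ^ ω = 6 ^ ω * 2 ^ ω := by
      rw [← mul_pow]
      norm_num
    rw [h5]
    have h6 : (0 : ℝ) ≤ 6 ^ ω * G := by positivity
    have h7 := mul_le_mul_of_nonneg_left h4 h6
    calc (6 : ℝ) ^ ω * (e * G) = 6 ^ ω * G * e := by ring
      _ ≤ 6 ^ ω * G * (2 ^ ω * Nat.totient e) := h7
      _ = _ := by ring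
  have h4 : (Uc P lam e) ^ 2 ≤ 144 ^ ω / (e ^ 2 * G ^ 2) := by
    refine h2.trans ((pow_le_pow_left₀ (by positivity) h3 2).trans (le_of_eq ?_))
    rw [div_pow, mul_pow, ← pow_mul, mul_comm ω 2, pow_mul]
    norm_num
  have h5 := RowE_inner hes L Q hL hQ E hE
  have hS0 : 0 ≤ ∑ k ∈ e.divisors, (k : ℝ) * E k :=
    Finset.sum_nonneg fun k hk => mul_nonneg (Nat.cast_nonneg _) (hE k (Nat.pos_of_mem_divisors hk)).1
  have hprod : ∏ p ∈ e.primeFactors, (p : ℝ) = e := by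
    have := Nat.prod_primeFactors_of_squarefree hes
    rw [← Nat.cast_prod, this]
  have h6 : ∏ p ∈ e.primeFactors, ((288 : ℝ) / (p : ℝ)) = (288 : ℝ) ^ ω / (e : ℝ) := by
    rw [Finset.prod_div_distrib, Finset.prod_const, hprod]
  have h7 : ∏ p ∈ e.primeFactors, ((1152 : ℝ) / (p : ℝ) ^ 2) = (1152 : ℝ) ^ ω / (e : ℝ) ^ 2 := by
    rw [Finset.prod_div_distrib, Finset.prod_const, Finset.prod_pow, hprod]
  rw [h6, h7]
  have h8 : (288 : ℝ) ^ ω = 144 ^ ω * 2 ^ ω := by
    rw [← mul_pow]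
    norm_num
  have h9 : (1152 : ℝ) ^ ω = 144 ^ ω * 8 ^ ω := by
    rw [← mul_pow]
    norm_num
  rw [h8, h9]
  calc (Uc P lam e) ^ 2 * ∑ k ∈ e.divisors, (k : ℝ) * E k
      ≤ 144 ^ ω / (e ^ 2 * G ^ 2) * (2 ^ ω * e * L + 8 ^ ω * Q) :=
        mul_le_mul h4 h5 hS0 (by positivity)
    _ = _ := by
        field_simp

/-- the tail of the sum of the inverse squares -/
lemma RowE_tail (w : ℕ) (hw : 1 ≤ w) (S : Finset ℕ) (hS : ∀ p ∈ S, w < p) :
    ∑ p ∈ S, (1 : ℝ) / (p : ℝ) ^ 2 ≤ (1 : ℝ) / (w : ℝ) := by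
  have hwr : (0 : ℝ) < w := by exact_mod_cast hw
  obtain ⟨N, hN⟩ : ∃ N : ℕ, S ⊆ Ioc w N := by
    refine ⟨S.sup id, fun p hp => ?_⟩
    rw [Finset.mem_Ioc]
    exact ⟨hS p hp, Finset.le_sup (f := id) hp⟩
  have h1 : ∀ N : ℕ, w ≤ N → ∑ p ∈ Ioc w N, (1 : ℝ) / (p : ℝ) ^ 2 ≤
      (1 : ℝ) / (w : ℝ) - (1 : ℝ) / (N : ℝ) := by
    intro N hN
    induction N, hN using Nat.le_induction with
    | base => simp
    | succ N hN ih =>
      rw [Finset.sum_Ioc_succ_top (by omega)]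
      have hNr : (0 : ℝ) < N := by exact_mod_cast (by omega : 0 < N)
      have h2 : (1 : ℝ) / ((N + 1 : ℕ) : ℝ) ^ 2 ≤
          (1 : ℝ) / (N : ℝ) - (1 : ℝ) / ((N + 1 : ℕ) : ℝ) := by
        push_cast
        rw [div_sub_div _ _ (by positivity) (by positivity), div_le_div_iff₀ (by positivity) (by positivity)]
        nlinarith
      linarith
  by_cases hwN : w ≤ N
  · have h2 := h1 N hwN
    have h3 : (0 : ℝ) ≤ (1 : ℝ) / (N : ℝ) := by positivity
    refine (Finset.sum_le_sum_of_subset_of_nonneg hN fun p _ _ => by positivity).trans ?_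
    linarith
  · have h2 : Ioc w N = ∅ := Finset.Ioc_eq_empty (by omega)
    rw [h2, Finset.subset_empty] at hN
    rw [hN, Finset.sum_empty]
    positivity

/-- PROOF. `P = sProd D T`, its prime factors are primes in `(w, T]` (`prime_dvd_sProd_iff`). `Uc_bound`: `(Uc e)² ≤ 36^ω(e)/(φ(e)² G²)`. `∑_{k ∣ e} k E k ≤ 2^ω(e) e L + C Q ∑_{k ∣ e} 1/rho(k)²`, `1/rho(k)² ≤ 4^ω(k)`, `∑_{k ∣ e} 4^ω(k) = 5^ω(e)`.
`φ(e) ≥ e/2^ω(e)`. So the sum is at most `(1/G²) (L ∑_{e ∣ P} 288^ω(e)/e + C Q ∑_{e ∣ P, e ≠ 1} 720^ω(e)/e²)`; `∑_{e ∣ P} 288^ω(e)/e = ∏_{p ∣ P} (1 + 288/p) ≤ exp(288 ∑_{p ≤ T} 1/p)`, `sum_inv_prms_le`: `≤ exp(288 (6 log log T + 4))`, so at most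
`K (log T)^K`; `∑_{e ∣ P, e ≠ 1} 720^ω(e)/e² = ∏ (1 + 720/p²) - 1 ≤ exp(720 ∑_{p > w} 1/p²) - 1 ≤ exp(720/w) - 1 ≤ 720 e^720/w`. -/
theorem sum_e : ∃ K : ℝ, 1 ≤ K ∧ ∀ (D T w : ℕ) (G L Q : ℝ) (lam E : ℕ → ℝ), 1 ≤ w → 3 ≤ T → D ≠ 0 → primorial w ∣ D →
    0 ≤ L → 0 ≤ Q → SD (sProd D T) T G lam → (∀ k, 1 ≤ k → 0 ≤ E k ∧ E k ≤ L + Q / (k * rho k ^ 2)) →
    ∑ e ∈ (sProd D T).divisors with e ≠ 1, (Uc (sProd D T) lam e) ^ 2 * ∑ k ∈ e.divisors, (k : ℝ) * E k ≤
      1 / G ^ 2 * (K * (Real.log T) ^ K * L + K * Q / w) := by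
  have hexp : (1 : ℝ) ≤ Real.exp 1152 := Real.one_le_exp (by norm_num)
  have hexp2 : (1153 : ℝ) ≤ Real.exp 1152 := by
    have := Real.add_one_le_exp (1152 : ℝ)
    linarith
  refine ⟨1152 * Real.exp 1152, by linarith, ?_⟩
  intro D T w G L Q lam E hw hT hD hwD hL hQ hSD hE
  set P := sProd D T with hP
  set K : ℝ := 1152 * Real.exp 1152 with hK
  have hG : 0 < G := by linarith [hSD.gone]
  have hwr : (1 : ℝ) ≤ w := by exact_mod_cast hw
  have hTr : (3 : ℝ) ≤ T := by exact_mod_cast hT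
  have hlogT : 1 ≤ Real.log T := by
    rw [Real.le_log_iff_exp_le (by linarith)]
    have := Real.exp_one_lt_d9
    linarith
  have hpf : P.primeFactors = sPrimes D T := primeFactors_sProd D T
  have hbig : ∀ p ∈ P.primeFactors, w < p := by
    intro p hp
    have hpp := Nat.prime_of_mem_primeFactors hp
    have h1 := (prime_dvd_sProd_iff hpp).1 (Nat.dvd_of_mem_primeFactors hp)
    by_contra h2
    rw [not_lt] at h2
    exact h1.2 ((hpp.dvd_primorial_iff.2 h2).trans hwD)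
  have hsub : P.primeFactors ⊆ prms T := by
    intro p hp
    have hpp := Nat.prime_of_mem_primeFactors hp
    exact mem_prms.2 ⟨((prime_dvd_sProd_iff hpp).1 (Nat.dvd_of_mem_primeFactors hp)).1, hpp⟩
  -- the first sum
  have hA : ∑ e ∈ P.divisors with e ≠ 1, ∏ p ∈ e.primeFactors, (288 / (p : ℝ)) ≤
      K * (Real.log T) ^ K := by
    have h1 : ∑ e ∈ P.divisors with e ≠ 1, ∏ p ∈ e.primeFactors, (288 / (p : ℝ)) ≤
        ∑ e ∈ P.divisors, ∏ p ∈ e.primeFactors, (288 / (p : ℝ)) :=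
      Finset.sum_le_sum_of_subset_of_nonneg (Finset.filter_subset _ _) fun e _ _ =>
        Finset.prod_nonneg fun p _ => by positivity
    refine h1.trans ?_
    rw [RowE_sum_prod hSD.sqf]
    calc ∏ p ∈ P.primeFactors, (1 + 288 / (p : ℝ))
        ≤ ∏ p ∈ P.primeFactors, Real.exp (288 / (p : ℝ)) := by
          refine Finset.prod_le_prod (fun p _ => by positivity) fun p _ => ?_
          have := Real.add_one_le_exp (288 / (p : ℝ))
          linarith
      _ = Real.exp (∑ p ∈ P.primeFactors, 288 / (p : ℝ)) := (Real.exp_sum _ _).symm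
      _ ≤ Real.exp (288 * (6 * Real.log (Real.log T) + 4)) := by
          refine Real.exp_le_exp.mpr ?_
          calc ∑ p ∈ P.primeFactors, 288 / (p : ℝ) ≤ ∑ p ∈ prms T, 288 / (p : ℝ) :=
                Finset.sum_le_sum_of_subset_of_nonneg hsub fun p _ _ => by positivity
            _ = 288 * ∑ p ∈ prms T, 1 / (p : ℝ) := by
                rw [Finset.mul_sum]
                exact Finset.sum_congr rfl fun p _ => by ring
            _ ≤ _ := mul_le_mul_of_nonneg_left (sum_inv_prms_le T (by omega)) (by norm_num)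
      _ = Real.exp 1152 * (Real.log T) ^ (1728 : ℝ) := by
          rw [Real.rpow_def_of_pos (by linarith), ← Real.exp_add]
          congr 1
          ring
      _ ≤ K * (Real.log T) ^ K := by
          refine mul_le_mul (by rw [hK]; linarith)
            (Real.rpow_le_rpow_of_exponent_le hlogT (by rw [hK]; linarith)) (by positivity)
            (by rw [hK]; positivity)
  -- the second sum
  have hB : ∑ e ∈ P.divisors with e ≠ 1, ∏ p ∈ e.primeFactors, (1152 / (p : ℝ) ^ 2) ≤ K / w := by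
    have h1 : ∑ e ∈ P.divisors with e ≠ 1, ∏ p ∈ e.primeFactors, (1152 / (p : ℝ) ^ 2) + 1 =
        ∑ e ∈ P.divisors, ∏ p ∈ e.primeFactors, (1152 / (p : ℝ) ^ 2) := by
      have h2 : (1 : ℕ) ∈ P.divisors := Nat.one_mem_divisors.2 hSD.sqf.ne_zero
      rw [← Finset.add_sum_erase _ _ h2, Nat.primeFactors_one, Finset.prod_empty, add_comm]
      congr 1
      refine Finset.sum_congr ?_ fun _ _ => rfl
      ext e
      simp [Finset.mem_erase, and_comm]
    rw [RowE_sum_prod hSD.sqf] at h1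
    have h2 : ∏ p ∈ P.primeFactors, (1 + 1152 / (p : ℝ) ^ 2) ≤ Real.exp (1152 / w) := by
      calc ∏ p ∈ P.primeFactors, (1 + 1152 / (p : ℝ) ^ 2)
          ≤ ∏ p ∈ P.primeFactors, Real.exp (1152 / (p : ℝ) ^ 2) := by
            refine Finset.prod_le_prod (fun p _ => by positivity) fun p _ => ?_
            have := Real.add_one_le_exp (1152 / (p : ℝ) ^ 2)
            linarith
        _ = Real.exp (∑ p ∈ P.primeFactors, 1152 / (p : ℝ) ^ 2) := (Real.exp_sum _ _).symm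
        _ ≤ Real.exp (1152 / w) := by
            refine Real.exp_le_exp.mpr ?_
            calc ∑ p ∈ P.primeFactors, (1152 : ℝ) / (p : ℝ) ^ 2
                = (1152 : ℝ) * ∑ p ∈ P.primeFactors, (1 : ℝ) / (p : ℝ) ^ 2 := by
                  rw [Finset.mul_sum]
                  exact Finset.sum_congr rfl fun p _ => by ring
              _ ≤ (1152 : ℝ) * (1 / (w : ℝ)) :=
                  mul_le_mul_of_nonneg_left (RowE_tail w hw _ hbig) (by norm_num)
              _ = (1152 : ℝ) / (w : ℝ) := by ring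
    have h3 : Real.exp (1152 / w) - 1 ≤ 1152 / w * Real.exp (1152 / w) := by
      have h4 := Real.add_one_le_exp (-(1152 / (w : ℝ)))
      have h5 : Real.exp (-(1152 / (w : ℝ))) * Real.exp (1152 / w) = 1 := by
        rw [← Real.exp_add]
        simp
      have h6 := mul_le_mul_of_nonneg_right h4 (Real.exp_pos (1152 / (w : ℝ))).le
      rw [h5] at h6
      linarith
    have h4 : Real.exp (1152 / w) ≤ Real.exp 1152 := by
      refine Real.exp_le_exp.mpr ?_
      rw [div_le_iff₀ (by linarith)]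
      linarith
    have h5 : 1152 / w * Real.exp (1152 / w) ≤ K / w := by
      have h6 : (0 : ℝ) ≤ 1152 / w := by positivity
      calc 1152 / w * Real.exp (1152 / w) ≤ 1152 / w * Real.exp 1152 :=
            mul_le_mul_of_nonneg_left h4 h6
        _ = K / w := by rw [hK]; ring
    linarith
  have hterm : ∀ e ∈ P.divisors.filter (fun e => e ≠ 1),
      (Uc P lam e) ^ 2 * ∑ k ∈ e.divisors, (k : ℝ) * E k ≤
      1 / G ^ 2 * (L * ∏ p ∈ e.primeFactors, (288 / (p : ℝ)) +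
        Q * ∏ p ∈ e.primeFactors, (1152 / (p : ℝ) ^ 2)) := by
    intro e he
    rw [Finset.mem_filter] at he
    exact RowE_term hSD (Nat.dvd_of_mem_divisors he.1) L Q hL hQ E hE
  refine (Finset.sum_le_sum hterm).trans ?_
  rw [← Finset.mul_sum, Finset.sum_add_distrib, ← Finset.mul_sum, ← Finset.mul_sum]
  refine mul_le_mul_of_nonneg_left ?_ (by positivity)
  have h1 := mul_le_mul_of_nonneg_left hA hL
  have h2 := mul_le_mul_of_nonneg_left hB hQ
  calc _ ≤ L * (K * (Real.log T) ^ K) + Q * (K / w) := add_le_add h1 h2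
    _ = _ := by ring

end Pool.Agent.Lib.MP_bae66e_nt.AC
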