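import Pool.Agent.Lib.MP_bae66e_nt.AC.Defs
import Pool.Agent.Lib.MP_bae66e_nt.AP3.Mert

set_option autoImplicit false

namespace Pool.Agent.Lib.MP_bae66e_nt.AC

open Finset
open Pool.Agent.Lib.MP_bae66e_nt
open Pool.Agent.Lib.MP_bae66e_nt.AP3 (prI mem_prI)
open Pool.Agent.Lib.MP_bae66e_nt.LL (fP)

theorem icop_congr {x y : ℤ} {W : ℕ} (h : x ≡ y [ZMOD W]) : IsCoprime x (W : ℤ) ↔ IsCoprime y (W : ℤ) := by
  obtain ⟨k, hk⟩ := (Int.modEq_iff_dvd).1 h
  have h1 : y = x + (W : ℤ) * k := by linarith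
  rw [h1, IsCoprime.add_mul_left_left_iff]

theorem FC_congr (H W s m m' t : ℕ) (h : m ≡ m' [MOD W]) : FC H W s m t = FC H W s m' t := by
  unfold FC
  have h1 : ((s * m : ℕ) : ℤ) - (t : ℤ) ≡ ((s * m' : ℕ) : ℤ) - (t : ℤ) [ZMOD W] := by
    refine Int.ModEq.sub ?_ rfl
    exact (Int.natCast_modEq_iff).2 (h.mul_left s)
  rw [if_congr (icop_congr h1) rfl rfl]

theorem Sg_congr (W m m' : ℕ) (h : m ≡ m' [MOD W]) : Sg W m = Sg W m' := by
  unfold Sg
  have h2 : VV W m = VV W m' := by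
    unfold VV
    refine Finset.filter_congr fun v _ => ?_
    have h1 : (m : ℤ) - (v : ℤ) ≡ (m' : ℤ) - (v : ℤ) [ZMOD W] :=
      Int.ModEq.sub ((Int.natCast_modEq_iff).2 h) rfl
    rw [icop_congr h1]
  rw [h2]

theorem sg_prime {D T : ℕ} {G : ℝ} {lam : ℕ → ℝ} (h : SD (sProd D T) T G lam) {n : ℕ} (hn : n.Prime) (hT : T < n) :
    sg (sProd D T) lam n = 1 := by
  unfold sg
  have h1 : ((sProd D T).divisors.filter fun d => d ∣ n) = {1} := by
    ext d
    rw [Finset.mem_filter, Nat.mem_divisors, Finset.mem_singleton]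
    constructor
    · rintro ⟨⟨h2, h3⟩, h4⟩
      rcases (Nat.dvd_prime hn).1 h4 with h5 | h5
      · exact h5
      · exfalso
        rw [h5] at h2
        have := ((prime_dvd_sProd_iff hn).1 h2).1
        omega
    · rintro rfl
      exact ⟨⟨one_dvd _, h.sqf.ne_zero⟩, one_dvd _⟩
  rw [h1, Finset.sum_singleton, h.one, one_pow]

theorem sg_nonneg (P : ℕ) (lam : ℕ → ℝ) (n : ℕ) : 0 ≤ sg P lam n := sq_nonneg _

theorem FC_nonneg (H W s m t : ℕ) : 0 ≤ FC H W s m t := by
  unfold FC fP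
  split_ifs
  · exact Real.log_natCast_nonneg H
  · exact le_rfl
  · exact le_rfl

theorem FC_le (H W s m t : ℕ) : FC H W s m t ≤ fP H (t : ℤ) := by
  unfold FC
  split_ifs
  · exact le_rfl
  · unfold fP
    split_ifs
    · exact Real.log_natCast_nonneg H
    · exact le_rfl

theorem majorant {D T : ℕ} {G : ℝ} {lam : ℕ → ℝ} (h : SD (sProd D T) T G lam) (H w s m : ℕ) (hHm : H + T + w < m) (hs : 1 ≤ s) :
    ∑ t ∈ Icc 1 H, fP H (t : ℤ) * (if (s * m - t).Prime then (1 : ℝ) else 0) ≤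
      ∑ t ∈ Icc 1 H, FC H (primorial w) s m t * sg (sProd D T) lam (s * m - t) := by
  refine Finset.sum_le_sum fun t ht => ?_
  rw [Finset.mem_Icc] at ht
  by_cases hq : (s * m - t).Prime
  · have hsm : m ≤ s * m := Nat.le_mul_of_pos_left m hs
    rw [if_pos hq, mul_one, sg_prime h hq (by omega), mul_one]
    have h1 : IsCoprime (((s * m : ℕ) : ℤ) - (t : ℤ)) ((primorial w : ℕ) : ℤ) := by
      have h2 : ((s * m : ℕ) : ℤ) - (t : ℤ) = ((s * m - t : ℕ) : ℤ) := by
        rw [Nat.cast_sub (by omega)]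
      rw [h2, Nat.isCoprime_iff_coprime]
      unfold primorial
      refine Nat.Coprime.prod_right fun p hp => ?_
      rw [Finset.mem_filter, Finset.mem_range] at hp
      refine (Nat.coprime_primes hq hp.2).2 ?_
      omega
    unfold FC
    rw [if_pos h1]
  · rw [if_neg hq, mul_zero]
    exact mul_nonneg (FC_nonneg _ _ _ _ _) (sg_nonneg _ _ _)

theorem rho_eq (n : ℕ) (hn : n ≠ 0) : rho n = (Nat.totient n : ℝ) / n := by
  have h2 : (Nat.totient n : ℝ) = n * ∏ p ∈ n.primeFactors, (1 - (p : ℝ)⁻¹) := by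
    have := Nat.totient_eq_mul_prod_factors n
    have h3 := congrArg (fun x : ℚ => (x : ℝ)) this
    push_cast at h3
    exact h3
  have hn' : (n : ℝ) ≠ 0 := by exact_mod_cast hn
  rw [h2, mul_div_cancel_left₀ _ hn']
  unfold rho
  exact Finset.prod_congr rfl fun p _ => by rw [one_div]

theorem one_sub_sum_le (S : Finset ℕ) (x : ℕ → ℝ) (h0 : ∀ i ∈ S, 0 ≤ x i) (h1 : ∀ i ∈ S, x i ≤ 1) :
    1 - ∑ i ∈ S, x i ≤ ∏ i ∈ S, (1 - x i) := by
  classical
  induction S using Finset.induction_on with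
  | empty => simp
  | insert a S ha ih =>
    have ih' := ih (fun i hi => h0 i (Finset.mem_insert_of_mem hi)) (fun i hi => h1 i (Finset.mem_insert_of_mem hi))
    rw [Finset.sum_insert ha, Finset.prod_insert ha]
    have ha0 := h0 a (Finset.mem_insert_self _ _)
    have ha1 := h1 a (Finset.mem_insert_self _ _)
    have hp1 : ∏ i ∈ S, (1 - x i) ≤ 1 := by
      apply Finset.prod_le_one
      · intro i hi
        linarith [h1 i (Finset.mem_insert_of_mem hi)]
      · intro i hi
        linarith [h0 i (Finset.mem_insert_of_mem hi)]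
    nlinarith

theorem rho_D : ∃ R₀ : ℕ, ∀ R w : ℕ, R₀ ≤ R → w < R →
    (Nat.totient (primorial w) : ℝ) / (primorial w : ℝ) / 2 ≤ rho (primorial w * ∏ p ∈ prI R (2 * R), p) := by
  refine ⟨⌈Real.exp 20⌉₊, fun R w hR hw => ?_⟩
  have hRe : Real.exp 20 ≤ R := (Nat.le_ceil _).trans (by exact_mod_cast hR)
  have hR0 : (0 : ℝ) < R := (Real.exp_pos _).trans_le hRe
  have hR1 : 1 ≤ R := by
    have : 0 < R := by exact_mod_cast hR0
    omega
  set W := primorial w with hW
  set Q := ∏ p ∈ prI R (2 * R), p with hQ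
  have hWpos : 0 < W := primorial_pos w
  have hQ0 : Q ≠ 0 := by
    rw [hQ, Finset.prod_ne_zero_iff]
    intro p hp
    exact (mem_prI.1 hp).2.ne_zero
  have hQf : Q.primeFactors = prI R (2 * R) := Nat.primeFactors_prod fun p hp => (mem_prI.1 hp).2
  have hcop : Nat.Coprime W Q := by
    rw [hQ]
    refine Nat.Coprime.prod_right fun p hp => ?_
    obtain ⟨hp1, hp2⟩ := mem_prI.1 hp
    rw [hW]
    unfold primorial
    refine Nat.Coprime.prod_left fun q hq => ?_
    rw [Finset.mem_filter, Finset.mem_range] at hq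
    refine (Nat.coprime_primes hq.2 hp2).2 ?_
    omega
  have h1 : rho (W * Q) = rho W * ∏ p ∈ prI R (2 * R), (1 - 1 / (p : ℝ)) := by
    unfold rho
    rw [hcop.primeFactors_mul, Finset.prod_union hcop.disjoint_primeFactors, hQf]
  have h2 : (1 : ℝ) / 2 ≤ ∏ p ∈ prI R (2 * R), (1 - 1 / (p : ℝ)) := by
    refine le_trans ?_ (one_sub_sum_le _ (fun p => 1 / (p : ℝ)) (fun p _ => by positivity) ?_)
    · have h3 : ∑ p ∈ prI R (2 * R), 1 / (p : ℝ) ≤ (#(prI R (2 * R)) : ℝ) * (1 / R) := by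
        rw [← nsmul_eq_mul]
        refine Finset.sum_le_card_nsmul _ _ _ fun p hp => ?_
        have h4 : (R : ℝ) ≤ p := by exact_mod_cast (mem_prI.1 hp).1.1.le
        exact one_div_le_one_div_of_le hR0 h4
      have h5 : (#(prI R (2 * R)) : ℝ) ≤ R / 2 := by
        have h6 : #(prI R (2 * R)) ≤ Nat.primeCounting (2 * R) := by
          rw [Nat.primeCounting, Nat.primeCounting', Nat.count_eq_card_filter_range]
          apply Finset.card_le_card
          intro p hp
          obtain ⟨hp1, hp2⟩ := mem_prI.1 hp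
          rw [Finset.mem_filter, Finset.mem_range]
          exact ⟨by omega, hp2⟩
        have h7 := pi_upper (2 * R) (by omega)
        have h8 : (20 : ℝ) ≤ Real.log ((2 * R : ℕ) : ℝ) := by
          rw [Real.le_log_iff_exp_le (by positivity)]
          push_cast
          linarith
        have h9 : 5 * ((2 * R : ℕ) : ℝ) / Real.log ((2 * R : ℕ) : ℝ) ≤ R / 2 := by
          rw [div_le_iff₀ (by linarith)]
          push_cast at h8 ⊢
          nlinarith
        have h10 : (#(prI R (2 * R)) : ℝ) ≤ (Nat.primeCounting (2 * R) : ℝ) := by exact_mod_cast h6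
        linarith
      have h11 : (#(prI R (2 * R)) : ℝ) * (1 / R) ≤ 1 / 2 := by
        calc (#(prI R (2 * R)) : ℝ) * (1 / R) ≤ (R / 2) * (1 / R) :=
              mul_le_mul_of_nonneg_right h5 (by positivity)
          _ = 1 / 2 := by field_simp
      linarith
    · intro p hp
      have h4 : (1 : ℝ) ≤ p := by exact_mod_cast (mem_prI.1 hp).2.one_lt.le
      rw [div_le_one (by linarith)]
      exact h4
  rw [h1, ← rho_eq W hWpos.ne']
  have h3 : 0 ≤ rho W := (rho_pos W).le
  calc rho W / 2 = rho W * (1 / 2) := by ring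
    _ ≤ _ := mul_le_mul_of_nonneg_left h2 h3

/-- one class modulo `W` -/
theorem class_card (W a H : ℕ) (hW : 1 ≤ W) (hx : 2 ≤ H / W) :
    (#{t ∈ Icc 1 H | t.Prime ∧ t ≡ a [MOD W]} : ℝ) ≤
      1 + 8 * ((H / W : ℕ) : ℝ) / (rho W * Real.log ((H / W : ℕ) : ℝ)) := by
  have h1 : #{t ∈ Icc 1 H | t.Prime ∧ t ≡ a [MOD W]} ≤
      1 + #{j ∈ Finset.Ioc 0 (H / W) | (W * j + a % W).Prime} := by
    have h2 : #{t ∈ Icc 1 H | t.Prime ∧ t ≡ a [MOD W]} ≤
        #(insert 0 {j ∈ Finset.Ioc 0 (H / W) | (W * j + a % W).Prime}) := by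
      refine Finset.card_le_card_of_injOn (fun t => t / W) ?_ ?_
      · intro t ht
        simp only [Finset.coe_filter, Set.mem_ofPred_eq, Finset.mem_Icc] at ht
        obtain ⟨⟨ht1, ht2⟩, ht3, ht4⟩ := ht
        rw [Finset.coe_insert, Set.mem_insert_iff]
        by_cases h0 : t / W = 0
        · exact Or.inl h0
        · right
          rw [Finset.mem_coe, Finset.mem_filter, Finset.mem_Ioc]
          refine ⟨⟨Nat.pos_of_ne_zero h0, Nat.div_le_div_right ht2⟩, ?_⟩
          have h5 : W * (t / W) + a % W = t := by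
            have h6 : t % W = a % W := ht4
            rw [← h6]
            exact Nat.div_add_mod t W
          rw [h5]
          exact ht3
      · intro t ht t' ht' hh
        simp only [Finset.coe_filter, Set.mem_ofPred_eq] at ht ht'
        have h6 : t % W = a % W := ht.2.2
        have h7 : t' % W = a % W := ht'.2.2
        have h8 : t / W = t' / W := hh
        rw [← Nat.div_add_mod t W, ← Nat.div_add_mod t' W, h8, h6, h7]
    refine h2.trans ((Finset.card_insert_le _ _).trans (le_of_eq (add_comm _ _)))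
  have h3 := brun_titchmarsh W (a % W) (H / W) hW hx
  have h4 : (#{t ∈ Icc 1 H | t.Prime ∧ t ≡ a [MOD W]} : ℝ) ≤
      1 + (#{j ∈ Finset.Ioc 0 (H / W) | (W * j + a % W).Prime} : ℝ) := by exact_mod_cast h1
  linarith

theorem A_bound (w : ℕ) (hw : 2 ≤ w) : ∃ H₀ : ℕ, ∀ H s m : ℕ, H₀ ≤ H → 1 ≤ s → Nat.Coprime s (primorial w) →
    1 ≤ #(VV (primorial w) m) →
    ∑ t ∈ Icc 1 H, FC H (primorial w) s m t ≤ 20 * H * (#(VV (primorial w) m) : ℝ) / Nat.totient (primorial w) := by
  classical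
  set W := primorial w with hW
  have hWpos : 0 < W := primorial_pos w
  have hWr : (1 : ℝ) ≤ W := by exact_mod_cast hWpos
  refine ⟨(2 * W * (w + 1)) ^ 2, fun H s m hH hs hsW hV => ?_⟩
  set φ : ℝ := (Nat.totient W : ℝ) with hφ
  have hφ0 : 0 < φ := by
    rw [hφ]
    exact_mod_cast Nat.totient_pos.2 hWpos
  have hφW : φ ≤ W := by
    rw [hφ]
    exact_mod_cast Nat.totient_le W
  have hwr : (2 : ℝ) ≤ w := by exact_mod_cast hw
  -- the square root
  have hHr : (2 * (W : ℝ) * (w + 1)) ^ 2 ≤ H := by exact_mod_cast hH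
  set r : ℝ := √(H : ℝ) with hr
  have hr1 : 2 * (W : ℝ) * (w + 1) ≤ r := by
    rw [hr]
    exact Real.le_sqrt_of_sq_le hHr
  have hr0 : 6 ≤ r := by nlinarith
  have hrr : r * r = H := Real.mul_self_sqrt (Nat.cast_nonneg H)
  have hH0 : (0 : ℝ) < H := by nlinarith
  have hx1 : r ≤ ((H / W : ℕ) : ℝ) := by
    have h1 : (H : ℝ) / W < ((H / W : ℕ) : ℝ) + 1 := by
      rw [div_lt_iff₀ (by linarith)]
      have h2 : H < (H / W + 1) * W := by
        rw [add_mul, one_mul, mul_comm]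
        have h3 := Nat.div_add_mod H W
        have h4 := Nat.mod_lt H hWpos
        omega
      exact_mod_cast h2
    have h2 : 2 * r ≤ (H : ℝ) / W := by
      rw [le_div_iff₀ (by linarith), ← hrr]
      have h3 : 2 * (W : ℝ) ≤ r := by nlinarith
      nlinarith
    linarith
  have hx2 : 2 ≤ H / W := by
    have h1 : (2 : ℝ) ≤ ((H / W : ℕ) : ℝ) := by linarith
    exact_mod_cast h1
  have hxle : ((H / W : ℕ) : ℝ) ≤ (H : ℝ) / W := Nat.cast_div_le
  have hlogH : 0 < Real.log H := Real.log_pos (by nlinarith)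
  have hlogx : Real.log H / 2 ≤ Real.log ((H / W : ℕ) : ℝ) := by
    have h1 : Real.log r ≤ Real.log ((H / W : ℕ) : ℝ) := Real.log_le_log (by linarith) hx1
    rwa [hr, Real.log_sqrt (Nat.cast_nonneg H)] at h1
  have hlog2 : Real.log H ≤ 2 * r := log_le_two_sqrt hH0
  have hrho : rho W = φ / W := rho_eq W hWpos.ne'
  set K : ℝ := 1 + 8 * ((H / W : ℕ) : ℝ) / (rho W * Real.log ((H / W : ℕ) : ℝ)) with hK
  -- the set
  set V := VV W m with hVdef
  have hset : ((Icc 1 H).filter fun t : ℕ => t.Prime ∧ IsCoprime (((s * m : ℕ) : ℤ) - (t : ℤ)) (W : ℤ)) ⊆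
      Icc 1 w ∪ V.biUnion fun v => {t ∈ Icc 1 H | t.Prime ∧ t ≡ s * v [MOD W]} := by
    intro t ht
    rw [Finset.mem_filter, Finset.mem_Icc] at ht
    obtain ⟨⟨ht1, ht2⟩, ht3, ht4⟩ := ht
    rw [Finset.mem_union, Finset.mem_Icc, Finset.mem_biUnion]
    by_cases htw : t ≤ w
    · exact Or.inl ⟨ht1, htw⟩
    · right
      push Not at htw
      have htW : Nat.Coprime t W := by
        rw [hW]
        unfold primorial
        refine Nat.Coprime.prod_right fun p hp => ?_
        rw [Finset.mem_filter, Finset.mem_range] at hp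
        refine (Nat.coprime_primes ht3 hp.2).2 ?_
        omega
      -- the class
      obtain ⟨v, hv1, hv2⟩ : ∃ v, v < W ∧ s * v ≡ t [MOD W] := by
        have hN : NeZero W := ⟨hWpos.ne'⟩
        let u : (ZMod W)ˣ := ZMod.unitOfCoprime s hsW
        refine ⟨((u⁻¹ : (ZMod W)ˣ) * (t : ZMod W) : ZMod W).val, ZMod.val_lt _, ?_⟩
        rw [← ZMod.natCast_eq_natCast_iff]
        push_cast
        rw [ZMod.natCast_zmod_val, ← mul_assoc]
        have : (s : ZMod W) = (u : ZMod W) := (ZMod.coe_unitOfCoprime s hsW).symm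
        rw [this, Units.mul_inv, one_mul]
      have hvW : Nat.Coprime v W := by
        have h1 : Nat.Coprime (s * v) W := by
          have h2 : Nat.gcd (s * v) W = Nat.gcd t W := hv2.gcd_eq
          rw [Nat.Coprime, h2]
          exact htW
        exact Nat.Coprime.coprime_mul_left h1
      have hmv : IsCoprime ((m : ℤ) - (v : ℤ)) (W : ℤ) := by
        have h1 : ((s * m : ℕ) : ℤ) - (t : ℤ) ≡ (s : ℤ) * ((m : ℤ) - (v : ℤ)) [ZMOD W] := by
          have h2 : (s : ℤ) * ((m : ℤ) - (v : ℤ)) = ((s * m : ℕ) : ℤ) - ((s * v : ℕ) : ℤ) := by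
            push_cast
            ring
          rw [h2]
          exact Int.ModEq.sub rfl ((Int.natCast_modEq_iff).2 hv2.symm)
        have h2 := (icop_congr h1).1 ht4
        exact h2.of_mul_left_right
      refine ⟨v, ?_, ?_⟩
      · rw [hVdef]
        unfold VV
        rw [Finset.mem_filter, Finset.mem_range]
        exact ⟨hv1, hvW, hmv⟩
      · rw [Finset.mem_filter, Finset.mem_Icc]
        exact ⟨⟨ht1, ht2⟩, ht3, hv2.symm⟩
  have hcard : (#((Icc 1 H).filter fun t : ℕ => t.Prime ∧ IsCoprime (((s * m : ℕ) : ℤ) - (t : ℤ)) (W : ℤ)) : ℝ) ≤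
      w + (#V : ℝ) * K := by
    have h1 := (Finset.card_le_card hset).trans (Finset.card_union_le _ _)
    have h2 : #(V.biUnion fun v => {t ∈ Icc 1 H | t.Prime ∧ t ≡ s * v [MOD W]}) ≤
        ∑ v ∈ V, #{t ∈ Icc 1 H | t.Prime ∧ t ≡ s * v [MOD W]} := Finset.card_biUnion_le
    have h3 : ∑ v ∈ V, (#{t ∈ Icc 1 H | t.Prime ∧ t ≡ s * v [MOD W]} : ℝ) ≤ (#V : ℝ) * K := by
      rw [← nsmul_eq_mul]
      exact Finset.sum_le_card_nsmul _ _ _ fun v _ => class_card W (s * v) H hWpos hx2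
    have h4 : (#((Icc 1 H).filter fun t : ℕ => t.Prime ∧ IsCoprime (((s * m : ℕ) : ℤ) - (t : ℤ)) (W : ℤ)) : ℝ) ≤
        (#(Icc 1 w) : ℝ) + ∑ v ∈ V, (#{t ∈ Icc 1 H | t.Prime ∧ t ≡ s * v [MOD W]} : ℝ) := by
      exact_mod_cast h1.trans (Nat.add_le_add_left h2 _)
    rw [Nat.card_Icc, Nat.add_sub_cancel] at h4
    linarith
  have hsum : ∑ t ∈ Icc 1 H, FC H W s m t ≤ Real.log H * (w + (#V : ℝ) * K) := by
    have h1 : ∀ t ∈ Icc 1 H, FC H W s m t ≤
        if ((t : ℕ).Prime ∧ IsCoprime (((s * m : ℕ) : ℤ) - (t : ℤ)) (W : ℤ)) then Real.log H else 0 := by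
      intro t _
      by_cases hc : IsCoprime (((s * m : ℕ) : ℤ) - (t : ℤ)) (W : ℤ)
      · by_cases hp : t.Prime
        · have h5 : (if (t.Prime ∧ IsCoprime (((s * m : ℕ) : ℤ) - (t : ℤ)) (W : ℤ)) then Real.log (H : ℝ) else 0) =
              Real.log H := if_pos ⟨hp, hc⟩
          rw [h5]
          refine (FC_le _ _ _ _ _).trans ?_
          unfold fP
          split_ifs
          · exact le_rfl
          · exact hlogH.le
        · have h5 : (if (t.Prime ∧ IsCoprime (((s * m : ℕ) : ℤ) - (t : ℤ)) (W : ℤ)) then Real.log (H : ℝ) else 0) =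
              0 := if_neg fun h => hp h.1
          rw [h5]
          refine (FC_le _ _ _ _ _).trans (le_of_eq ?_)
          unfold fP
          rw [if_neg]
          rintro ⟨-, -, h⟩
          exact hp (by simpa using h)
      · have h5 : (if (t.Prime ∧ IsCoprime (((s * m : ℕ) : ℤ) - (t : ℤ)) (W : ℤ)) then Real.log (H : ℝ) else 0) =
            0 := if_neg fun h => hc h.2
        rw [h5]
        unfold FC
        rw [if_neg hc]
    refine (Finset.sum_le_sum h1).trans ?_
    rw [← Finset.sum_filter, Finset.sum_const, nsmul_eq_mul, mul_comm]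
    exact mul_le_mul_of_nonneg_left hcard hlogH.le
  refine hsum.trans ?_
  have hV1 : (1 : ℝ) ≤ (#V : ℝ) := by exact_mod_cast hV
  have hKb : Real.log H * K ≤ Real.log H + 16 * H / φ := by
    have hx0 : (0 : ℝ) < ((H / W : ℕ) : ℝ) := by linarith
    have h1 : Real.log H * (8 * ((H / W : ℕ) : ℝ) / (rho W * Real.log ((H / W : ℕ) : ℝ))) ≤ 16 * H / φ := by
      have hlx : 0 < Real.log ((H / W : ℕ) : ℝ) := by linarith
      rw [hrho, ← mul_div_assoc, div_le_div_iff₀ (by positivity) hφ0]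
      have h2 : ((H / W : ℕ) : ℝ) * W ≤ H := by
        rwa [le_div_iff₀ (by linarith)] at hxle
      have h3 : Real.log H ≤ 2 * Real.log ((H / W : ℕ) : ℝ) := by linarith
      have h4 : Real.log H * (((H / W : ℕ) : ℝ) * W) ≤ 2 * Real.log ((H / W : ℕ) : ℝ) * H :=
        mul_le_mul h3 h2 (by positivity) (by positivity)
      have h5 : Real.log H * (8 * ((H / W : ℕ) : ℝ)) * φ =
          8 * (Real.log H * (((H / W : ℕ) : ℝ) * W)) * (φ / W) := by
        field_simp
      have h6 : 16 * (H : ℝ) * (φ / W * Real.log ((H / W : ℕ) : ℝ)) =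
          8 * (2 * Real.log ((H / W : ℕ) : ℝ) * H) * (φ / W) := by ring
      rw [h5, h6]
      gcongr
    rw [hK, mul_add, mul_one]
    linarith
  have hsmall : ((w : ℝ) + 1) * Real.log H ≤ 4 * H / φ := by
    have h1 : 4 * (H : ℝ) / W ≤ 4 * H / φ := div_le_div_of_nonneg_left (by positivity) hφ0 hφW
    refine le_trans ?_ h1
    rw [le_div_iff₀ (by linarith)]
    calc ((w : ℝ) + 1) * Real.log H * W ≤ ((w : ℝ) + 1) * (2 * r) * W := by gcongr
      _ = (2 * (W : ℝ) * (w + 1)) * r := by ring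
      _ ≤ r * r := by gcongr
      _ = (H : ℝ) := hrr
      _ ≤ 4 * (H : ℝ) := by linarith
  calc Real.log H * (w + (#V : ℝ) * K) = w * Real.log H + (#V : ℝ) * (Real.log H * K) := by ring
    _ ≤ (#V : ℝ) * (w * Real.log H) + (#V : ℝ) * (Real.log H + 16 * H / φ) := by
        refine add_le_add ?_ (mul_le_mul_of_nonneg_left hKb (by linarith))
        have : 0 ≤ (w : ℝ) * Real.log H := by positivity
        nlinarith
    _ = (#V : ℝ) * (((w : ℝ) + 1) * Real.log H + 16 * H / φ) := by ring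
    _ ≤ (#V : ℝ) * (4 * H / φ + 16 * H / φ) := by
        apply mul_le_mul_of_nonneg_left _ (by linarith)
        linarith
    _ = 20 * H * (#V : ℝ) / φ := by ring

end Pool.Agent.Lib.MP_bae66e_nt.AC
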