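import Pool.Agent.Lib.MP_bae66e_nt.AC.Defs
import Pool.Agent.Lib.MP_bae66e_nt.E3.FJ7

set_option autoImplicit false

namespace Pool.Agent.Lib.MP_bae66e_nt.AC

open Finset
open Pool.Agent.Lib.MP_bae66e_nt
open Pool.Agent.Lib.MP_bae66e_nt.LL (fP gW nu)
open Pool.Agent.E3

/-- `WINJ` with the constant `c₀` -/
def WINJc (c₀ a : ℝ) : Prop := ∀ W : ℕ, 1 ≤ W → ∀ δ : ℝ, 0 < δ →
  ∃ M₀ : ℕ, ∀ M : ℕ, M₀ ≤ M → ∀ v : ℕ, Nat.Coprime v W →
    (#{m ∈ Icc M (2 * M) | ∑ s ∈ IS (RJ a M),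
        (#{q ∈ Ico (s * m - HJ a M) (s * m) | q.Prime ∧ q ≡ s * v [MOD W]} : ℝ)
        < c₀ * GJ a M / Nat.totient W} : ℝ) ≤ δ * M

theorem winj_abs : ∃ c₀ : ℝ, 0 < c₀ ∧ ∀ a : ℝ, 3 ≤ a → COREJ (a - 1 / 2) → WINJc c₀ a := by
  obtain ⟨c₁, hc₁, hP⟩ := papj
  obtain ⟨C, hC1, hwin⟩ := winj_one
  obtain ⟨C', hC'1, hchar⟩ := char_window_J
  refine ⟨c₁ / 100, by positivity, fun a ha hC W hW δ hδ => ?_⟩
  have hφ : (0 : ℝ) < (Nat.totient W : ℝ) := by exact_mod_cast Nat.totient_pos.2 hW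
  -- the choice of `K`
  set A : ℝ := 130 * C * (Nat.totient W / c₁) with hA
  have hA0 : 0 < A := by positivity
  set K : ℝ := max 1 (1152 * A / δ) with hKdef
  have hK1 : 1 ≤ K := le_max_left _ _
  have hKA : A * Real.exp (-(K ^ 2 / 576)) ≤ δ / 2 := by
    have h1 : 1152 * A / δ ≤ K := le_max_right _ _
    have h2 : Real.exp (-(K ^ 2 / 576)) ≤ 576 / K := by
      have h3 : K ^ 2 / 576 ≤ Real.exp (K ^ 2 / 576) := by
        have := Real.add_one_le_exp (K ^ 2 / 576)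
        linarith
      rw [Real.exp_neg]
      calc (Real.exp (K ^ 2 / 576))⁻¹ ≤ (K ^ 2 / 576)⁻¹ := inv_anti₀ (by positivity) h3
        _ = 576 / K / K := by field_simp
        _ ≤ 576 / K := div_le_self (by positivity) hK1
    calc A * Real.exp (-(K ^ 2 / 576)) ≤ A * (576 / K) := mul_le_mul_of_nonneg_left h2 hA0.le
      _ ≤ δ / 2 := by
          rw [div_le_iff₀ hδ] at h1
          rw [← mul_div_assoc, div_le_iff₀ (by positivity)]
          linarith
  -- the choice of `η`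
  set s : ℝ := δ * c₁ / (64 * Nat.totient W) with hs
  have hs0 : 0 < s := by positivity
  set η : ℝ := s ^ 2 / 2 with hη
  have hη0 : 0 < η := by positivity
  have hsη : Real.sqrt (2 * η) = s := by
    rw [hη, show 2 * (s ^ 2 / 2) = s ^ 2 by ring, Real.sqrt_sq hs0.le]
  obtain ⟨T₀, hT₀, X₁, hcore⟩ := hC W hW (η / 2) (by positivity)
  set T : ℝ := max T₀ (2 * C' / η) with hT
  have hT1 : T₀ ≤ T := le_max_left _ _
  have hT2 : 2 * C' / η ≤ T := le_max_right _ _
  have hT3 : 1 ≤ T := hT₀.trans hT1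
  have hT0 : 0 < T := by linarith
  have hl0 : 0 < 1 / T ^ 2 := by positivity
  have hl1 : 1 / T ^ 2 ≤ 1 := by
    rw [div_le_one (by positivity)]
    exact one_le_pow₀ hT3
  obtain ⟨X₂, hpap⟩ := hP a ha W hW (1 / T ^ 2) hl0 hl1
  have hWr : (1 : ℝ) ≤ W := by exact_mod_cast hW
  obtain ⟨X₃, hpar⟩ := parJ a K ((W : ℝ) + T ^ 2) ha hK1 (by positivity)
  refine ⟨max X₁ (max X₂ X₃), fun M hM v hv => ?_⟩
  have hM1 : X₁ ≤ M := (le_max_left _ _).trans hM
  have hM2 : X₂ ≤ M := ((le_max_left _ _).trans (le_max_right _ _)).trans hM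
  have hM3 : X₃ ≤ M := ((le_max_right _ _).trans (le_max_right _ _)).trans hM
  obtain ⟨g1, g2, g3, g4, g5, g6, g7, g8, g9, g10, g11, g12, g13, g14⟩ := hpar M hM3
  have hM0 : (0 : ℝ) < M := by exact_mod_cast (by omega : 0 < M)
  have hWR : W ≤ RJ a M := by
    have h1 : (0 : ℝ) ≤ T ^ 2 := by positivity
    have : (W : ℝ) ≤ RJ a M := by linarith
    exact_mod_cast this
  have hd1 : (RJ a M : ℝ) / (K * M) ≤ 1 / T ^ 2 := by
    refine g13.trans ?_
    refine one_div_le_one_div_of_le (by positivity) ?_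
    linarith
  have hX8 : 8 ≤ XJ a M := by omega
  have hR1 : (1 : ℝ) < RJ a M := by exact_mod_cast (by omega : 1 < RJ a M)
  have hlR : 0 < Real.log (RJ a M) := Real.log_pos hR1
  have hlM : 0 < Real.log M := by linarith
  have hFJ0 : 0 < FJ (RJ a M) (XJ a M) := FJ_pos hX8 g4
  have hχ : ∀ χ : DirichletCharacter ℂ W,
      ∫ x : ℝ, ‖WXJ χ (RJ a M) (XJ a M) (RJ a M / (K * M)) x -
        WXJ χ (RJ a M) (XJ a M) (1 / T ^ 2) x‖ ^ 2 ≤ η * (FJ (RJ a M) (XJ a M)) ^ 2 := by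
    intro χ
    have h1 := hcore (XJ a M) (hM1.trans g6) χ χ (RJ a M) g7 g8 (XJ a M) (RJ a M / (K * M))
      (J4_Ylow _ hX8) le_rfl g9 g10 g11 g12
    have h2 := hchar (RJ a M) (XJ a M) hX8 g4 W χ T₀ T (RJ a M / (K * M)) (η / 2) hT3 hT1 g9 hd1 h1
    refine h2.trans (mul_le_mul_of_nonneg_right ?_ (by positivity))
    have h3 : C' / T ≤ η / 2 := by
      rw [div_le_iff₀ hη0] at hT2
      rw [div_le_iff₀ hT0]
      linarith
    linarith
  obtain ⟨B, hBdef⟩ : ∃ B : ℝ, B = c₁ / (Real.log (RJ a M) * Real.log M) / Nat.totient W := ⟨_, rfl⟩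
  have hB0 : 0 < B := by
    rw [hBdef]
    positivity
  have hlow : ∀ x : ℝ, |x - Real.log M| ≤ 1 → B ≤ WJ W v (RJ a M) (XJ a M) (1 / T ^ 2) x := by
    intro x hx
    rw [hBdef]
    exact hpap M hM2 v hv x hx
  have key := hwin (RJ a M) (XJ a M) M W v K (1 / T ^ 2) η B hX8 g4 g5 hW hWR hv hK1 hl0
    hη0.le hB0 hχ hlow
  have hGJ : c₁ / 100 * GJ a M / Nat.totient W = (RJ a M : ℝ) ^ 3 * B / 50 := by
    rw [hBdef]
    unfold GJ HJ
    push_cast
    field_simp
    norm_num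
  rw [hGJ]
  unfold HJ
  refine le_trans key ?_
  rw [hsη]
  have hMB : (M : ℝ) / B * FJ (RJ a M) (XJ a M) ≤ M * (Nat.totient W / c₁) := by
    have e1 : (M : ℝ) / B * FJ (RJ a M) (XJ a M) =
        M * (Nat.totient W / c₁) * (Real.log M / Real.log (XJ a M)) := by
      rw [hBdef]
      unfold FJ
      have : 0 < Real.log (XJ a M) := by linarith
      field_simp
    rw [e1]
    have e2 : Real.log M / Real.log (XJ a M) ≤ 1 := by
      rw [div_le_one (by linarith)]
      exact g14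
    have e3 : 0 ≤ (M : ℝ) * (Nat.totient W / c₁) := by positivity
    nlinarith
  have h5 : (M : ℝ) / B * (32 * (s * FJ (RJ a M) (XJ a M)) +
      130 * Real.exp (-(K ^ 2 / 576)) * (C * FJ (RJ a M) (XJ a M))) =
      (32 * s + 130 * Real.exp (-(K ^ 2 / 576)) * C) * ((M : ℝ) / B * FJ (RJ a M) (XJ a M)) := by
    ring
  rw [h5]
  have h6 : 0 ≤ 32 * s + 130 * Real.exp (-(K ^ 2 / 576)) * C := by positivity
  refine (mul_le_mul_of_nonneg_left hMB h6).trans ?_
  have h7 : (32 * s + 130 * Real.exp (-(K ^ 2 / 576)) * C) * ((M : ℝ) * (Nat.totient W / c₁)) =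
      M * (32 * s * (Nat.totient W / c₁) + A * Real.exp (-(K ^ 2 / 576))) := by
    rw [hA]
    ring
  have h8 : 32 * s * (Nat.totient W / c₁) = δ / 2 := by
    rw [hs]
    field_simp
    ring
  rw [h7, h8, mul_comm]
  refine mul_le_mul_of_nonneg_right ?_ (Nat.cast_nonneg _)
  linarith

private theorem RJ_coprime {W : ℕ} {m q s v : ℕ} (hs : Nat.Coprime s W) (h : q ≡ s * v [MOD W])
    (hv : IsCoprime ((m : ℤ) - (v : ℤ)) (W : ℤ)) :
    IsCoprime (((s * m : ℕ) : ℤ) - (q : ℤ)) (W : ℤ) := by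
  have h1 : ((s * v : ℕ) : ℤ) ≡ q [ZMOD W] := ((Int.natCast_modEq_iff).2 h).symm
  obtain ⟨k, hk⟩ := (Int.modEq_iff_dvd).1 h1
  have h2 : ((s * m : ℕ) : ℤ) - (q : ℤ) = (s : ℤ) * ((m : ℤ) - (v : ℤ)) + (W : ℤ) * (-k) := by
    push_cast at hk ⊢
    linarith
  rw [h2, IsCoprime.add_mul_left_left_iff]
  have h3 : IsCoprime (s : ℤ) (W : ℤ) := (Nat.isCoprime_iff_coprime).2 hs
  exact h3.mul_left hv

theorem model_lower_Sg (a B : ℝ) (hB : 0 ≤ B) (M w m : ℕ) (hw : 2 ≤ w) (hm : Even m)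
    (hR : w < RJ a M) (hH : HJ a M ≤ m)
    (hv : ∀ v : ℕ, Nat.Coprime v (primorial w) →
      B / Nat.totient (primorial w) ≤ ∑ s ∈ IS (RJ a M),
        (#{q ∈ Ico (s * m - HJ a M) (s * m) | q.Prime ∧ q ≡ s * v [MOD primorial w]} : ℝ)) :
    Sg (primorial w) m * B ≤ ∑ s ∈ IS (RJ a M), ∑ t ∈ Icc 1 (HJ a M),
      gW (primorial w) (HJ a M) (t : ℤ) * (if (s * m - t).Prime then 1 else 0) := by
  classical
  set W := primorial w with hW
  set H := HJ a M with hHdef
  have hWpos : 0 < W := primorial_pos w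
  have hWr : (0 : ℝ) < W := by exact_mod_cast hWpos
  have hφ : (0 : ℝ) < Nat.totient W := by exact_mod_cast Nat.totient_pos.2 hWpos
  set κ : ℝ := (W : ℝ) / (Nat.totient W : ℝ) with hκ
  have hκ0 : 0 < κ := by positivity
  set V := (range W).filter (fun v => Nat.Coprime v W ∧ IsCoprime ((m : ℤ) - (v : ℤ)) (W : ℤ))
    with hV
  have hscop : ∀ s ∈ IS (RJ a M), Nat.Coprime s W ∧ 1 ≤ s := by
    intro s hs
    unfold IS at hs
    have hs' : s.Prime ∧ RJ a M < s := by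
      simp only [Pool.Agent.Lib.MP_bae66e_nt.AP3.prI, Finset.mem_filter, Finset.mem_Ioc] at hs
      exact ⟨hs.2, hs.1.1⟩
    refine ⟨?_, hs'.1.one_lt.le⟩
    rw [hW]
    unfold primorial
    refine Nat.Coprime.prod_right fun p hp => ?_
    rw [Finset.mem_filter, Finset.mem_range] at hp
    refine (Nat.coprime_primes hs'.1 hp.2).2 ?_
    omega
  -- one `s`
  have hone : ∀ s ∈ IS (RJ a M), ∑ v ∈ V, κ *
      (#{q ∈ Ico (s * m - H) (s * m) | q.Prime ∧ q ≡ s * v [MOD W]} : ℝ) ≤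
      ∑ t ∈ Icc 1 H, gW W H (t : ℤ) * (if (s * m - t).Prime then 1 else 0) := by
    intro s hs
    obtain ⟨hsW, hs1⟩ := hscop s hs
    have hHs : H ≤ s * m := hH.trans (Nat.le_mul_of_pos_left m hs1)
    have hsub : ∑ t ∈ Icc 1 H, gW W H (t : ℤ) * (if (s * m - t).Prime then (1 : ℝ) else 0) =
        ∑ q ∈ Ico (s * m - H) (s * m), nu W (((s * m : ℕ) : ℤ) - (q : ℤ)) *
          (if q.Prime then (1 : ℝ) else 0) := by
      refine Finset.sum_bij' (fun t _ => s * m - t) (fun n _ => s * m - n) ?_ ?_ ?_ ?_ ?_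
      · intro t ht
        rw [Finset.mem_Icc] at ht
        rw [Finset.mem_Ico]
        omega
      · intro n hn
        rw [Finset.mem_Ico] at hn
        rw [Finset.mem_Icc]
        omega
      · intro t ht
        rw [Finset.mem_Icc] at ht
        omega
      · intro n hn
        rw [Finset.mem_Ico] at hn
        omega
      · intro t ht
        rw [Finset.mem_Icc] at ht
        have h1 : ((s * m : ℕ) : ℤ) - ((s * m - t : ℕ) : ℤ) = t := by
          rw [Nat.cast_sub (by omega : t ≤ s * m)]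
          ring
        rw [h1]
        unfold gW
        rw [if_pos ⟨by exact_mod_cast ht.1, by exact_mod_cast ht.2⟩]
    rw [hsub]
    have hpt : ∀ q ∈ Ico (s * m - H) (s * m),
        (∑ v ∈ V, if (q.Prime ∧ q ≡ s * v [MOD W]) then κ else 0) ≤
        nu W (((s * m : ℕ) : ℤ) - (q : ℤ)) * (if q.Prime then (1 : ℝ) else 0) := by
      intro q _
      by_cases hq : q.Prime
      · rw [if_pos hq, mul_one]
        by_cases hex : ∃ v ∈ V, q ≡ s * v [MOD W]
        · obtain ⟨v, hvV, hqv⟩ := hex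
          rw [Finset.sum_eq_single v]
          · rw [if_pos ⟨hq, hqv⟩]
            have hvV' := hvV
            rw [hV, Finset.mem_filter] at hvV'
            unfold nu
            rw [if_pos (RJ_coprime hsW hqv hvV'.2.2)]
          · intro v' hv' hne
            rw [if_neg]
            rintro ⟨-, h⟩
            apply hne
            have h1 : s * v' ≡ s * v [MOD W] := h.symm.trans hqv
            have h2 : v' ≡ v [MOD W] :=
              Nat.ModEq.cancel_left_of_coprime (by rw [Nat.gcd_comm]; exact hsW) h1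
            rw [hV, Finset.mem_filter, Finset.mem_range] at hv' hvV
            exact Nat.ModEq.eq_of_lt_of_lt h2 hv'.1 hvV.1
          · intro h
            exact absurd hvV h
        · rw [Finset.sum_eq_zero]
          · unfold nu
            split_ifs
            · exact hκ0.le
            · exact le_rfl
          · intro v hv'
            rw [if_neg]
            rintro ⟨-, h⟩
            exact hex ⟨v, hv', h⟩
      · rw [if_neg hq, mul_zero, Finset.sum_eq_zero]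
        intro v _
        rw [if_neg (fun h => hq h.1)]
    refine le_trans (le_of_eq ?_) (Finset.sum_le_sum hpt)
    rw [Finset.sum_comm]
    refine Finset.sum_congr rfl fun v _ => ?_
    rw [← Finset.sum_filter, Finset.sum_const, nsmul_eq_mul, mul_comm]
  refine le_trans ?_ (Finset.sum_le_sum hone)
  rw [Finset.sum_comm]
  have hin : ∀ v ∈ V, κ * (B / Nat.totient W) ≤ ∑ s ∈ IS (RJ a M), κ *
      (#{q ∈ Ico (s * m - H) (s * m) | q.Prime ∧ q ≡ s * v [MOD W]} : ℝ) := by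
    intro v hv'
    rw [hV, Finset.mem_filter] at hv'
    rw [← Finset.mul_sum]
    exact mul_le_mul_of_nonneg_left (hv v hv'.2.1) hκ0.le
  refine le_trans ?_ (Finset.sum_le_sum hin)
  rw [Finset.sum_const, nsmul_eq_mul]
  refine le_of_eq ?_
  have hVV : VV W m = V := rfl
  unfold Sg
  rw [hVV, hκ]
  field_simp

/-- `1 ≤ Sg` -/
private theorem RJ_Sg_one (w m : ℕ) (hw : 2 ≤ w) (hm : Even m) : 1 ≤ Sg (primorial w) m := by
  have hcard := card_classes w m hw hm
  have hWpos : 0 < primorial w := primorial_pos w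
  have hWr : (0 : ℝ) < primorial w := by exact_mod_cast hWpos
  have hφ : (0 : ℝ) < Nat.totient (primorial w) := by exact_mod_cast Nat.totient_pos.2 hWpos
  have h1 : ((Nat.totient (primorial w) : ℝ)) ^ 2 / (primorial w : ℝ) ≤
      (#(VV (primorial w) m) : ℝ) := hcard
  unfold Sg
  rw [le_div_iff₀ (by positivity), one_mul]
  rw [div_le_iff₀ hWr] at h1
  linarith

theorem first_most (c₀ : ℝ) (hc₀ : 0 < c₀) (a : ℝ) (ha : 3 ≤ a) (h1 : WINJc c₀ a) (h2 : VARJ a) :
    ∀ δ : ℝ, 0 < δ → ∃ w₀ : ℕ, ∀ w : ℕ, w₀ ≤ w → ∃ M₀ : ℕ, ∀ M : ℕ, M₀ ≤ M →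
      (#{m ∈ Icc M (2 * M) | Even m ∧
        ∑ s ∈ IS (RJ a M), ∑ t ∈ Icc 1 (HJ a M),
          fP (HJ a M) (t : ℤ) * (if (s * m - t).Prime then (1 : ℝ) else 0) <
            c₀ / 2 * Sg (primorial w) m * GJ a M} : ℝ) ≤ δ * M := by
  classical
  intro δ hδ
  have hη : 0 < c₀ ^ 2 * δ / 16 := by positivity
  obtain ⟨w₀, hvar⟩ := h2 _ hη
  refine ⟨max w₀ 2, fun w hw => ?_⟩
  have hw2 : 2 ≤ w := (le_max_right _ _).trans hw
  obtain ⟨X₁, hX₁⟩ := hvar w ((le_max_left _ _).trans hw)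
  set W := primorial w with hW
  have hWpos : 0 < W := primorial_pos w
  have hWr : (0 : ℝ) < (W : ℝ) := by exact_mod_cast hWpos
  obtain ⟨X₂, hX₂⟩ := h1 W hWpos (δ / (2 * W)) (by positivity)
  obtain ⟨X₃, hX₃⟩ := GJ_pos a ha w
  refine ⟨max X₁ (max X₂ (max X₃ 1)), fun X hX => ?_⟩
  have hXa : X₁ ≤ X := le_trans (le_max_left _ _) hX
  have hXb : X₂ ≤ X := le_trans (le_trans (le_max_left _ _) (le_max_right _ _)) hX
  have hXc : X₃ ≤ X := le_trans (le_trans (le_trans (le_max_left _ _) (le_max_right _ _))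
    (le_max_right _ _)) hX
  have hXd : 1 ≤ X := le_trans (le_trans (le_trans (le_max_right _ _) (le_max_right _ _))
    (le_max_right _ _)) hX
  obtain ⟨hGpos, hHX, hwR⟩ := hX₃ X hXc
  have hV := hX₁ X hXa
  have hWin := hX₂ X hXb
  have hXr : (0 : ℝ) < (X : ℝ) := by exact_mod_cast hXd
  set H := HJ a X with hH
  set B := c₀ * GJ a X with hB
  have hBpos : 0 < B := mul_pos hc₀ hGpos
  -- the exceptional sets
  set E : ℕ → Finset ℕ := fun v => {m ∈ Icc X (2 * X) |
    ∑ s ∈ IS (RJ a X), (#{q ∈ Ico (s * m - H) (s * m) | q.Prime ∧ q ≡ s * v [MOD W]} : ℝ)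
      < B / Nat.totient W} with hE
  set D : ℕ → ℝ := fun m => ∑ s ∈ IS (RJ a X), ∑ t ∈ Icc 1 H,
    (fP H (t : ℤ) - gW W H (t : ℤ)) * (if (s * m - t).Prime then (1 : ℝ) else 0) with hD
  set Z : Finset ℕ := {m ∈ Icc X (2 * X) | B / 2 ≤ |D m|} with hZ
  set V : Finset ℕ := {v ∈ range W | Nat.Coprime v W} with hVd
  have hEcard : ∀ v ∈ V, ((E v).card : ℝ) ≤ δ / (2 * W) * X := by
    intro v hv
    have hv' := (Finset.mem_filter.1 hv).2
    exact hWin v hv'
  have hZcard : (Z.card : ℝ) ≤ δ / 4 * X := by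
    have e1 : (Z.card : ℝ) * (B / 2) ^ 2 ≤ ∑ m ∈ Icc X (2 * X), (D m) ^ 2 := by
      calc (Z.card : ℝ) * (B / 2) ^ 2 = ∑ m ∈ Z, (B / 2) ^ 2 := by
            rw [Finset.sum_const, nsmul_eq_mul]
        _ ≤ ∑ m ∈ Z, (D m) ^ 2 := by
            apply Finset.sum_le_sum
            intro m hm
            have h := (Finset.mem_filter.1 hm).2
            rw [← sq_abs (D m)]
            exact pow_le_pow_left₀ (by positivity) h 2
        _ ≤ _ := Finset.sum_le_sum_of_subset_of_nonneg (Finset.filter_subset _ _)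
            (fun _ _ _ => sq_nonneg _)
    have e2 : (Z.card : ℝ) * (B / 2) ^ 2 ≤ c₀ ^ 2 * δ / 16 * X * (GJ a X) ^ 2 :=
      e1.trans hV
    have e3 : c₀ ^ 2 * δ / 16 * X * (GJ a X) ^ 2 = (δ / 4 * X) * (B / 2) ^ 2 := by
      rw [hB]; ring
    rw [e3] at e2
    exact le_of_mul_le_mul_right e2 (by positivity)
  have hsub : ({m ∈ Icc X (2 * X) | Even m ∧
      ∑ s ∈ IS (RJ a X), ∑ t ∈ Icc 1 H,
          fP H (t : ℤ) * (if (s * m - t).Prime then (1 : ℝ) else 0) <
          c₀ / 2 * Sg W m * GJ a X} : Finset ℕ) ⊆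
        V.biUnion E ∪ Z := by
    intro m hm
    obtain ⟨hm1, hm2, hm3⟩ := Finset.mem_filter.1 hm
    by_contra hcon
    rw [Finset.mem_union, not_or] at hcon
    obtain ⟨hc1, hc2⟩ := hcon
    have hmX : X ≤ m := (Finset.mem_Icc.1 hm1).1
    have key : Sg W m * B ≤ ∑ s ∈ IS (RJ a X), ∑ t ∈ Icc 1 H,
        gW W H (t : ℤ) * (if (s * m - t).Prime then (1 : ℝ) else 0) := by
      apply model_lower_Sg a B hBpos.le X w m hw2 hm2 hwR (hHX.trans hmX)
      intro v hv
      have hv' : v % W ∈ V := by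
        rw [hVd, Finset.mem_filter, Finset.mem_range]
        refine ⟨Nat.mod_lt _ hWpos, ?_⟩
        have : Nat.gcd (v % W) W = Nat.gcd W v := (Nat.gcd_rec W v).symm
        rw [Nat.Coprime, this, Nat.gcd_comm]
        exact hv
      have h5 : m ∉ E (v % W) := fun h => hc1 (Finset.mem_biUnion.2 ⟨_, hv', h⟩)
      rw [hE] at h5
      simp only [Finset.mem_filter, not_and, not_lt] at h5
      have h6 := h5 hm1
      refine h6.trans (le_of_eq ?_)
      refine Finset.sum_congr rfl fun s _ => ?_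
      congr 2
      apply Finset.filter_congr
      intro n _
      have h8 : s * (v % W) ≡ s * v [MOD W] := (Nat.mod_modEq v W).mul_left s
      constructor
      · rintro ⟨h, h'⟩; exact ⟨h, h'.trans h8⟩
      · rintro ⟨h, h'⟩; exact ⟨h, h'.trans h8.symm⟩
    have hD1 : |D m| < B / 2 := by
      by_contra h
      exact hc2 (Finset.mem_filter.2 ⟨hm1, not_lt.1 h⟩)
    have hD2 : D m = ∑ s ∈ IS (RJ a X), ∑ t ∈ Icc 1 H,
          fP H (t : ℤ) * (if (s * m - t).Prime then (1 : ℝ) else 0) -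
        ∑ s ∈ IS (RJ a X), ∑ t ∈ Icc 1 H,
          gW W H (t : ℤ) * (if (s * m - t).Prime then (1 : ℝ) else 0) := by
      rw [hD, ← Finset.sum_sub_distrib]
      apply Finset.sum_congr rfl
      intro s _
      rw [← Finset.sum_sub_distrib]
      apply Finset.sum_congr rfl
      intro t _
      ring
    have := (abs_lt.1 hD1).1
    rw [hD2] at this
    have hBG : c₀ / 2 * Sg W m * GJ a X = Sg W m * B / 2 := by rw [hB]; ring
    rw [hBG] at hm3
    have hSg : 1 ≤ Sg W m := RJ_Sg_one w m hw2 hm2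
    have hSB : B ≤ Sg W m * B := le_mul_of_one_le_left hBpos.le hSg
    linarith
  have hVcard : (V.card : ℝ) ≤ W := by
    have : V.card ≤ (range W).card := Finset.card_filter_le _ _
    rw [Finset.card_range] at this
    exact_mod_cast this
  calc (#{m ∈ Icc X (2 * X) | Even m ∧
        ∑ s ∈ IS (RJ a X), ∑ t ∈ Icc 1 H,
          fP H (t : ℤ) * (if (s * m - t).Prime then (1 : ℝ) else 0) <
          c₀ / 2 * Sg W m * GJ a X} : ℝ)
      ≤ ((V.biUnion E ∪ Z).card : ℝ) := by exact_mod_cast Finset.card_le_card hsub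
    _ ≤ ((V.biUnion E).card : ℝ) + (Z.card : ℝ) := by exact_mod_cast Finset.card_union_le _ _
    _ ≤ (∑ v ∈ V, ((E v).card : ℝ)) + (Z.card : ℝ) := by
        have : (V.biUnion E).card ≤ ∑ v ∈ V, (E v).card := Finset.card_biUnion_le
        have h' : ((V.biUnion E).card : ℝ) ≤ ∑ v ∈ V, ((E v).card : ℝ) := by exact_mod_cast this
        linarith
    _ ≤ (∑ v ∈ V, δ / (2 * W) * X) + δ / 4 * X := by
        have := Finset.sum_le_sum hEcard
        linarith
    _ = (V.card : ℝ) * (δ / (2 * W) * X) + δ / 4 * X := by rw [Finset.sum_const, nsmul_eq_mul]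
    _ ≤ (W : ℝ) * (δ / (2 * W) * X) + δ / 4 * X := by
        have := mul_le_mul_of_nonneg_right hVcard (by positivity : 0 ≤ δ / (2 * W) * X)
        linarith
    _ ≤ δ * X := by
        have e : (W : ℝ) * (δ / (2 * W) * X) = δ / 2 * X := by field_simp
        rw [e]
        nlinarith

end Pool.Agent.Lib.MP_bae66e_nt.AC
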