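import Pool.Agent.Lib.MP_bae66e_nt.Mg.G030
import Pool.Agent.Lib.MP_bae66e_nt.AC.RowJ

/-!
# Row K: assembly
-/

set_option autoImplicit false

namespace Pool.Agent.Lib.MP_bae66e_nt.AC

open Finset
open Pool.Agent.Lib.MP_bae66e_nt
open Pool.Agent.Lib.MP_bae66e_nt.LL (fP gW nu)
open Pool.Agent.E3

/-- the sizes: `R = ⌊(log M)^a⌋`, `z = 2 (log m)^a`, `2 R ≤ z ≤ 8 R` for `M ≤ m ≤ 2 M` -/
theorem sizes8 (a : ℝ) (ha : 3 ≤ a) : ∃ M₀ : ℕ, ∀ M m : ℕ, M₀ ≤ M → M ≤ m → m ≤ 2 * M →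
    2 ≤ Real.log M ∧ Real.log M ≤ Real.log m ∧ (4 : ℝ) ≤ RJ a M ∧ 2 * (RJ a M : ℝ) ≤ 2 * (Real.log m) ^ a ∧
      2 * (Real.log m) ^ a ≤ 8 * (RJ a M : ℝ) := by
  have t1 : Filter.Tendsto (fun X : ℕ => Real.log (X : ℝ)) Filter.atTop Filter.atTop :=
    Real.tendsto_log_atTop.comp tendsto_natCast_atTop_atTop
  obtain ⟨M₁, hM₁⟩ := Filter.eventually_atTop.1 (t1.eventually_ge_atTop (max 2 (2 * a)))
  refine ⟨max M₁ 2, fun M m hM hm hm2 => ?_⟩
  have hL' := hM₁ M ((le_max_left _ _).trans hM)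
  have hL : 2 ≤ Real.log M := (le_max_left _ _).trans hL'
  have hLa2 : 2 * a ≤ Real.log M := (le_max_right _ _).trans hL'
  have hM2 : 2 ≤ M := (le_max_right _ _).trans hM
  have hMr : (2 : ℝ) ≤ M := by exact_mod_cast hM2
  have hMpos : (0 : ℝ) < M := by linarith
  have hmr : (M : ℝ) ≤ m := by exact_mod_cast hm
  have hmr2 : (m : ℝ) ≤ 2 * M := by exact_mod_cast hm2
  have hLm : Real.log M ≤ Real.log m := Real.log_le_log hMpos hmr
  set L := Real.log M with hLdef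
  set l := Real.log m with hl
  have hL0 : 0 < L := by linarith
  have hl0 : 0 < l := by linarith
  have hLm2 : l ≤ L * (1 + 1 / L) := by
    have h1 : Real.log m ≤ Real.log (2 * M) := Real.log_le_log (by linarith) hmr2
    rw [Real.log_mul (by norm_num) hMpos.ne'] at h1
    have h2 := Real.log_two_lt_d9
    have h3 : L * (1 + 1 / L) = L + 1 := by field_simp
    rw [h3]
    linarith
  have hLa : L ^ a ≤ l ^ a := Real.rpow_le_rpow hL0.le hLm (by linarith)
  have hla : l ^ a ≤ 2 * L ^ a := by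
    have h1 : (1 + 1 / L) ^ a ≤ 2 := by
      have h2 : 1 + 1 / L ≤ Real.exp (1 / L) := by
        have := Real.add_one_le_exp (1 / L)
        linarith
      calc (1 + 1 / L) ^ a ≤ (Real.exp (1 / L)) ^ a := Real.rpow_le_rpow (by positivity) h2 (by linarith)
        _ = Real.exp (a / L) := by
            rw [← Real.exp_mul]
            congr 1
            ring
        _ ≤ Real.exp (1 / 2) := by
            apply Real.exp_le_exp.2
            rw [div_le_iff₀ hL0]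
            linarith
        _ ≤ 2 := by
            have h3 := Real.exp_one_lt_d9
            have h4 : Real.exp (1 / 2) ^ 2 = Real.exp 1 := by
              rw [← Real.exp_nat_mul]
              norm_num
            nlinarith [Real.exp_pos (1 / 2)]
    calc l ^ a ≤ (L * (1 + 1 / L)) ^ a := Real.rpow_le_rpow hl0.le hLm2 (by linarith)
      _ = L ^ a * (1 + 1 / L) ^ a := Real.mul_rpow hL0.le (by positivity)
      _ ≤ L ^ a * 2 := mul_le_mul_of_nonneg_left h1 (Real.rpow_nonneg hL0.le _)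
      _ = 2 * L ^ a := mul_comm _ _
  have hL8 : 8 ≤ L ^ a := by
    calc (8 : ℝ) = (2 : ℝ) ^ (3 : ℝ) := by norm_num
      _ ≤ L ^ (3 : ℝ) := Real.rpow_le_rpow (by norm_num) hL (by norm_num)
      _ ≤ L ^ a := Real.rpow_le_rpow_of_exponent_le (by linarith) ha
  have hR1 : (RJ a M : ℝ) ≤ L ^ a := Nat.floor_le (by linarith)
  have hR2 : L ^ a / 2 ≤ (RJ a M : ℝ) := by
    have h1 : L ^ a < (RJ a M : ℝ) + 1 := Nat.lt_floor_add_one _
    linarith
  exact ⟨hL, hLm, by linarith, by linarith, by linarith⟩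

open Classical in
/-- the multipliers `s` of the dyadic scale for which `s m - t` is prime for many primes `t ≤ H` -/
noncomputable def GQ (a τ : ℝ) (M m : ℕ) : Finset ℕ :=
  {s ∈ IS (RJ a M) | τ * (HJ a M / Real.log M) ≤ ∑ t ∈ Icc 1 (HJ a M),
    fP (HJ a M) (t : ℤ) * (if (s * m - t).Prime then (1 : ℝ) else 0)}

/-- PROOF. `U = R/log R`, `V = H/log M`, `GJ = U V`, `#IS ≤ C₃ U`, `τ = c₀/(4 C₃)`. Outside the sets of `first_most` and `second_most` (same `w`, `δ/2` each):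
the `s` outside `GQ` contribute at most `#IS τ V ≤ c₀/4 U V`, so `(c₀/4 Sg U V)² ≤ (∑_{GQ} S)² ≤ #GQ ∑ S² ≤ #GQ C Sg² U V²`, so `#GQ ≥ (c₀²/(16 C)) U`. -/
theorem many_abs_of (c₀ : ℝ) (hc₀ : 0 < c₀) : ∃ c τ a₁ : ℝ, 0 < c ∧ 0 < τ ∧ 3 ≤ a₁ ∧ ∀ a : ℝ, a₁ ≤ a →
    WINJc c₀ a → VARJ a → ∀ δ : ℝ, 0 < δ → ∃ M₀ : ℕ, ∀ M : ℕ, M₀ ≤ M →
      (#{m ∈ Icc M (2 * M) | Even m ∧
        ((GQ a τ M m).card : ℝ) < c * (RJ a M / Real.log (RJ a M))} : ℝ) ≤ δ * M := by
  classical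
  obtain ⟨C, a₁, hC, ha₁, hsec⟩ := second_most
  obtain ⟨C₃, hC₃, hIS⟩ := IS_bounds
  refine ⟨c₀ ^ 2 / (16 * C), c₀ / (4 * C₃), a₁, by positivity, by positivity, ha₁, fun a ha h1 h2 δ hδ => ?_⟩
  have ha3 : 3 ≤ a := ha₁.trans ha
  obtain ⟨w₁, hw₁⟩ := first_most c₀ hc₀ a ha3 h1 h2 (δ / 2) (by positivity)
  obtain ⟨w₂, hw₂⟩ := hsec a ha (δ / 2) (by positivity)
  set w := max (max w₁ w₂) 2 with hw
  have hw2 : 2 ≤ w := le_max_right _ _
  obtain ⟨M₁, hpos⟩ := hw₁ w ((le_max_left _ _).trans (le_max_left _ _))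
  obtain ⟨M₂, hsec⟩ := hw₂ w ((le_max_right _ _).trans (le_max_left _ _))
  obtain ⟨M₃, hG⟩ := GJ_pos a ha3 3
  refine ⟨max M₁ (max M₂ (max M₃ 16)), fun M hM => ?_⟩
  have hMa : M₁ ≤ M := (le_max_left _ _).trans hM
  have hMb : M₂ ≤ M := ((le_max_left _ _).trans (le_max_right _ _)).trans hM
  have hMc : M₃ ≤ M := ((le_max_left _ _).trans ((le_max_right _ _).trans (le_max_right _ _))).trans hM
  have hMd : 16 ≤ M := ((le_max_right _ _).trans ((le_max_right _ _).trans (le_max_right _ _))).trans hM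
  obtain ⟨hG0, hHM, hR3⟩ := hG M hMc
  have hAc := hpos M hMa
  have hZc := hsec M hMb
  have hIScard := (hIS (RJ a M) (by omega)).1
  set R := RJ a M with hR
  set H := HJ a M with hH
  have hMr : (16 : ℝ) ≤ M := by exact_mod_cast hMd
  have hMpos : (0 : ℝ) < M := by linarith
  have hRr : (3 : ℝ) < R := by exact_mod_cast hR3
  have hlR : 0 < Real.log R := Real.log_pos (by linarith)
  have hlM : 0 < Real.log M := Real.log_pos (by linarith)
  have hHpos : (0 : ℝ) < H := by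
    have : 0 < H := by
      rw [hH]
      unfold HJ
      have : 0 < RJ a M := by omega
      positivity
    exact_mod_cast this
  set U : ℝ := R / Real.log R with hU
  set V : ℝ := H / Real.log M with hV
  set τ : ℝ := c₀ / (4 * C₃) with hτ
  have hU0 : 0 < U := by positivity
  have hV0 : 0 < V := by positivity
  have hτ0 : 0 < τ := by positivity
  have hGUV : GJ a M = U * V := by
    unfold GJ
    rw [hU, hV, ← hR, ← hH]
    field_simp
  have hIScard' : (#(IS R) : ℝ) ≤ C₃ * U := by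
    refine hIScard.trans (le_of_eq ?_)
    rw [hU]
    ring
  set S : ℕ → ℕ → ℝ := fun s m => ∑ t ∈ Icc 1 H, fP H (t : ℤ) * (if (s * m - t).Prime then (1 : ℝ) else 0)
    with hS
  have hS0 : ∀ s m, 0 ≤ S s m := fun s m => Finset.sum_nonneg fun t _ =>
    mul_nonneg (fP_nn _ _) (by split_ifs <;> norm_num)
  set A : Finset ℕ := {m ∈ Icc M (2 * M) | Even m ∧ ∑ s ∈ IS R, S s m < c₀ / 2 * Sg (primorial w) m * GJ a M} with hA
  set Z : Finset ℕ := {m ∈ Icc M (2 * M) | Even m ∧ C * (Sg (primorial w) m) ^ 2 * U * V ^ 2 < ∑ s ∈ IS R, (S s m) ^ 2} with hZ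
  have hAc' : (A.card : ℝ) ≤ δ / 2 * M := hAc
  have hZc' : (Z.card : ℝ) ≤ δ / 2 * M := hZc
  have hsub : ({m ∈ Icc M (2 * M) | Even m ∧
      ((GQ a τ M m).card : ℝ) < c₀ ^ 2 / (16 * C) * (R / Real.log R)} : Finset ℕ) ⊆ A ∪ Z := by
    intro m hm
    obtain ⟨hm1, hm2, hm3⟩ := Finset.mem_filter.1 hm
    by_contra hcon
    rw [Finset.mem_union, not_or] at hcon
    obtain ⟨hn1, hn2⟩ := hcon
    have hSg := (one_le_Sg w m hw2 hm2).1
    set σ : ℝ := Sg (primorial w) m with hσ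
    have g1 : c₀ / 2 * σ * GJ a M ≤ ∑ s ∈ IS R, S s m := by
      by_contra h
      exact hn1 (Finset.mem_filter.2 ⟨hm1, hm2, not_le.1 h⟩)
    have g2 : ∑ s ∈ IS R, (S s m) ^ 2 ≤ C * σ ^ 2 * U * V ^ 2 := by
      by_contra h
      exact hn2 (Finset.mem_filter.2 ⟨hm1, hm2, not_le.1 h⟩)
    have hGQ : GQ a τ M m = (IS R).filter fun s => τ * V ≤ S s m := rfl
    have g3 : ∑ s ∈ IS R, S s m ≤ (∑ s ∈ GQ a τ M m, S s m) + c₀ / 4 * (U * V) := by
      rw [hGQ, ← Finset.sum_filter_add_sum_filter_not (IS R) (fun s => τ * V ≤ S s m)]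
      have k1 : ∑ s ∈ (IS R).filter (fun s => ¬ τ * V ≤ S s m), S s m ≤ (#(IS R) : ℝ) * (τ * V) := by
        have k2 : ∑ s ∈ (IS R).filter (fun s => ¬ τ * V ≤ S s m), S s m ≤
            (#((IS R).filter (fun s => ¬ τ * V ≤ S s m)) : ℝ) * (τ * V) := by
          rw [← nsmul_eq_mul]
          exact Finset.sum_le_card_nsmul _ _ _ fun s hs => (not_le.1 (Finset.mem_filter.1 hs).2).le
        refine k2.trans (mul_le_mul_of_nonneg_right ?_ (by positivity))
        exact_mod_cast Finset.card_filter_le _ _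
      have k3 : (#(IS R) : ℝ) * (τ * V) ≤ c₀ / 4 * (U * V) := by
        calc (#(IS R) : ℝ) * (τ * V) ≤ (C₃ * U) * (τ * V) :=
              mul_le_mul_of_nonneg_right hIScard' (by positivity)
          _ = c₀ / 4 * (U * V) := by
              rw [hτ]
              field_simp
      linarith
    have g4 : (∑ s ∈ GQ a τ M m, S s m) ^ 2 ≤ ((GQ a τ M m).card : ℝ) * ∑ s ∈ GQ a τ M m, (S s m) ^ 2 :=
      sq_sum_le_card_mul_sum_sq
    have g5 : ∑ s ∈ GQ a τ M m, (S s m) ^ 2 ≤ ∑ s ∈ IS R, (S s m) ^ 2 :=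
      Finset.sum_le_sum_of_subset_of_nonneg (by rw [hGQ]; exact Finset.filter_subset _ _) fun _ _ _ => sq_nonneg _
    have hσ0 : 0 < σ := by linarith
    have g55 : c₀ / 4 * σ * (U * V) ≤ ∑ s ∈ GQ a τ M m, S s m := by
      rw [hGUV] at g1
      have k4 : c₀ / 4 * (U * V) ≤ c₀ / 4 * σ * (U * V) := by
        have : 0 ≤ c₀ / 4 * (U * V) := by positivity
        nlinarith
      linarith
    have g6 : (c₀ / 4 * σ * (U * V)) ^ 2 ≤ ((GQ a τ M m).card : ℝ) * (C * σ ^ 2 * U * V ^ 2) := by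
      calc (c₀ / 4 * σ * (U * V)) ^ 2 ≤ (∑ s ∈ GQ a τ M m, S s m) ^ 2 :=
            pow_le_pow_left₀ (by positivity) g55 2
        _ ≤ ((GQ a τ M m).card : ℝ) * ∑ s ∈ GQ a τ M m, (S s m) ^ 2 := g4
        _ ≤ ((GQ a τ M m).card : ℝ) * (C * σ ^ 2 * U * V ^ 2) :=
            mul_le_mul_of_nonneg_left (g5.trans g2) (Nat.cast_nonneg _)
    have g7 : (c₀ ^ 2 / (16 * C) * U) * (C * σ ^ 2 * U * V ^ 2) ≤ ((GQ a τ M m).card : ℝ) * (C * σ ^ 2 * U * V ^ 2) := by
      refine le_trans (le_of_eq ?_) g6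
      field_simp
      ring
    have g8 := le_of_mul_le_mul_right g7 (by positivity)
    rw [hU] at g8
    linarith
  calc (#{m ∈ Icc M (2 * M) | Even m ∧
      ((GQ a τ M m).card : ℝ) < c₀ ^ 2 / (16 * C) * (R / Real.log R)} : ℝ)
      ≤ ((A ∪ Z).card : ℝ) := by exact_mod_cast Finset.card_le_card hsub
    _ ≤ (A.card : ℝ) + (Z.card : ℝ) := by exact_mod_cast Finset.card_union_le _ _
    _ ≤ δ * M := by linarith

open Classical in
/-- the number of the primes `p ≤ y` with `n - p` prime -/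
noncomputable def reps (n : ℕ) (y : ℝ) : ℕ :=
  #{p ∈ Icc 1 ⌊y⌋₊ | p.Prime ∧ ∃ q : ℕ, q.Prime ∧ n = p + q}

open Classical in
/-- the primes `r ≤ z` such that `r m` has at least `c π(z²)/log m` representations `p + q` with `p ≤ z²` -/
noncomputable def goodR (c : ℝ) (m : ℕ) (z : ℝ) : Finset ℕ :=
  {r ∈ Icc 1 ⌊z⌋₊ | r.Prime ∧ c * ((Nat.primeCounting ⌊z ^ 2⌋₊ : ℝ) / Real.log m) ≤ reps (r * m) (z ^ 2)}

/-- `H ≤ z² ≤ 32 H`, and the number of the `t ≤ H` is at least `τ H/(log H log M) ≥ (τ/320) π(z²)/log m`. -/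
theorem GQ_good (a τ : ℝ) (ha : 3 ≤ a) (hτ : 0 < τ) : ∃ M₀ : ℕ, ∀ M m : ℕ, M₀ ≤ M → M ≤ m → m ≤ 2 * M →
    GQ a τ M m ⊆ goodR (τ / 320) m (2 * (Real.log m) ^ a) ∧
    (Nat.primeCounting ⌊2 * (Real.log m) ^ a⌋₊ : ℝ) ≤ 80 * (RJ a M / Real.log (RJ a M)) := by
  classical
  obtain ⟨M₀, hM₀⟩ := sizes8 a ha
  refine ⟨M₀, fun M m hM hm hm2 => ?_⟩
  obtain ⟨hL, hLm, hR4, hRz, hzR⟩ := hM₀ M m hM hm hm2
  set R := RJ a M with hR
  set z : ℝ := 2 * (Real.log m) ^ a with hz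
  have hHdef : HJ a M = 2 * R ^ 2 := rfl
  set H := HJ a M with hH
  have hHr : (H : ℝ) = 2 * (R : ℝ) ^ 2 := by
    rw [hHdef]
    push_cast
    ring
  have hz0 : 0 < z := by linarith
  have hHz : (H : ℝ) ≤ z ^ 2 := by
    rw [hHr]
    nlinarith
  have hzH : z ^ 2 ≤ 32 * (H : ℝ) := by
    rw [hHr]
    nlinarith
  have hHfl : H ≤ ⌊z ^ 2⌋₊ := Nat.le_floor hHz
  have hH32 : (32 : ℝ) ≤ H := by
    rw [hHr]
    nlinarith
  have hH2 : 2 ≤ H := by
    have : (2 : ℝ) ≤ H := by linarith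
    exact_mod_cast this
  have hlH : 0 < Real.log H := Real.log_pos (by linarith)
  have hlM : 0 < Real.log M := by linarith
  have hpiH : (Nat.primeCounting ⌊z ^ 2⌋₊ : ℝ) ≤ 160 * H / Real.log H := by
    have h1 := pi_upper ⌊z ^ 2⌋₊ (hH2.trans hHfl)
    have h2 : (⌊z ^ 2⌋₊ : ℝ) ≤ z ^ 2 := Nat.floor_le (by positivity)
    have h3 : Real.log H ≤ Real.log (⌊z ^ 2⌋₊ : ℝ) := Real.log_le_log (by linarith) (by exact_mod_cast hHfl)
    refine h1.trans ?_
    calc 5 * (⌊z ^ 2⌋₊ : ℝ) / Real.log (⌊z ^ 2⌋₊ : ℝ) ≤ 5 * (32 * H) / Real.log H := by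
          gcongr
          linarith
      _ = 160 * H / Real.log H := by ring
  refine ⟨?_, ?_⟩
  · intro s hs
    unfold GQ at hs
    obtain ⟨hs1, hs2⟩ := Finset.mem_filter.1 hs
    have hs' : s.Prime ∧ s ≤ 2 * R := by
      unfold IS at hs1
      simp only [Pool.Agent.Lib.MP_bae66e_nt.AP3.prI, Finset.mem_filter, Finset.mem_Ioc] at hs1
      exact ⟨hs1.2, hs1.1.2⟩
    unfold goodR
    rw [Finset.mem_filter, Finset.mem_Icc]
    refine ⟨⟨hs'.1.one_lt.le, ?_⟩, hs'.1, ?_⟩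
    · apply Nat.le_floor
      have : (s : ℝ) ≤ ((2 * R : ℕ) : ℝ) := by exact_mod_cast hs'.2
      push_cast at this
      linarith
    -- the number of representations
    have h1 : ∑ t ∈ Icc 1 H, fP H (t : ℤ) * (if (s * m - t).Prime then (1 : ℝ) else 0) ≤
        Real.log H * (reps (s * m) (z ^ 2) : ℝ) := by
      have h2 : ∀ t ∈ Icc 1 H, fP H (t : ℤ) * (if (s * m - t).Prime then (1 : ℝ) else 0) ≤
          if ((t : ℕ).Prime ∧ (s * m - t).Prime) then Real.log H else 0 := by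
        intro t _
        by_cases hp : t.Prime
        · by_cases hq : (s * m - t).Prime
          · have h5 : (if (t.Prime ∧ (s * m - t).Prime) then Real.log (H : ℝ) else 0) = Real.log H :=
              if_pos ⟨hp, hq⟩
            rw [h5, if_pos hq, mul_one]
            unfold fP
            split_ifs
            · exact le_rfl
            · exact hlH.le
          · have h5 : (if (t.Prime ∧ (s * m - t).Prime) then Real.log (H : ℝ) else 0) = 0 :=
              if_neg fun h => hq h.2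
            rw [h5, if_neg hq, mul_zero]
        · have h5 : (if (t.Prime ∧ (s * m - t).Prime) then Real.log (H : ℝ) else 0) = 0 :=
            if_neg fun h => hp h.1
          rw [h5]
          have h6 : fP H (t : ℤ) = 0 := by
            unfold fP
            rw [if_neg]
            rintro ⟨-, -, h⟩
            exact hp (by simpa using h)
          rw [h6, zero_mul]
      refine (Finset.sum_le_sum h2).trans ?_
      rw [← Finset.sum_filter, Finset.sum_const, nsmul_eq_mul, mul_comm]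
      refine mul_le_mul_of_nonneg_left ?_ hlH.le
      refine Nat.cast_le.2 (Finset.card_le_card fun t ht => ?_)
      rw [Finset.mem_filter, Finset.mem_Icc] at ht ⊢
      obtain ⟨⟨ht1, ht2⟩, ht3, ht4⟩ := ht
      refine ⟨⟨ht1, ht2.trans hHfl⟩, ht3, s * m - t, ht4, ?_⟩
      have := ht4.pos
      omega
    have h3 : τ * (H / Real.log M) ≤ Real.log H * (reps (s * m) (z ^ 2) : ℝ) := hs2.trans h1
    have h4 : (Nat.primeCounting ⌊z ^ 2⌋₊ : ℝ) / Real.log m ≤ (160 * H / Real.log H) / Real.log M := by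
      gcongr
    calc τ / 320 * ((Nat.primeCounting ⌊z ^ 2⌋₊ : ℝ) / Real.log m) ≤
        τ / 320 * ((160 * H / Real.log H) / Real.log M) := mul_le_mul_of_nonneg_left h4 (by positivity)
      _ = τ * (H / Real.log M) / Real.log H / 2 := by ring
      _ ≤ τ * (H / Real.log M) / Real.log H := by
          have : 0 ≤ τ * (H / Real.log M) / Real.log H := by positivity
          linarith
      _ ≤ (Real.log H * (reps (s * m) (z ^ 2) : ℝ)) / Real.log H := div_le_div_of_nonneg_right h3 hlH.le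
      _ = (reps (s * m) (z ^ 2) : ℝ) := by field_simp
  · have hRfl : R ≤ ⌊z⌋₊ := Nat.le_floor (by linarith)
    have hR2 : 2 ≤ R := by
      have : (2 : ℝ) ≤ R := by linarith
      exact_mod_cast this
    have h1 := pi_upper ⌊z⌋₊ (hR2.trans hRfl)
    have h2 : (⌊z⌋₊ : ℝ) ≤ z := Nat.floor_le hz0.le
    have h3 : Real.log R ≤ Real.log (⌊z⌋₊ : ℝ) := Real.log_le_log (by linarith) (by exact_mod_cast hRfl)
    have hlR : 0 < Real.log R := Real.log_pos (by linarith)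
    refine h1.trans ?_
    calc 5 * (⌊z⌋₊ : ℝ) / Real.log (⌊z⌋₊ : ℝ) ≤ 5 * (8 * R) / Real.log R := by
          gcongr
          linarith
      _ = 40 * (R / Real.log R) := by ring
      _ ≤ 80 * (R / Real.log R) := by
          have : 0 ≤ (R : ℝ) / Real.log R := by positivity
          linarith

theorem goodR_anti {c c' : ℝ} (h : c ≤ c') {m : ℕ} (z : ℝ) : goodR c' m z ⊆ goodR c m z := by
  classical
  intro r hr
  unfold goodR at hr ⊢
  rw [Finset.mem_filter] at hr ⊢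
  refine ⟨hr.1, hr.2.1, le_trans ?_ hr.2.2⟩
  exact mul_le_mul_of_nonneg_right h (div_nonneg (Nat.cast_nonneg _) (Real.log_natCast_nonneg m))

open Classical in
/-- There are `c > 0` and `a₀` such that for all `a ≥ a₀` and almost all even `m`: for `z = 2 (log m)^a`, at least `c π(z)` of the primes
`r ≤ z` are such that `r m` has at least `c π(z²)/log m` representations `p + q`, `p ≤ z²`. -/
theorem many_abs : ∃ c a₀ : ℝ, 0 < c ∧ ∀ a : ℝ, a₀ ≤ a → ∀ δ : ℝ, 0 < δ →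
    ∃ N₀ : ℕ, ∀ N : ℕ, N₀ ≤ N →
      (#{m ∈ Icc 1 N | Even m ∧ ¬ (c * (Nat.primeCounting ⌊2 * (Real.log (((m : ℕ)) : ℝ)) ^ a⌋₊ : ℝ) ≤
        ((goodR c m (2 * (Real.log (m : ℝ)) ^ a)).card : ℝ))} : ℝ) ≤ δ * N := by
  obtain ⟨θ, hθ, -, hT⟩ := t3q
  obtain ⟨a₀, ha₀, hcore⟩ := corej_of θ hθ hT nlv
  obtain ⟨c₀, hc₀, hwin⟩ := winj_abs
  obtain ⟨c, τ, a₁, hc, hτ, ha₁, hmany⟩ := many_abs_of c₀ hc₀
  refine ⟨min (c / 80) (τ / 320), max (a₀ + 1 / 2) (max a₁ 4), lt_min (by positivity) (by positivity),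
    fun a ha δ hδ => ?_⟩
  have h1 : a₀ + 1 / 2 ≤ a := (le_max_left _ _).trans ha
  have h2 : a₁ ≤ a := ((le_max_left _ _).trans (le_max_right _ _)).trans ha
  have h3 : 3 ≤ a := ha₁.trans h2
  have hW : WINJc c₀ a := hwin a h3 (hcore _ (by linarith))
  obtain ⟨X1, hX1⟩ := hmany a h2 hW (varj a h3) (δ / 4) (by positivity)
  obtain ⟨X2, hX2⟩ := GQ_good a τ h3 hτ
  have h4 : ∀ N : ℕ, δ * N = 4 * (δ / 4) * N := fun N => by ring
  simp only [h4]
  refine @dyadic_bad _ _ (δ / 4) (by positivity) (max X1 X2) ?_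
  intro X hX
  refine le_trans ?_ (hX1 X ((le_max_left _ _).trans hX))
  rw [Nat.cast_le]
  apply Finset.card_le_card
  intro m hm
  obtain ⟨hm1, hm2, hm3⟩ := Finset.mem_filter.1 hm
  rw [Finset.mem_filter]
  refine ⟨hm1, hm2, ?_⟩
  by_contra hcon
  push Not at hcon
  apply hm3
  obtain ⟨hsub, hz⟩ := hX2 X m ((le_max_right _ _).trans hX) (Finset.mem_Icc.1 hm1).1
    (Finset.mem_Icc.1 hm1).2
  calc min (c / 80) (τ / 320) * (Nat.primeCounting ⌊2 * (Real.log m) ^ a⌋₊ : ℝ)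
      ≤ (c / 80) * (80 * (RJ a X / Real.log (RJ a X))) :=
        mul_le_mul (min_le_left _ _) hz (Nat.cast_nonneg _) (by positivity)
    _ = c * (RJ a X / Real.log (RJ a X)) := by
        field_simp
    _ ≤ ((GQ a τ X m).card : ℝ) := hcon
    _ ≤ ((goodR (min (c / 80) (τ / 320)) m (2 * (Real.log m) ^ a)).card : ℝ) := by
        exact_mod_cast Finset.card_le_card (hsub.trans (goodR_anti (min_le_right _ _) _))

end Pool.Agent.Lib.MP_bae66e_nt.AC
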