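import Pool.Agent.Lib.MP_bae66e_nt.AC.RowB
import Pool.Agent.Lib.MP_bae66e_nt.AC.RowC

set_option autoImplicit false

namespace Pool.Agent.Lib.MP_bae66e_nt.AC

open Finset

variable {P T : ℕ} {G : ℝ} {lam : ℕ → ℝ}

/-- the majorant as a sum over pairs of divisors -/
theorem RV_sg (P : ℕ) (lam : ℕ → ℝ) (n : ℕ) :
    sg P lam n = ∑ x ∈ P.divisors ×ˢ P.divisors,
      lam x.1 * lam x.2 * (if x.1.lcm x.2 ∣ n then 1 else 0) := by
  unfold sg
  rw [sq, Finset.sum_filter, Finset.sum_mul_sum, Finset.sum_product]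
  refine Finset.sum_congr rfl fun a _ => Finset.sum_congr rfl fun b _ => ?_
  by_cases h1 : a ∣ n <;> by_cases h2 : b ∣ n <;> simp [Nat.lcm_dvd_iff, h1, h2]

/-- the sum of the absolute values of the weights -/
theorem RV_lam (h : SD P T G lam) :
    ∑ x ∈ P.divisors ×ˢ P.divisors, |lam x.1 * lam x.2| ≤ (T : ℝ) ^ 2 := by
  have h1 : ∑ d ∈ P.divisors, |lam d| ≤ T := by
    have h2 : ∑ d ∈ P.divisors, |lam d| = ∑ d ∈ P.divisors with d ≤ T, |lam d| := by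
      rw [Finset.sum_filter]
      refine Finset.sum_congr rfl fun d _ => ?_
      by_cases hd : d ≤ T
      · rw [if_pos hd]
      · rw [if_neg hd, h.supp d (by omega), abs_zero]
    rw [h2]
    have h3 : ∑ d ∈ P.divisors with d ≤ T, |lam d| ≤ ∑ d ∈ P.divisors with d ≤ T, (1 : ℝ) :=
      Finset.sum_le_sum fun d hd => h.bd d (Nat.dvd_of_mem_divisors (Finset.mem_filter.1 hd).1)
    refine h3.trans ?_
    rw [Finset.sum_const, nsmul_eq_mul, mul_one]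
    have h4 : P.divisors.filter (fun d => d ≤ T) ⊆ Finset.Icc 1 T := by
      intro d hd
      rw [Finset.mem_filter] at hd
      exact Finset.mem_Icc.2 ⟨Nat.pos_of_mem_divisors hd.1, hd.2⟩
    have h5 := Finset.card_le_card h4
    rw [Nat.card_Icc, Nat.add_sub_cancel] at h5
    exact_mod_cast h5
  have h6 : ∑ x ∈ P.divisors ×ˢ P.divisors, |lam x.1 * lam x.2| = (∑ d ∈ P.divisors, |lam d|) ^ 2 := by
    rw [sq, Finset.sum_mul_sum, Finset.sum_product]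
    refine Finset.sum_congr rfl fun a _ => Finset.sum_congr rfl fun b _ => ?_
    rw [abs_mul]
  rw [h6]
  have h7 : 0 ≤ ∑ d ∈ P.divisors, |lam d| := Finset.sum_nonneg fun _ _ => abs_nonneg _
  exact pow_le_pow_left₀ h7 h1 2

/-- the index set of the double sum -/
def RV_Z (P H : ℕ) : Finset (ℕ × ℕ × ℕ) := Icc 1 H ×ˢ (P.divisors ×ˢ P.divisors)

/-- the weights -/
noncomputable def RV_w (lam F : ℕ → ℝ) (z : ℕ × ℕ × ℕ) : ℝ := F z.1 * (lam z.2.1 * lam z.2.2)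

/-- the indicator -/
noncomputable def RV_i (s m : ℕ) (z : ℕ × ℕ × ℕ) : ℝ :=
  if z.2.1.lcm z.2.2 ∣ s * m - z.1 then 1 else 0

theorem RV_Y (s m H : ℕ) (F : ℕ → ℝ) :
    ∑ t ∈ Icc 1 H, F t * sg P lam (s * m - t) =
      ∑ z ∈ RV_Z P H, RV_w lam F z * RV_i s m z := by
  unfold RV_Z RV_w RV_i
  rw [Finset.sum_product]
  refine Finset.sum_congr rfl fun t _ => ?_
  rw [RV_sg, Finset.mul_sum]
  refine Finset.sum_congr rfl fun x _ => ?_
  ring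

theorem RV_w_le (h : SD P T G lam) (H : ℕ) (F : ℕ → ℝ) :
    ∑ z ∈ RV_Z P H, |RV_w lam F z| ≤ (∑ t ∈ Icc 1 H, |F t|) * (T : ℝ) ^ 2 := by
  have h1 : ∑ z ∈ RV_Z P H, |RV_w lam F z| =
      (∑ t ∈ Icc 1 H, |F t|) * ∑ x ∈ P.divisors ×ˢ P.divisors, |lam x.1 * lam x.2| := by
    unfold RV_Z RV_w
    rw [Finset.sum_product, Finset.sum_mul_sum]
    refine Finset.sum_congr rfl fun t _ => Finset.sum_congr rfl fun x _ => ?_
    rw [abs_mul]
  rw [h1]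
  exact mul_le_mul_of_nonneg_left (RV_lam h) (Finset.sum_nonneg fun _ _ => abs_nonneg _)

theorem RV_mem {z : ℕ × ℕ × ℕ} {H : ℕ} (hz : z ∈ RV_Z P H) :
    (1 ≤ z.1 ∧ z.1 ≤ H) ∧ z.2.1.lcm z.2.2 ∣ P := by
  unfold RV_Z at hz
  rw [Finset.mem_product, Finset.mem_product, Finset.mem_Icc] at hz
  exact ⟨hz.1, Nat.lcm_dvd (Nat.dvd_of_mem_divisors hz.2.1) (Nat.dvd_of_mem_divisors hz.2.2)⟩

/-- the first moment -/
theorem RV_first (h : SD P T G lam) (M W c s H : ℕ) (F : ℕ → ℝ) (hW : 1 ≤ W)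
    (hPW : Nat.Coprime P W) (hPs : Nat.Coprime P s) (hs : 1 ≤ s) (hHM : H ≤ M) (hM : 1 ≤ M) :
    |(∑ m ∈ Icc M (2 * M) with m ≡ c [MOD W], ∑ t ∈ Icc 1 H, F t * sg P lam (s * m - t)) -
      (∑ t ∈ Icc 1 H, F t) * (((M : ℝ) + 1) / W * (1 / G))| ≤
      (∑ t ∈ Icc 1 H, |F t|) * (T : ℝ) ^ 2 := by
  have hP0 : P ≠ 0 := h.sqf.ne_zero
  have h1 : (∑ m ∈ Icc M (2 * M) with m ≡ c [MOD W], ∑ t ∈ Icc 1 H, F t * sg P lam (s * m - t)) =
      ∑ z ∈ RV_Z P H, RV_w lam F z *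
        (#{m ∈ Icc M (2 * M) | m ≡ c [MOD W] ∧ z.2.1.lcm z.2.2 ∣ s * m - z.1} : ℝ) := by
    have h2 : ∀ m ∈ (Icc M (2 * M)).filter (fun m => m ≡ c [MOD W]),
        ∑ t ∈ Icc 1 H, F t * sg P lam (s * m - t) =
          ∑ z ∈ RV_Z P H, RV_w lam F z * RV_i s m z := fun m _ => RV_Y s m H F
    rw [Finset.sum_congr rfl h2, Finset.sum_comm]
    refine Finset.sum_congr rfl fun z _ => ?_
    rw [← Finset.mul_sum]
    congr 1
    unfold RV_i
    rw [← Finset.filter_filter, Finset.card_filter]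
    push_cast
    rfl
  have h2 : (∑ t ∈ Icc 1 H, F t) * (((M : ℝ) + 1) / W * (1 / G)) =
      ∑ z ∈ RV_Z P H, RV_w lam F z * (((M : ℝ) + 1) / (W * (z.2.1.lcm z.2.2 : ℕ))) := by
    rw [← Uc_one h]
    unfold RV_Z RV_w Uc
    rw [Finset.sum_product, Finset.sum_mul]
    refine Finset.sum_congr rfl fun t _ => ?_
    have e : (P.divisors ×ˢ P.divisors).filter (fun x => 1 ∣ x.1.lcm x.2) =
        P.divisors ×ˢ P.divisors := by
      refine Finset.filter_true_of_mem fun x _ => one_dvd _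
    rw [e, Finset.mul_sum, Finset.mul_sum]
    refine Finset.sum_congr rfl fun x hx => ?_
    rw [Finset.mem_product] at hx
    have hl0 : ((x.1.lcm x.2 : ℕ) : ℝ) ≠ 0 := by
      have : x.1.lcm x.2 ≠ 0 := Nat.lcm_ne_zero (Nat.pos_of_mem_divisors hx.1).ne'
        (Nat.pos_of_mem_divisors hx.2).ne'
      exact_mod_cast this
    have hW0 : (W : ℝ) ≠ 0 := by
      have : W ≠ 0 := by omega
      exact_mod_cast this
    simp only
    field_simp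
  rw [h1, h2, ← Finset.sum_sub_distrib]
  refine (Finset.abs_sum_le_sum_abs _ _).trans (le_trans ?_ (RV_w_le h H F))
  refine Finset.sum_le_sum fun z hz => ?_
  obtain ⟨⟨hz1, hz2⟩, hz3⟩ := RV_mem hz
  rw [← mul_sub, abs_mul]
  have hf1 : 1 ≤ z.2.1.lcm z.2.2 :=
    Nat.one_le_iff_ne_zero.2 (ne_zero_of_dvd_ne_zero hP0 hz3)
  have htM : z.1 ≤ s * M := by nlinarith
  have h3 := count_one M W c s (z.2.1.lcm z.2.2) z.1 hW hf1 (Nat.Coprime.of_dvd_left hz3 hPW)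
    (Nat.Coprime.of_dvd_left hz3 hPs) htM hM
  calc |RV_w lam F z| * _ ≤ |RV_w lam F z| * 1 := by gcongr
    _ = |RV_w lam F z| := mul_one _

/-- the second moment -/
theorem RV_second (h : SD P T G lam) (M W c s H : ℕ) (F : ℕ → ℝ) (hW : 1 ≤ W)
    (hPW : Nat.Coprime P W) (hPs : Nat.Coprime P s) (hs : 1 ≤ s) (hHM : H ≤ M) (hM : 1 ≤ M) :
    |(∑ m ∈ Icc M (2 * M) with m ≡ c [MOD W],
        (∑ t ∈ Icc 1 H, F t * sg P lam (s * m - t)) ^ 2) -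
      ((M : ℝ) + 1) / W * ∑ e ∈ P.divisors, (Uc P lam e) ^ 2 *
        ∑ k ∈ e.divisors, (ArithmeticFunction.moebius (e / k) : ℝ) * k * Ek H k F| ≤
      ((∑ t ∈ Icc 1 H, |F t|) * (T : ℝ) ^ 2) ^ 2 := by
  have hP0 : P ≠ 0 := h.sqf.ne_zero
  have hW0 : (W : ℝ) ≠ 0 := by
    have : W ≠ 0 := by omega
    exact_mod_cast this
  have h1 : (∑ m ∈ Icc M (2 * M) with m ≡ c [MOD W],
        (∑ t ∈ Icc 1 H, F t * sg P lam (s * m - t)) ^ 2) =
      ∑ z ∈ RV_Z P H, ∑ z' ∈ RV_Z P H, RV_w lam F z * RV_w lam F z' *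
        (#{m ∈ Icc M (2 * M) | m ≡ c [MOD W] ∧ z.2.1.lcm z.2.2 ∣ s * m - z.1 ∧
          z'.2.1.lcm z'.2.2 ∣ s * m - z'.1} : ℝ) := by
    have h2 : ∀ m ∈ (Icc M (2 * M)).filter (fun m => m ≡ c [MOD W]),
        (∑ t ∈ Icc 1 H, F t * sg P lam (s * m - t)) ^ 2 =
          ∑ z ∈ RV_Z P H, ∑ z' ∈ RV_Z P H, RV_w lam F z * RV_w lam F z' *
            (RV_i s m z * RV_i s m z') := by
      intro m _
      rw [RV_Y s m H F, sq, Finset.sum_mul_sum]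
      refine Finset.sum_congr rfl fun z _ => Finset.sum_congr rfl fun z' _ => ?_
      ring
    rw [Finset.sum_congr rfl h2, Finset.sum_comm]
    refine Finset.sum_congr rfl fun z _ => ?_
    rw [Finset.sum_comm]
    refine Finset.sum_congr rfl fun z' _ => ?_
    rw [← Finset.mul_sum]
    congr 1
    unfold RV_i
    rw [← Finset.filter_filter, Finset.card_filter]
    push_cast
    refine Finset.sum_congr rfl fun m _ => ?_
    by_cases h3 : z.2.1.lcm z.2.2 ∣ s * m - z.1 <;>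
      by_cases h4 : z'.2.1.lcm z'.2.2 ∣ s * m - z'.1 <;> simp [h3, h4]
  have h2 : ((M : ℝ) + 1) / W * ∑ e ∈ P.divisors, (Uc P lam e) ^ 2 *
        ∑ k ∈ e.divisors, (ArithmeticFunction.moebius (e / k) : ℝ) * k * Ek H k F =
      ∑ z ∈ RV_Z P H, ∑ z' ∈ RV_Z P H, RV_w lam F z * RV_w lam F z' *
        (if z.1 ≡ z'.1 [MOD (z.2.1.lcm z.2.2).gcd (z'.2.1.lcm z'.2.2)] then
          ((M : ℝ) + 1) / (W * (((z.2.1.lcm z.2.2).lcm (z'.2.1.lcm z'.2.2) : ℕ) : ℝ)) else 0) := by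
    rw [← expand P H hP0 lam F, Finset.mul_sum]
    unfold RV_Z RV_w Ek
    conv_rhs => rw [Finset.sum_product_right]
    refine Finset.sum_congr rfl fun x hx => ?_
    have h3 : ∀ t ∈ Icc 1 H, (∑ z' ∈ Icc 1 H ×ˢ (P.divisors ×ˢ P.divisors),
        F t * (lam x.1 * lam x.2) * (F z'.1 * (lam z'.2.1 * lam z'.2.2)) *
        (if t ≡ z'.1 [MOD (x.1.lcm x.2).gcd (z'.2.1.lcm z'.2.2)] then
          ((M : ℝ) + 1) / (W * (((x.1.lcm x.2).lcm (z'.2.1.lcm z'.2.2) : ℕ) : ℝ)) else 0)) =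
        ∑ y ∈ P.divisors ×ˢ P.divisors, ∑ t' ∈ Icc 1 H,
        F t * (lam x.1 * lam x.2) * (F t' * (lam y.1 * lam y.2)) *
        (if t ≡ t' [MOD (x.1.lcm x.2).gcd (y.1.lcm y.2)] then
          ((M : ℝ) + 1) / (W * (((x.1.lcm x.2).lcm (y.1.lcm y.2) : ℕ) : ℝ)) else 0) := by
      intro t _
      rw [Finset.sum_product_right]
    refine Eq.trans ?_ (Finset.sum_congr rfl h3).symm
    rw [Finset.sum_comm, Finset.mul_sum]
    refine Finset.sum_congr rfl fun y hy => ?_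
    rw [Finset.sum_div, Finset.mul_sum, Finset.mul_sum]
    refine Finset.sum_congr rfl fun t _ => ?_
    rw [Finset.sum_div, Finset.mul_sum, Finset.mul_sum]
    refine Finset.sum_congr rfl fun t' _ => ?_
    rw [Finset.mem_product] at hx hy
    have hl0 : (((x.1.lcm x.2).lcm (y.1.lcm y.2) : ℕ) : ℝ) ≠ 0 := by
      have : (x.1.lcm x.2).lcm (y.1.lcm y.2) ≠ 0 := Nat.lcm_ne_zero
        (Nat.lcm_ne_zero (Nat.pos_of_mem_divisors hx.1).ne' (Nat.pos_of_mem_divisors hx.2).ne')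
        (Nat.lcm_ne_zero (Nat.pos_of_mem_divisors hy.1).ne' (Nat.pos_of_mem_divisors hy.2).ne')
      exact_mod_cast this
    split_ifs
    · field_simp
    · simp
  rw [h1, h2, ← Finset.sum_sub_distrib]
  have h5 : ((∑ z ∈ RV_Z P H, |RV_w lam F z|) ^ 2) ≤
      ((∑ t ∈ Icc 1 H, |F t|) * (T : ℝ) ^ 2) ^ 2 :=
    pow_le_pow_left₀ (Finset.sum_nonneg fun _ _ => abs_nonneg _) (RV_w_le h H F) 2
  refine (Finset.abs_sum_le_sum_abs _ _).trans (le_trans ?_ h5)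
  rw [sq, Finset.sum_mul_sum]
  refine Finset.sum_le_sum fun z hz => ?_
  rw [← Finset.sum_sub_distrib]
  refine (Finset.abs_sum_le_sum_abs _ _).trans ?_
  refine Finset.sum_le_sum fun z' hz' => ?_
  obtain ⟨⟨hz1, hz2⟩, hz3⟩ := RV_mem hz
  obtain ⟨⟨hz1', hz2'⟩, hz3'⟩ := RV_mem hz'
  rw [← mul_sub, abs_mul, abs_mul]
  have hf1 : 1 ≤ z.2.1.lcm z.2.2 :=
    Nat.one_le_iff_ne_zero.2 (ne_zero_of_dvd_ne_zero hP0 hz3)
  have hf1' : 1 ≤ z'.2.1.lcm z'.2.2 :=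
    Nat.one_le_iff_ne_zero.2 (ne_zero_of_dvd_ne_zero hP0 hz3')
  have htM : z.1 ≤ s * M := by nlinarith
  have htM' : z'.1 ≤ s * M := by nlinarith
  have h3 := count_two M W c s (z.2.1.lcm z.2.2) (z'.2.1.lcm z'.2.2) z.1 z'.1 hW hf1 hf1'
    (Nat.Coprime.of_dvd_left hz3 hPW) (Nat.Coprime.of_dvd_left hz3 hPs)
    (Nat.Coprime.of_dvd_left hz3' hPW) (Nat.Coprime.of_dvd_left hz3' hPs) htM htM' hM
  calc |RV_w lam F z| * |RV_w lam F z'| * _ ≤ |RV_w lam F z| * |RV_w lam F z'| * 1 := by gcongr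
    _ = |RV_w lam F z| * |RV_w lam F z'| := mul_one _

/-- the number of `m` -/
theorem RV_zero (M W c : ℕ) (hW : 1 ≤ W) (hM : 1 ≤ M) :
    |(#{m ∈ Icc M (2 * M) | m ≡ c [MOD W]} : ℝ) - ((M : ℝ) + 1) / W| ≤ 1 := by
  have h := count_one M W c 1 1 0 hW le_rfl (Nat.coprime_one_left _) (Nat.coprime_one_left _)
    (Nat.zero_le _) hM
  have e : (Icc M (2 * M)).filter (fun m => m ≡ c [MOD W] ∧ 1 ∣ 1 * m - 0) =
      (Icc M (2 * M)).filter (fun m => m ≡ c [MOD W]) := by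
    refine Finset.filter_congr fun m _ => ?_
    simp
  rw [e] at h
  simpa using h

/-- the sums `X_e` -/
theorem RV_X (H e : ℕ) (F : ℕ → ℝ) :
    ∑ k ∈ e.divisors, (ArithmeticFunction.moebius (e / k) : ℝ) * k * Ek H k F ≤
      ∑ k ∈ e.divisors, (k : ℝ) * Ek H k (fun t => |F t|) := by
  refine Finset.sum_le_sum fun k _ => ?_
  have h1 : |Ek H k F| ≤ Ek H k (fun t => |F t|) := by
    unfold Ek
    refine (Finset.abs_sum_le_sum_abs _ _).trans (Finset.sum_le_sum fun t _ => ?_)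
    refine (Finset.abs_sum_le_sum_abs _ _).trans (Finset.sum_le_sum fun t' _ => ?_)
    split_ifs
    · rw [abs_mul]
    · rw [abs_zero]
  have h2 : |(ArithmeticFunction.moebius (e / k) : ℝ)| ≤ 1 := by
    exact_mod_cast ArithmeticFunction.abs_moebius_le_one
  have h3 : |(ArithmeticFunction.moebius (e / k) : ℝ) * k * Ek H k F| ≤
      1 * (k : ℝ) * Ek H k (fun t => |F t|) := by
    rw [abs_mul, abs_mul, Nat.abs_cast]
    gcongr
  rw [one_mul] at h3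
  exact (le_abs_self _).trans h3

/-- PROOF. `sg(n) = ∑_{x ∈ P.divisors²} lam x₁ lam x₂ 1[lcm x ∣ n]` (`lcm ∣ n` iff both divide), `lam d ≠ 0` only for `d ≤ T` and `|lam d| ≤ 1`. With `A = ∑ F`, `B = ∑ |F|`, `N = (M+1)/W`:
(1) `∑_m (∑_t F sg)² = ∑_{t,t'} F F' ∑_{x,y} lam⁴ #{m : lcm x ∣ s m - t, lcm y ∣ s m - t'}`, by `count_two` equal to `N ∑_{x,y} lam⁴ Ek(gcd)/lcm` up to `B² T⁴`; by `expand` this is
`N ∑_e Uc(e)² X_e`, the term `e = 1` is `(1/G)² A²` (`Uc_one`), `|X_e| ≤ ∑_{k ∣ e} k Ek(|F|)`.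
(2) `∑_m ∑_t F sg = A (N/G + θ T²)` (`count_one`, `Uc_one`: `∑_x lam lam/lcm = 1/G`), error at most `B T²`.
(3) `#m = N + θ` (`count_one` with `f = 1`).
Expand the square; the errors are at most `B² T⁴ + 2 (A/G) B T² + (A/G)² ≤ 4 B² T⁴` (`G ≥ 1`, `T ≥ 1`). -/
theorem variance (h : SD P T G lam) (M W c s H : ℕ) (F : ℕ → ℝ) (hT : 1 ≤ T) (hW : 1 ≤ W) (hPW : Nat.Coprime P W)
    (hPs : Nat.Coprime P s) (hs : 1 ≤ s) (hHM : H ≤ M) (hM : 1 ≤ M) :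
    ∑ m ∈ Icc M (2 * M) with m ≡ c [MOD W],
        ((∑ t ∈ Icc 1 H, F t * sg P lam (s * m - t)) - (∑ t ∈ Icc 1 H, F t) / G) ^ 2 ≤
      ((M : ℝ) + 1) / W * (∑ e ∈ P.divisors with e ≠ 1, (Uc P lam e) ^ 2 *
        ∑ k ∈ e.divisors, (k : ℝ) * Ek H k (fun t => |F t|)) + 4 * (∑ t ∈ Icc 1 H, |F t|) ^ 2 * (T : ℝ) ^ 4 := by
  have hP0 : P ≠ 0 := h.sqf.ne_zero
  have hG1 := h.gone
  have h1 := RV_first h M W c s H F hW hPW hPs hs hHM hM
  have h2 := RV_second h M W c s H F hW hPW hPs hs hHM hM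
  have h0 := RV_zero M W c hW hM
  set S := (Icc M (2 * M)).filter (fun m => m ≡ c [MOD W]) with hS
  set A := ∑ t ∈ Icc 1 H, F t with hA
  set B := ∑ t ∈ Icc 1 H, |F t| with hB
  set N : ℝ := ((M : ℝ) + 1) / W with hN
  have hN0 : 0 ≤ N := by rw [hN]; positivity
  have hAB : |A| ≤ B := Finset.abs_sum_le_sum_abs _ _
  have hB0 : 0 ≤ B := (abs_nonneg A).trans hAB
  -- expand the square
  have e1 : ∑ m ∈ S, ((∑ t ∈ Icc 1 H, F t * sg P lam (s * m - t)) - A / G) ^ 2 =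
      (∑ m ∈ S, (∑ t ∈ Icc 1 H, F t * sg P lam (s * m - t)) ^ 2) -
        2 * (A / G) * (∑ m ∈ S, ∑ t ∈ Icc 1 H, F t * sg P lam (s * m - t)) +
        (A / G) ^ 2 * (#S : ℝ) := by
    have : ∀ m ∈ S, ((∑ t ∈ Icc 1 H, F t * sg P lam (s * m - t)) - A / G) ^ 2 =
        (∑ t ∈ Icc 1 H, F t * sg P lam (s * m - t)) ^ 2 -
        2 * (A / G) * (∑ t ∈ Icc 1 H, F t * sg P lam (s * m - t)) + (A / G) ^ 2 := by
      intro m _
      ring
    rw [Finset.sum_congr rfl this, Finset.sum_add_distrib, Finset.sum_sub_distrib,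
      ← Finset.mul_sum, Finset.sum_const, nsmul_eq_mul]
    ring
  -- the term `e = 1`
  have e2 : ∑ e ∈ P.divisors, (Uc P lam e) ^ 2 *
        ∑ k ∈ e.divisors, (ArithmeticFunction.moebius (e / k) : ℝ) * k * Ek H k F =
      (A / G) ^ 2 + ∑ e ∈ P.divisors with e ≠ 1, (Uc P lam e) ^ 2 *
        ∑ k ∈ e.divisors, (ArithmeticFunction.moebius (e / k) : ℝ) * k * Ek H k F := by
    have hm : (1 : ℕ) ∈ P.divisors := Nat.one_mem_divisors.2 hP0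
    have hf : P.divisors.filter (fun e => e ≠ 1) = P.divisors.erase 1 := by
      ext e
      simp only [Finset.mem_filter, Finset.mem_erase]
      tauto
    rw [hf, ← Finset.add_sum_erase _ _ hm, Uc_one h]
    congr 1
    have hE : Ek H 1 F = A ^ 2 := by
      unfold Ek
      rw [sq, hA, Finset.sum_mul_sum]
      refine Finset.sum_congr rfl fun t _ => Finset.sum_congr rfl fun t' _ => ?_
      rw [if_pos (Nat.modEq_one)]
    rw [Nat.divisors_one, Finset.sum_singleton, hE]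
    simp
    ring
  have e3 : ∑ e ∈ P.divisors with e ≠ 1, (Uc P lam e) ^ 2 *
        ∑ k ∈ e.divisors, (ArithmeticFunction.moebius (e / k) : ℝ) * k * Ek H k F ≤
      ∑ e ∈ P.divisors with e ≠ 1, (Uc P lam e) ^ 2 *
        ∑ k ∈ e.divisors, (k : ℝ) * Ek H k (fun t => |F t|) :=
    Finset.sum_le_sum fun e _ => mul_le_mul_of_nonneg_left (RV_X H e F) (sq_nonneg _)
  rw [e2] at h2
  rw [e1]
  set Y2 := ∑ m ∈ S, (∑ t ∈ Icc 1 H, F t * sg P lam (s * m - t)) ^ 2 with hY2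
  set Y1 := ∑ m ∈ S, ∑ t ∈ Icc 1 H, F t * sg P lam (s * m - t) with hY1
  set R := ∑ e ∈ P.divisors with e ≠ 1, (Uc P lam e) ^ 2 *
        ∑ k ∈ e.divisors, (ArithmeticFunction.moebius (e / k) : ℝ) * k * Ek H k F with hR
  set R' := ∑ e ∈ P.divisors with e ≠ 1, (Uc P lam e) ^ 2 *
        ∑ k ∈ e.divisors, (k : ℝ) * Ek H k (fun t => |F t|) with hR'
  have hNR : N * R ≤ N * R' := mul_le_mul_of_nonneg_left e3 hN0
  have hT1 : (1 : ℝ) ≤ (T : ℝ) ^ 2 := by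
    have : (1 : ℝ) ≤ T := by exact_mod_cast hT
    exact one_le_pow₀ this
  have hAG : |A / G| ≤ B := by
    rw [abs_div, abs_of_pos (by linarith : (0 : ℝ) < G)]
    rw [div_le_iff₀ (by linarith)]
    nlinarith
  have hT4 : (T : ℝ) ^ 4 = (T : ℝ) ^ 2 * (T : ℝ) ^ 2 := by ring
  -- the three errors
  have g2 := (abs_le.1 h2).2
  have g0 := (abs_le.1 h0).2
  have hx : A * (N * (1 / G)) = N * (A / G) := by ring
  rw [hx] at h1
  have g1 : -(2 * (A / G) * (Y1 - N * (A / G))) ≤ 2 * B * (B * (T : ℝ) ^ 2) := by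
    have k1 : |2 * (A / G) * (Y1 - N * (A / G))| ≤ 2 * B * (B * (T : ℝ) ^ 2) := by
      rw [abs_mul, abs_mul, abs_two]
      gcongr
    exact (neg_le_abs _).trans k1
  have g3 : (A / G) ^ 2 ≤ B ^ 2 := by
    rw [← sq_abs]
    exact pow_le_pow_left₀ (abs_nonneg _) hAG 2
  have g4 : (A / G) ^ 2 * ((#S : ℝ) - N) ≤ B ^ 2 * 1 := by
    have k2 : (A / G) ^ 2 * ((#S : ℝ) - N) ≤ (A / G) ^ 2 * 1 :=
      mul_le_mul_of_nonneg_left g0 (sq_nonneg _)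
    linarith
  have g5 : B ^ 2 * 1 ≤ B ^ 2 * ((T : ℝ) ^ 2 * (T : ℝ) ^ 2) := by
    gcongr
    nlinarith
  have g6 : 2 * B * (B * (T : ℝ) ^ 2) ≤ 2 * (B ^ 2 * ((T : ℝ) ^ 2 * (T : ℝ) ^ 2)) := by
    have : B ^ 2 * ((T : ℝ) ^ 2 * 1) ≤ B ^ 2 * ((T : ℝ) ^ 2 * (T : ℝ) ^ 2) := by gcongr
    nlinarith
  rw [hT4]
  have g7 : (B * (T : ℝ) ^ 2) ^ 2 = B ^ 2 * ((T : ℝ) ^ 2 * (T : ℝ) ^ 2) := by ring
  rw [g7] at g2
  nlinarith [g2, g1, g4, g5, g6, hNR]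

end Pool.Agent.Lib.MP_bae66e_nt.AC
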